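import Pool.Agent.K3h14.SW.Good

/-!
Self-avoiding walks on `ℤ³`: the lower bound for the number of bridges of every length.
-/

set_option autoImplicit false

namespace Pool.Agent.K3h14.SW

open Finset Pool.Agent.H46R2.K3 Pool.Agent.H46R2.K3.P Pool.Agent.W325.S3 Filter

theorem hb_pow (m a : ℕ) : hb m ^ a ≤ hb (a * m) := by
  induction a with
  | zero =>
    have := hb_low 0
    simpa using this
  | succ a ih =>
    rw [pow_succ, add_mul, one_mul]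
    exact (mul_le_mul_of_nonneg_right ih (hb_pos m).le).trans (hb_mul _ _)

/-- the cost at the scale `t` -/
noncomputable def ft (C : ℝ) (t : ℕ) : ℝ := C * (((t : ℝ) + 1) ^ 3 * (2 ^ t * TH232.S3.Pm t))

theorem Pm_pos (t : ℕ) : 0 < TH232.S3.Pm t := by
  have := TH232.S3.one_le_Pm t
  linarith

theorem Pm_mono {s t : ℕ} (h : s ≤ t) : TH232.S3.Pm s ≤ TH232.S3.Pm t :=
  TH232.S3.Pm_le fun _ hs' => TH232.S3.p_le_Pm (hs'.trans h)

theorem ft_nonneg {C : ℝ} (hC : 0 ≤ C) (t : ℕ) : 0 ≤ ft C t := by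
  have := Pm_pos t
  unfold ft
  positivity

theorem ft_succ {C : ℝ} (hC : 0 ≤ C) (t : ℕ) : 2 * ft C t ≤ ft C (t + 1) := by
  have h1 := Pm_mono (Nat.le_succ t)
  have h2 := Pm_pos t
  unfold ft
  calc 2 * (C * (((t : ℝ) + 1) ^ 3 * (2 ^ t * TH232.S3.Pm t)))
      = C * (((t : ℝ) + 1) ^ 3 * (2 ^ (t + 1) * TH232.S3.Pm t)) := by rw [pow_succ]; ring
    _ ≤ C * ((((t + 1 : ℕ) : ℝ) + 1) ^ 3 * (2 ^ (t + 1) * TH232.S3.Pm (t + 1))) := by
        gcongr
        push_cast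
        linarith

theorem log_mu_le : Real.log mu ≤ 2 := by
  have h1 := mu_le_six
  have h2 : (6 : ℝ) ≤ Real.exp 2 := by
    have h4 := Real.exp_one_gt_d9
    have : Real.exp 2 = Real.exp 1 * Real.exp 1 := by rw [← Real.exp_add]; norm_num
    rw [this]; nlinarith
  rw [Real.log_le_iff_le_exp mu0]
  linarith

theorem hb_low' (n : ℕ) : Real.exp (-(2 * (n : ℝ))) ≤ hb n := by
  refine le_trans ?_ (hb_low n)
  rw [Real.exp_neg, ← one_div]
  apply one_div_le_one_div_of_le (pow_pos mu0 n)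
  rw [← Real.exp_log (pow_pos mu0 n), Real.log_pow]
  apply Real.exp_le_exp.2
  have := log_mu_le
  have hn : (0 : ℝ) ≤ n := Nat.cast_nonneg n
  nlinarith

/-- all lengths, in terms of the scales -/
theorem all_scales : ∃ (t₀ : ℕ) (C D : ℝ), 0 ≤ C ∧ 0 ≤ D ∧
    ∀ t ≥ t₀, ∀ n < 8 ^ t, Real.exp (-(D + 32 * ft C t)) ≤ hb n := by
  obtain ⟨t₀, C, ht₀, hC, h⟩ := good
  choose! m hm1 hm2 hm3 using h
  refine ⟨t₀, C, 8 * 8 ^ t₀, hC, by positivity, ?_⟩
  have key : ∀ k n : ℕ, n < m (t₀ + k) →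
      Real.exp (-(8 * 8 ^ t₀ + 32 * ft C (t₀ + k))) ≤ hb n := by
    intro k
    induction k with
    | zero =>
      intro n hn
      refine le_trans (Real.exp_le_exp.2 ?_) (hb_low' n)
      have h1 := hm2 t₀ le_rfl
      have h2 : n ≤ 4 * 8 ^ t₀ := by rw [add_zero] at hn; omega
      have h3 : (n : ℝ) ≤ 4 * 8 ^ t₀ := by exact_mod_cast h2
      have h4 := ft_nonneg hC (t₀ + 0)
      linarith
    | succ k ih =>
      intro n hn
      obtain ⟨M, hM⟩ : ∃ M, M = m (t₀ + k) := ⟨_, rfl⟩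
      have h1 := hm1 (t₀ + k) (by omega)
      have h2 := hm2 (t₀ + (k + 1)) (by omega)
      have h3 := hm3 (t₀ + k) (by omega)
      rw [← hM] at h1 h3
      have hM0 : 0 < M := lt_of_lt_of_le (by positivity) h1
      have h4 : n / M ≤ 31 := by
        have h5 : n < 32 * M := by
          calc n < m (t₀ + (k + 1)) := hn
            _ ≤ 4 * 8 ^ (t₀ + (k + 1)) := h2
            _ = 32 * 8 ^ (t₀ + k) := by rw [← add_assoc, pow_succ]; ring
            _ ≤ 32 * M := by omega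
        have h6 : n / M < 32 := Nat.div_lt_of_lt_mul (by rw [mul_comm]; exact h5)
        omega
      have h5 := ih (n % M) (by rw [← hM]; exact Nat.mod_lt _ hM0)
      have h6 : hb M ^ (n / M) * hb (n % M) ≤ hb n := by
        have h7 := hb_mul (n / M * M) (n % M)
        rw [Nat.div_add_mod'] at h7
        exact (mul_le_mul_of_nonneg_right (hb_pow M (n / M)) (hb_pos _).le).trans h7
      refine le_trans ?_ h6
      have h7 : Real.exp (-(ft C (t₀ + k))) ^ (n / M) ≤ hb M ^ (n / M) := by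
        have h8 : Real.exp (-(ft C (t₀ + k))) ≤ hb M := h3
        gcongr
      have h8 := ft_nonneg hC (t₀ + k)
      have h9 := ft_succ hC (t₀ + k)
      have h10 : ((n / M : ℕ) : ℝ) ≤ 31 := by exact_mod_cast h4
      calc Real.exp (-(8 * 8 ^ t₀ + 32 * ft C (t₀ + (k + 1))))
          ≤ Real.exp (((n / M : ℕ) : ℝ) * (-(ft C (t₀ + k))) +
            -(8 * 8 ^ t₀ + 32 * ft C (t₀ + k))) := by
            apply Real.exp_le_exp.2
            rw [← add_assoc]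
            nlinarith
        _ = Real.exp (-(ft C (t₀ + k))) ^ (n / M) *
            Real.exp (-(8 * 8 ^ t₀ + 32 * ft C (t₀ + k))) := by
            rw [Real.exp_add, Real.exp_nat_mul]
        _ ≤ hb M ^ (n / M) * hb (n % M) :=
            mul_le_mul h7 h5 (Real.exp_pos _).le (pow_nonneg (hb_pos M).le _)
  intro t ht n hn
  obtain ⟨k, rfl⟩ := Nat.exists_eq_add_of_le ht
  exact key k n (lt_of_lt_of_le hn (hm1 _ (by omega)))

/-- **The lower bound for bridges.** -/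
theorem hb_bound : ∃ K : ℝ, 0 < K ∧ ∀ n : ℕ, 3 ≤ n →
    Real.exp (-(K * (n : ℝ) ^ (1 / 3 : ℝ) * Real.exp (K * Real.log (Real.log n) ^ 2))) ≤ hb n := by
  obtain ⟨t₀, C, D, hC, hD, h⟩ := all_scales
  obtain ⟨K₁, A, hK₁, hA, hPm⟩ := Pm_bound
  obtain ⟨B, hB⟩ : ∃ B : ℝ, B = Real.log (4 + t₀) := ⟨_, rfl⟩
  obtain ⟨K₂, hK₂⟩ : ∃ K₂ : ℝ, K₂ = C * 2 ^ (t₀ + 1) * K₁ * Real.exp 3 *
    Real.exp (2 * (A + 3) * B ^ 2) := ⟨_, rfl⟩
  have ht00 : (0 : ℝ) ≤ t₀ := Nat.cast_nonneg t₀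
  have hB0 : 0 ≤ B := by rw [hB]; exact Real.log_nonneg (by linarith)
  have hK20 : 0 ≤ K₂ := by rw [hK₂]; positivity
  refine ⟨max (D + 32 * K₂) (2 * (A + 3)), lt_max_of_lt_right (by positivity), ?_⟩
  intro n hn
  obtain ⟨s, hs'⟩ : ∃ s, s = Nat.clog 8 (n + 1) := ⟨_, rfl⟩
  have h1 : n + 1 ≤ 8 ^ s := by rw [hs']; exact Nat.le_pow_clog (by norm_num) _
  have h2 : 8 ^ (s - 1) < n + 1 := by
    rw [hs']; exact Nat.pow_pred_clog_lt_self (by norm_num) (by omega)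
  have hs1 : 1 ≤ s := by
    by_contra h0
    have : s = 0 := by omega
    rw [this] at h1
    omega
  have hn3 : (3 : ℝ) ≤ n := by exact_mod_cast hn
  have hn0 : (0 : ℝ) ≤ n := by linarith
  have hlog1 : 1 ≤ Real.log n := by
    have h5 : Real.log (Real.exp 1) ≤ Real.log n := by
      apply Real.log_le_log (Real.exp_pos 1)
      have := Real.exp_one_lt_d9
      linarith
    rwa [Real.log_exp] at h5
  have h8n : (8 : ℝ) ^ (s - 1) ≤ n := by
    have : 8 ^ (s - 1) ≤ n := by omega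
    exact_mod_cast this
  have h3 : (2 : ℝ) ^ s ≤ 2 * (n : ℝ) ^ (1 / 3 : ℝ) := by
    have h6 : (2 : ℝ) ^ (s - 1) = ((8 : ℝ) ^ (s - 1)) ^ (1 / 3 : ℝ) := by
      have e : (8 : ℝ) ^ (s - 1) = ((2 : ℝ) ^ (s - 1)) ^ (3 : ℝ) := by
        have : (3 : ℝ) = ((3 : ℕ) : ℝ) := by norm_num
        rw [this, Real.rpow_natCast, ← pow_mul, mul_comm, pow_mul]
        norm_num
      rw [e, ← Real.rpow_mul (by positivity)]
      norm_num
    have h7 : (2 : ℝ) ^ s = 2 * 2 ^ (s - 1) := by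
      rw [← pow_succ', show s - 1 + 1 = s by omega]
    rw [h7, h6]
    gcongr
  obtain ⟨T, hT⟩ : ∃ T, T = t₀ + s := ⟨_, rfl⟩
  have h4 : (T : ℝ) + 2 ≤ (4 + t₀) * Real.log n := by
    have h5 : ((s - 1 : ℕ) : ℝ) * Real.log 8 ≤ Real.log n := by
      rw [← Real.log_pow]
      exact Real.log_le_log (by positivity) h8n
    have h6 : (1 : ℝ) ≤ Real.log 8 := by
      have h7 : Real.log (Real.exp 1) ≤ Real.log 8 := by
        apply Real.log_le_log (Real.exp_pos 1)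
        have := Real.exp_one_lt_d9
        linarith
      rwa [Real.log_exp] at h7
    have h7 : (0 : ℝ) ≤ ((s - 1 : ℕ) : ℝ) := Nat.cast_nonneg _
    have h8 : ((s - 1 : ℕ) : ℝ) ≤ Real.log n := by nlinarith
    rw [Nat.cast_sub hs1] at h8
    rw [hT]
    push_cast at h8 ⊢
    nlinarith
  obtain ⟨x, hx⟩ : ∃ x : ℝ, x = Real.log (Real.log n) := ⟨_, rfl⟩
  have hx0 : 0 ≤ x := by rw [hx]; exact Real.log_nonneg hlog1
  have hT0 : (0 : ℝ) ≤ T := Nat.cast_nonneg T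
  obtain ⟨L, hL⟩ : ∃ L : ℝ, L = Real.log ((T : ℝ) + 2) := ⟨_, rfl⟩
  have hLle : L ≤ B + x := by
    rw [hL, hB, hx, ← Real.log_mul (by positivity) (by positivity)]
    exact Real.log_le_log (by linarith) h4
  have hL0 : 0 ≤ L := by rw [hL]; exact Real.log_nonneg (by linarith)
  have hsq : L ^ 2 ≤ 2 * B ^ 2 + 2 * x ^ 2 := by
    calc L ^ 2 ≤ (B + x) ^ 2 := by gcongr
      _ ≤ 2 * B ^ 2 + 2 * x ^ 2 := by nlinarith [sq_nonneg (B - x)]
  have hr0 : (0 : ℝ) ≤ (n : ℝ) ^ (1 / 3 : ℝ) := by positivity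
  have hr1 : (1 : ℝ) ≤ (n : ℝ) ^ (1 / 3 : ℝ) := Real.one_le_rpow (by linarith) (by norm_num)
  have hf : ft C T ≤ K₂ * (n : ℝ) ^ (1 / 3 : ℝ) * Real.exp (2 * (A + 3) * x ^ 2) := by
    have a1 : ((T : ℝ) + 1) ^ 3 ≤ Real.exp (3 + 3 * L ^ 2) := by
      have a2 : (T : ℝ) + 1 ≤ Real.exp L := by
        rw [hL, Real.exp_log (by linarith)]; linarith
      calc ((T : ℝ) + 1) ^ 3 ≤ Real.exp L ^ 3 := by gcongr
        _ = Real.exp (3 * L) := by rw [← Real.exp_nat_mul]; norm_num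
        _ ≤ Real.exp (3 + 3 * L ^ 2) := by
            apply Real.exp_le_exp.2
            nlinarith [sq_nonneg (L - 1)]
    have a3 : TH232.S3.Pm T ≤ K₁ * Real.exp (A * L ^ 2) := by rw [hL]; exact hPm T
    have a4 : (2 : ℝ) ^ T ≤ 2 ^ (t₀ + 1) * (n : ℝ) ^ (1 / 3 : ℝ) := by
      rw [hT, pow_add, pow_succ (2 : ℝ) t₀]
      calc (2 : ℝ) ^ t₀ * 2 ^ s ≤ 2 ^ t₀ * (2 * (n : ℝ) ^ (1 / 3 : ℝ)) := by gcongr
        _ = _ := by ring
    have a5 := Pm_pos T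
    unfold ft
    calc C * (((T : ℝ) + 1) ^ 3 * (2 ^ T * TH232.S3.Pm T))
        ≤ C * (Real.exp (3 + 3 * L ^ 2) * ((2 ^ (t₀ + 1) * (n : ℝ) ^ (1 / 3 : ℝ)) *
          (K₁ * Real.exp (A * L ^ 2)))) := by gcongr
      _ = C * 2 ^ (t₀ + 1) * K₁ * Real.exp 3 * (n : ℝ) ^ (1 / 3 : ℝ) *
          Real.exp ((A + 3) * L ^ 2) := by
          rw [Real.exp_add, show (A + 3) * L ^ 2 = A * L ^ 2 + 3 * L ^ 2 by ring, Real.exp_add]
          ring
      _ ≤ C * 2 ^ (t₀ + 1) * K₁ * Real.exp 3 * (n : ℝ) ^ (1 / 3 : ℝ) *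
          Real.exp ((A + 3) * (2 * B ^ 2 + 2 * x ^ 2)) := by gcongr
      _ = K₂ * (n : ℝ) ^ (1 / 3 : ℝ) * Real.exp (2 * (A + 3) * x ^ 2) := by
          rw [hK₂, show (A + 3) * (2 * B ^ 2 + 2 * x ^ 2) =
            2 * (A + 3) * B ^ 2 + 2 * (A + 3) * x ^ 2 by ring, Real.exp_add]
          ring
  have hfin := h T (by omega) n (by
    have : 8 ^ s ≤ 8 ^ T := Nat.pow_le_pow_right (by norm_num) (by omega)
    omega)
  refine le_trans (Real.exp_le_exp.2 (neg_le_neg ?_)) hfin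
  rw [← hx]
  have he1 : 1 ≤ Real.exp (2 * (A + 3) * x ^ 2) := Real.one_le_exp (by positivity)
  have hprod : 1 ≤ (n : ℝ) ^ (1 / 3 : ℝ) * Real.exp (2 * (A + 3) * x ^ 2) := by
    calc (1 : ℝ) = 1 * 1 := (one_mul 1).symm
      _ ≤ _ := mul_le_mul hr1 he1 zero_le_one hr0
  calc D + 32 * ft C T ≤ D * ((n : ℝ) ^ (1 / 3 : ℝ) * Real.exp (2 * (A + 3) * x ^ 2)) +
        32 * (K₂ * (n : ℝ) ^ (1 / 3 : ℝ) * Real.exp (2 * (A + 3) * x ^ 2)) := by
        have := mul_le_mul_of_nonneg_left hprod hD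
        linarith
    _ = (D + 32 * K₂) * (n : ℝ) ^ (1 / 3 : ℝ) * Real.exp (2 * (A + 3) * x ^ 2) := by ring
    _ ≤ _ := by
        have hD2 : 0 ≤ D + 32 * K₂ := by positivity
        gcongr
        · exact le_max_left _ _
        · exact le_max_right _ _

end Pool.Agent.K3h14.SW
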