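import Pool.Agent.H46R2.K3.LE
import Pool.Agent.H46R2.K3.MU
import Pool.Agent.H46R2.K3.Basic

/-!
Self-avoiding walks on `ℤ³`: bridge-like words with few coincidences are at most as numerous as
slightly longer bridges.  A closed piece is cut out and replaced by bridges at the end, so that the
length is kept.
-/

set_option autoImplicit false

namespace Pool.Agent.K3h14.SW

open Finset Pool.Agent.H46R2.K3 Pool.Agent.H46R2.K3.P

theorem one_le_b_one : 1 ≤ b 1 := by
  classical
  unfold b
  rw [Nat.one_le_iff_ne_zero, Finset.card_ne_zero]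
  refine ⟨[((0 : Fin 3), true)], ?_⟩
  rw [Finset.mem_filter, mem_W]
  have h := loop_br_cons (x := []) saw_nil (by intro i hi; simp at hi; subst hi; simp [pos, disp])
  exact ⟨rfl, h⟩

theorem one_le_b (n : ℕ) : 1 ≤ b n := by
  have h := mu_b_pow 1 n
  rw [one_mul] at h
  exact (Nat.one_le_pow _ _ one_le_b_one).trans h

theorem b_mono (m j : ℕ) : b m ≤ b (m + j) := by
  calc b m = b m * 1 := (mul_one _).symm
    _ ≤ b m * b j := Nat.mul_le_mul_left _ (one_le_b j)
    _ ≤ b (m + j) := mu_b_mul m j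

/-- simple closed words and bridges -/
theorem loops_le_b (m : ℕ) (hm : 1 ≤ m) : loops m ≤ m * (m + 1) * b (m + 2) := by
  rcases Nat.lt_or_ge m 2 with h2 | h2
  · have h1 : m = 1 := by omega
    rw [h1, loop_one]
    exact Nat.zero_le _
  · have e1 := loop_le_P hm
    have e2 := loop_P_le h2
    have e3 : ∑ k ∈ range (m + 1), b (k + 1) * b (m - k + 1) ≤
        ∑ _k ∈ range (m + 1), b (m + 2) := by
      apply Finset.sum_le_sum
      intro k hk
      rw [Finset.mem_range] at hk
      have := mu_b_mul (k + 1) (m - k + 1)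
      rwa [show k + 1 + (m - k + 1) = m + 2 by omega] at this
    rw [Finset.sum_const, Finset.card_range, smul_eq_mul] at e3
    calc loops m ≤ m * #(loopP m) := e1
      _ ≤ m * ((m + 1) * b (m + 2)) := Nat.mul_le_mul_left _ (e2.trans e3)
      _ = m * (m + 1) * b (m + 2) := by ring

/-- bridge-like words with at most `k` coincidences -/
theorem G_le_b (L k : ℕ) : G L k ≤ (2 * (L + 1) ^ 4) ^ k * b (L + 2 * k) := by
  induction k generalizing L with
  | zero =>
    rw [pow_zero, one_mul, mul_zero, add_zero]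
    exact le_G_zero L
  | succ k ih =>
    have h1 := G_succ L k
    set Z : ℕ := (2 * (L + 1) ^ 4) ^ k with hZ
    have hZ1 : 1 ≤ Z := Nat.one_le_pow _ _ (by positivity)
    have hb0 : b L ≤ Z * b (L + 2 * (k + 1)) := by
      calc b L ≤ b (L + 2 * (k + 1)) := b_mono _ _
        _ = 1 * b (L + 2 * (k + 1)) := (one_mul _).symm
        _ ≤ Z * b (L + 2 * (k + 1)) := Nat.mul_le_mul_right _ hZ1
    have hterm : ∀ m ∈ Icc 1 L, (L + 1) * (loops m * G (L - m) k) ≤
        (L + 1) ^ 3 * (Z * b (L + 2 * (k + 1))) := by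
      intro m hm
      rw [Finset.mem_Icc] at hm
      have a1 : loops m ≤ (L + 1) ^ 2 * b (m + 2) := by
        refine (loops_le_b m hm.1).trans (Nat.mul_le_mul_right _ ?_)
        rw [pow_two]
        exact Nat.mul_le_mul (by omega) (by omega)
      have a2 : G (L - m) k ≤ Z * b (L - m + 2 * k) := by
        refine (ih (L - m)).trans (Nat.mul_le_mul_right _ ?_)
        rw [hZ]
        gcongr
        omega
      have a3 : b (m + 2) * b (L - m + 2 * k) ≤ b (L + 2 * (k + 1)) := by
        have := mu_b_mul (m + 2) (L - m + 2 * k)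
        rwa [show m + 2 + (L - m + 2 * k) = L + 2 * (k + 1) by omega] at this
      calc (L + 1) * (loops m * G (L - m) k)
          ≤ (L + 1) * (((L + 1) ^ 2 * b (m + 2)) * (Z * b (L - m + 2 * k))) := by gcongr
        _ = (L + 1) ^ 3 * (Z * (b (m + 2) * b (L - m + 2 * k))) := by ring
        _ ≤ (L + 1) ^ 3 * (Z * b (L + 2 * (k + 1))) := by gcongr
    have hsum := Finset.sum_le_sum hterm
    rw [Finset.sum_const, Nat.card_Icc, smul_eq_mul, Nat.add_sub_cancel] at hsum
    calc G L (k + 1) ≤ Z * b (L + 2 * (k + 1)) +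
          L * ((L + 1) ^ 3 * (Z * b (L + 2 * (k + 1)))) := h1.trans (Nat.add_le_add hb0 hsum)
      _ ≤ (L + 1) ^ 4 * (Z * b (L + 2 * (k + 1))) +
          (L + 1) * ((L + 1) ^ 3 * (Z * b (L + 2 * (k + 1)))) := by
          refine Nat.add_le_add ?_ (Nat.mul_le_mul_right _ (by omega))
          exact Nat.le_mul_of_pos_left _ (by positivity)
      _ = (2 * (L + 1) ^ 4) ^ (k + 1) * b (L + 2 * (k + 1)) := by
          rw [pow_succ (2 * (L + 1) ^ 4) k, ← hZ]; ring

/-! ### the normalised numbers of bridges -/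

/-- the number of bridges of length `n`, divided by `μ^n` -/
noncomputable def hb (n : ℕ) : ℝ := (b n : ℝ) / mu ^ n

theorem mu0 : (0 : ℝ) < mu := lt_of_lt_of_le one_pos one_le_mu

theorem hb_pos (n : ℕ) : 0 < hb n := by
  have h1 : (1 : ℝ) ≤ b n := by exact_mod_cast one_le_b n
  exact div_pos (by linarith) (pow_pos mu0 n)

theorem hb_le_one (n : ℕ) : hb n ≤ 1 := by
  unfold hb
  rw [div_le_one (pow_pos mu0 n)]
  exact b_le n

theorem hb_mul (m n : ℕ) : hb m * hb n ≤ hb (m + n) := by
  unfold hb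
  rw [div_mul_div_comm, ← pow_add]
  apply div_le_div_of_nonneg_right _ (pow_pos mu0 _).le
  exact_mod_cast mu_b_mul m n

theorem hb_low (n : ℕ) : 1 / mu ^ n ≤ hb n := by
  unfold hb
  apply div_le_div_of_nonneg_right _ (pow_pos mu0 _).le
  exact_mod_cast one_le_b n

/-- the normalised numbers of bridges of the lengths from `n + s` to `n + s + X` -/
noncomputable def Vs (X s n : ℕ) : ℝ := ∑ L ∈ range (X + 1), hb (n + L + s)

theorem Vs_nonneg (X s n : ℕ) : 0 ≤ Vs X s n := Finset.sum_nonneg fun L _ => (hb_pos _).le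

theorem Vs_le (X s n : ℕ) : Vs X s n ≤ X + 1 := by
  unfold Vs
  refine (Finset.sum_le_sum fun L _ => hb_le_one _).trans ?_
  simp

theorem Vs_shift (X s k n : ℕ) : hb k * Vs X s n ≤ Vs X s (k + n) := by
  unfold Vs
  rw [Finset.mul_sum]
  refine Finset.sum_le_sum fun L _ => ?_
  refine (hb_mul _ _).trans (le_of_eq ?_)
  congr 1
  ring

theorem Vs_mul {X s m n : ℕ} {β : ℝ} (h : ∀ j ≤ 2 * X, hb (m + n + j + 2 * s) ≤ β) :
    Vs X s m * Vs X s n ≤ ((X : ℝ) + 1) ^ 2 * β := by
  unfold Vs
  rw [Finset.sum_mul_sum]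
  have h1 : ∀ i ∈ range (X + 1), ∑ j ∈ range (X + 1), hb (m + i + s) * hb (n + j + s) ≤
      ((X : ℝ) + 1) * β := by
    intro i hi
    rw [Finset.mem_range] at hi
    have h2 : ∀ j ∈ range (X + 1), hb (m + i + s) * hb (n + j + s) ≤ β := by
      intro j hj
      rw [Finset.mem_range] at hj
      refine (hb_mul _ _).trans ?_
      have := h (i + j) (by omega)
      rwa [show m + n + (i + j) + 2 * s = m + i + s + (n + j + s) by ring] at this
    refine (Finset.sum_le_sum h2).trans ?_
    rw [Finset.sum_const, Finset.card_range, nsmul_eq_mul]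
    push_cast
    exact le_rfl
  refine (Finset.sum_le_sum h1).trans ?_
  rw [Finset.sum_const, Finset.card_range, nsmul_eq_mul]
  push_cast
  exact le_of_eq (by ring)

end Pool.Agent.K3h14.SW
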