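import Pool.Agent.W216.S3.Leg

/-!
Greedy words along a leg, with a bound for their length by the cost (the construction of
`Pool.Agent.W216.S3.Leg`).
-/

set_option autoImplicit false

namespace Pool.Agent.K3h14.SW

open Finset Pool.Agent.H46R2.K3 Pool.Agent.H46R2.K3.P Pool.Agent.W325.S3 Pool.Agent.W216.S3

/-- LEG with the length of the words -/
theorem leg2 {I : ℕ} {E : ℕ → ℕ} {r : ℕ → ℝ} {h len : ℕ → ℕ}
    {B : ℕ → Finset (List St)} (hL : Lad I E r h len B) {Λ : ℝ} (hΛ : 0 ≤ Λ)
    (hlen : ∀ l ≤ I, (len l : ℝ) ≤ Λ * (r l * h l)) (A : Finset V) (a : V) (d : Fin 3) (lam : ℕ) :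
    ∃ (L : ℕ) (U : Finset (List St)), (L : ℝ) ≤ Λ * Psi A I E r a d lam ∧
    (∀ u ∈ U, u.length = L ∧ LegW d lam u ∧ (hits A a u : ℝ) ≤ Psi A I E r a d lam) ∧
    mu ^ L * Real.exp (-(Psi A I E r a d lam)) ≤ (#U : ℝ) := by
  classical
  have hr0 : ∀ l < I, 0 ≤ r l := fun l hl => (hL.r_pos l hl.le).le
  have key : ∀ n x : ℕ, x ≤ lam → lam - x = n → ∃ (L : ℕ) (U : Finset (List St)),
      (L : ℝ) ≤ Λ * (∑ x' ∈ Ico x lam, psi A I E r a d lam x') ∧
      (∀ v ∈ U, v.length = L ∧ Wd A I E r a d lam x v) ∧
      mu ^ L * Real.exp (-(∑ x' ∈ Ico x lam, psi A I E r a d lam x')) ≤ (#U : ℝ) := by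
    intro n
    induction n using Nat.strong_induction_on with
    | _ n ih =>
      intro x hx hn
      rcases Nat.eq_or_lt_of_le hx with hxe | hxlt
      · subst hxe
        refine ⟨0, {[]}, by simp, ?_, ?_⟩
        · intro v hv
          rw [mem_singleton] at hv
          subst hv
          refine ⟨rfl, saw_nil, ?_, ?_, ?_, ?_⟩
          · rw [disp_nil, sub_self]
            funext t
            simp [ax]
          · intro i h1 h2
            simp at h2
            omega
          · intro i h1 t _
            rw [pos_nil]
            simp
          · unfold hits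
            simp
        · simp
      · -- the largest allowed level
        set al : ℕ → Prop := fun l => l = 0 ∨ (¬ near A (24 * E l) (a + ax d (x : ℤ)) ∧
          72 * E l ≤ x ∧ x + h l + 72 * E l ≤ lam) with hal
        obtain ⟨l, hl1, hl2⟩ := ((range (I + 1)).filter al).exists_max_image (fun l => l)
          ⟨0, mem_filter.2 ⟨mem_range.2 (by omega), Or.inl rfl⟩⟩
        rw [mem_filter, mem_range] at hl1
        obtain ⟨hlI, hla⟩ := hl1
        have hlI' : l ≤ I := by omega
        have hh := hL.h_pos l hlI'
        have hxl : x + h l ≤ lam := by
          rcases hla with h0 | ⟨_, _, h0⟩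
          · rw [h0, hL.h_zero]
            omega
          · omega
        -- the cost
        have hpsi : ∀ x' ∈ Ico x (x + h l), r l ≤ psi A I E r a d lam x' := by
          intro x' hx'
          rw [mem_Ico] at hx'
          rcases Nat.eq_or_lt_of_le hlI' with he | hlt
          · rw [he]
            exact psi_ge hr0 a d lam x'
          · have hnot : ¬ al (l + 1) := by
              intro h0
              have := hl2 (l + 1) (mem_filter.2 ⟨mem_range.2 (by omega), h0⟩)
              omega
            simp only [hal, not_or, not_and_or, not_not, not_le] at hnot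
            obtain ⟨_, hnot⟩ := hnot
            have hhE := hL.h_le l hlI'
            have hhE1 := hL.h_le (l + 1) (by omega)
            have hE1 := hL.E_mono l hlt
            have hrI := hL.r_pos I le_rfl
            have h1 : r I + r l ≤ psi A I E r a d lam x' := by
              refine psi_ge' hr0 a d lam x' hlt ?_
              rcases hnot with ⟨y, hy, hy1⟩ | hnot | hnot
              · left
                refine ⟨y, hy, fun t => ?_⟩
                have h2 := hy1 t
                rw [Pi.add_apply] at h2 ⊢
                push_cast at h2 ⊢
                by_cases ht : t = d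
                · subst ht
                  rw [ax_self] at h2 ⊢
                  rw [abs_le] at h2 ⊢
                  have g1 : (x : ℤ) ≤ x' := by exact_mod_cast hx'.1
                  have g2 : (x' : ℤ) < x + h l := by exact_mod_cast hx'.2
                  have g3 : (h l : ℤ) ≤ 24 * E l := by exact_mod_cast hhE
                  have g4 : (E l : ℤ) ≤ E (l + 1) := by exact_mod_cast hE1
                  constructor <;> omega
                · rw [ax_ne ht] at h2 ⊢
                  rw [abs_le] at h2 ⊢
                  have g4 : (0 : ℤ) ≤ E (l + 1) := by positivity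
                  constructor <;> omega
              · right; left
                omega
              · right; right
                omega
            linarith
        obtain ⟨L', U', hL', hU', hc'⟩ := ih (lam - (x + h l)) (by omega) (x + h l) hxl rfl
        refine ⟨len l + L', (B l ×ˢ U').image (fun p => p.1.map (perm d) ++ p.2), ?_, ?_, ?_⟩
        · have h1 := hlen l hlI'
          have hsplit : ∑ x' ∈ Ico x lam, psi A I E r a d lam x' =
              ∑ x' ∈ Ico x (x + h l), psi A I E r a d lam x' +
                ∑ x' ∈ Ico (x + h l) lam, psi A I E r a d lam x' :=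
            (sum_Ico_consecutive _ (by omega) hxl).symm
          have h5 : ∑ _x' ∈ Ico x (x + h l), r l ≤
              ∑ x' ∈ Ico x (x + h l), psi A I E r a d lam x' := sum_le_sum hpsi
          rw [sum_const, Nat.card_Ico, nsmul_eq_mul, Nat.add_sub_cancel_left] at h5
          rw [hsplit, mul_add]
          have h6 : Λ * (r l * h l) ≤ Λ * ∑ x' ∈ Ico x (x + h l), psi A I E r a d lam x' := by
            refine mul_le_mul_of_nonneg_left ?_ hΛ
            linarith
          push_cast
          linarith
        · intro v hv
          rw [mem_image] at hv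
          obtain ⟨⟨b, v'⟩, hp, rfl⟩ := hv
          rw [mem_product] at hp
          obtain ⟨hb, hv'⟩ := hp
          refine ⟨?_, leg_step hL hlI' hla hxl hpsi hb (hU' _ hv').2⟩
          rw [List.length_append, List.length_map, (hL.mem l hlI' b hb).1, (hU' _ hv').1]
        · have hinj : Set.InjOn (fun p : List St × List St => p.1.map (perm d) ++ p.2)
              ((B l ×ˢ U' : Finset (List St × List St)) : Set (List St × List St)) := by
            rintro ⟨b, v⟩ hp ⟨b', v'⟩ hp' he
            rw [Finset.mem_coe, mem_product] at hp hp'
            simp only at he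
            have h1 : (b.map (perm d)).length = (b'.map (perm d)).length := by
              rw [List.length_map, List.length_map, (hL.mem l hlI' b hp.1).1,
                (hL.mem l hlI' b' hp'.1).1]
            obtain ⟨h2, h3⟩ := List.append_inj he h1
            have h4 : b = b' := by
              have := congrArg (List.map (perm d)) h2
              rwa [map_perm_perm, map_perm_perm] at this
            rw [h4, h3]
          rw [card_image_of_injOn hinj, card_product]
          push_cast
          have hsplit : ∑ x' ∈ Ico x lam, psi A I E r a d lam x' =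
              ∑ x' ∈ Ico x (x + h l), psi A I E r a d lam x' +
                ∑ x' ∈ Ico (x + h l) lam, psi A I E r a d lam x' :=
            (sum_Ico_consecutive _ (by omega) hxl).symm
          have h5 : ∑ _x' ∈ Ico x (x + h l), r l ≤
              ∑ x' ∈ Ico x (x + h l), psi A I E r a d lam x' := sum_le_sum hpsi
          rw [sum_const, Nat.card_Ico, nsmul_eq_mul, Nat.add_sub_cancel_left] at h5
          have h6 := hL.card l hlI'
          have hmu : (0 : ℝ) ≤ mu := by
            unfold mu
            exact Real.iInf_nonneg fun n => by positivity
          rw [hsplit, neg_add, Real.exp_add, pow_add]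
          calc mu ^ len l * mu ^ L' *
                (Real.exp (-(∑ x' ∈ Ico x (x + h l), psi A I E r a d lam x')) *
                Real.exp (-(∑ x' ∈ Ico (x + h l) lam, psi A I E r a d lam x')))
              = (mu ^ len l * Real.exp (-(∑ x' ∈ Ico x (x + h l), psi A I E r a d lam x'))) *
                (mu ^ L' * Real.exp (-(∑ x' ∈ Ico (x + h l) lam, psi A I E r a d lam x'))) := by
                ring
            _ ≤ (mu ^ len l * Real.exp (-(r l * h l))) *
                (mu ^ L' * Real.exp (-(∑ x' ∈ Ico (x + h l) lam, psi A I E r a d lam x'))) := by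
                gcongr
                linarith
            _ ≤ (#(B l) : ℝ) * (#U' : ℝ) := by
                gcongr
  obtain ⟨L, U, hLL, hU, hc⟩ := key lam 0 (Nat.zero_le _) (by omega)
  have hP : ∑ x' ∈ Ico 0 lam, psi A I E r a d lam x' = Psi A I E r a d lam := by
    unfold Psi
    rw [Nat.Ico_zero_eq_range]
  have ha : a + ax d ((0 : ℕ) : ℤ) = a := by
    funext t
    simp [ax]
  refine ⟨L, U, by rw [← hP]; exact hLL, ?_, by rw [← hP]; exact hc⟩
  intro u hu
  obtain ⟨h1, h2⟩ := hU u hu
  refine ⟨h1, ⟨h2.saw, ?_, ?_, ?_⟩, ?_⟩
  · have := h2.disp
    simpa using this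
  · intro i h3 h4
    have := h2.dir i h3 h4
    simpa using this
  · intro i h3 t ht
    have := h2.lat i h3 t ht
    simpa using this
  · have := h2.hit
    rw [hP, ha] at this
    exact this

end Pool.Agent.K3h14.SW
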