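import Pool.Agent.K3h14.SW.Brg
import Pool.Agent.K3h14.SW.Stair2
import Pool.Agent.W74.S3.Hle

/-!
Self-avoiding walks on `ℤ³`: half-space walks of small height are compared with slightly longer
bridges.
-/

set_option autoImplicit false

namespace Pool.Agent.K3h14.SW

open Finset Pool.Agent.H46R2.K3 Pool.Agent.H46R2.K3.P Pool.Agent.W325.S3

/-- counting by coincidences -/
theorem count2 (n X k : ℕ) (Y : ℝ) (S : Finset (List St)) (hlen : ∀ w ∈ S, w.length = n)
    (hS : ∀ w ∈ S, ∃ L ≤ X, ∃ U : Finset (List St),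
      (∀ u ∈ U, u.length = L ∧ BrL (w ++ u) ∧ K (w ++ u) ≤ k) ∧
      mu ^ L * Real.exp (-Y) ≤ (#U : ℝ)) :
    (#S : ℝ) / mu ^ n ≤ Real.exp Y * ∑ L ∈ range (X + 1), (G (n + L) k : ℝ) / mu ^ (n + L) := by
  classical
  have hS' : ∀ w : List St, ∃ (L : ℕ) (U : Finset (List St)), w ∈ S → L ≤ X ∧
      (∀ u ∈ U, u.length = L ∧ BrL (w ++ u) ∧ K (w ++ u) ≤ k) ∧
      mu ^ L * Real.exp (-Y) ≤ (#U : ℝ) := by
    intro w
    by_cases hw : w ∈ S
    · obtain ⟨L, hL, U, h1, h2⟩ := hS w hw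
      exact ⟨L, U, fun _ => ⟨hL, h1, h2⟩⟩
    · exact ⟨0, ∅, fun h => absurd h hw⟩
  choose L U hLU using hS'
  have hmu0 := mu0
  have hfib : ∀ l ∈ range (X + 1), ((#(S.filter fun w => L w = l) : ℕ) : ℝ) ≤
      mu ^ n * (Real.exp Y * ((G (n + l) k : ℝ) / mu ^ (n + l))) := by
    intro l hl
    rw [Finset.mem_range] at hl
    set Sl := S.filter fun w => L w = l with hSl
    have hmem : ∀ w ∈ Sl, w ∈ S ∧ L w = l := by
      intro w hw
      rw [hSl, Finset.mem_filter] at hw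
      exact hw
    have hdisj : ∀ w ∈ Sl, ∀ w' ∈ Sl, w ≠ w' →
        Disjoint ((U w).image fun u => w ++ u) ((U w').image fun u => w' ++ u) := by
      intro w hw w' hw' hne
      rw [Finset.disjoint_left]
      intro x hx hx'
      rw [Finset.mem_image] at hx hx'
      obtain ⟨u, hu, rfl⟩ := hx
      obtain ⟨u', hu', he⟩ := hx'
      have h1 := hlen w (hmem w hw).1
      have h2 := hlen w' (hmem w' hw').1
      exact hne (List.append_inj he (h2.trans h1.symm)).1.symm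
    have hsub : Sl.biUnion (fun w => (U w).image fun u => w ++ u) ⊆
        (W (n + l)).filter fun w => BrL w ∧ K w ≤ k := by
      intro x hx
      rw [Finset.mem_biUnion] at hx
      obtain ⟨w, hw, hx⟩ := hx
      rw [Finset.mem_image] at hx
      obtain ⟨u, hu, rfl⟩ := hx
      obtain ⟨h1, h2⟩ := hmem w hw
      obtain ⟨h3, h4, h5⟩ := hLU w h1
      obtain ⟨h6, h7, h8⟩ := h4 u hu
      rw [Finset.mem_filter, le_mem_W, List.length_append, hlen w h1, h6, h2]
      exact ⟨rfl, h7, h8⟩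
    have hcard : ∑ w ∈ Sl, #(U w) ≤ G (n + l) k := by
      calc ∑ w ∈ Sl, #(U w) = ∑ w ∈ Sl, #((U w).image fun u => w ++ u) := by
            refine Finset.sum_congr rfl fun w _ => ?_
            rw [Finset.card_image_of_injective]
            intro u u' h
            exact List.append_cancel_left h
        _ = #(Sl.biUnion (fun w => (U w).image fun u => w ++ u)) :=
            (Finset.card_biUnion hdisj).symm
        _ ≤ #((W (n + l)).filter fun w => BrL w ∧ K w ≤ k) := Finset.card_le_card hsub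
        _ = G (n + l) k := by
            unfold G
            congr
    have h1 : (#Sl : ℝ) * (mu ^ l * Real.exp (-Y)) ≤ (G (n + l) k : ℝ) := by
      calc (#Sl : ℝ) * (mu ^ l * Real.exp (-Y)) = ∑ w ∈ Sl, mu ^ l * Real.exp (-Y) := by
            rw [Finset.sum_const, nsmul_eq_mul]
        _ ≤ ∑ w ∈ Sl, (#(U w) : ℝ) := by
            refine Finset.sum_le_sum fun w hw => ?_
            have h2 := (hLU w (hmem w hw).1).2.2
            rwa [(hmem w hw).2] at h2
        _ ≤ (G (n + l) k : ℝ) := by exact_mod_cast hcard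
    have h5 : 0 < mu ^ l * Real.exp (-Y) := by positivity
    have h6 : (G (n + l) k : ℝ) = (mu ^ n * (Real.exp Y * ((G (n + l) k : ℝ) / mu ^ (n + l)))) *
        (mu ^ l * Real.exp (-Y)) := by
      have e1 : mu ^ n ≠ 0 := (pow_pos hmu0 n).ne'
      have e2 : mu ^ l ≠ 0 := (pow_pos hmu0 l).ne'
      have e3 : Real.exp Y ≠ 0 := (Real.exp_pos Y).ne'
      rw [pow_add, Real.exp_neg]
      field_simp
    rw [h6] at h1
    exact le_of_mul_le_mul_right h1 h5
  have hsum : #S = ∑ l ∈ range (X + 1), #(S.filter fun w => L w = l) := by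
    refine Finset.card_eq_sum_card_fiberwise ?_
    intro w hw
    have := (hLU w hw).1
    rw [Finset.mem_coe, Finset.mem_range]
    omega
  rw [div_le_iff₀ (pow_pos hmu0 n)]
  calc (#S : ℝ) = ∑ l ∈ range (X + 1), ((#(S.filter fun w => L w = l) : ℕ) : ℝ) := by
        exact_mod_cast hsum
    _ ≤ ∑ l ∈ range (X + 1), mu ^ n * (Real.exp Y * ((G (n + l) k : ℝ) / mu ^ (n + l))) :=
        Finset.sum_le_sum hfib
    _ = _ := by rw [← Finset.mul_sum, ← Finset.mul_sum]; ring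

/-- the sum of the numbers of bridge-like words -/
theorem sumG_le (n X k N : ℕ) (hn : n ≤ N) :
    ∑ L ∈ range (X + 1), (G (n + L) k : ℝ) / mu ^ (n + L) ≤
      (2 * ((N : ℝ) + X + 1) ^ 4) ^ k * mu ^ (2 * k) * Vs X (2 * k) n := by
  unfold Vs
  rw [Finset.mul_sum]
  refine Finset.sum_le_sum fun L hL => ?_
  rw [Finset.mem_range] at hL
  have hmu0 := mu0
  have h1 : (G (n + L) k : ℝ) ≤ (2 * (((n + L : ℕ) : ℝ) + 1) ^ 4) ^ k * b (n + L + 2 * k) := by
    exact_mod_cast G_le_b (n + L) k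
  have h2 : (2 * (((n + L : ℕ) : ℝ) + 1) ^ 4) ^ k ≤ (2 * ((N : ℝ) + X + 1) ^ 4) ^ k := by
    have h3 : (((n + L : ℕ) : ℝ)) ≤ N + X := by exact_mod_cast (by omega : n + L ≤ N + X)
    gcongr
  have h4 : (b (n + L + 2 * k) : ℝ) = hb (n + L + 2 * k) * mu ^ (n + L + 2 * k) := by
    unfold hb
    rw [div_mul_cancel₀ _ (pow_pos hmu0 _).ne']
  rw [div_le_iff₀ (pow_pos hmu0 _)]
  calc (G (n + L) k : ℝ) ≤ (2 * (((n + L : ℕ) : ℝ) + 1) ^ 4) ^ k * b (n + L + 2 * k) := h1
    _ ≤ (2 * ((N : ℝ) + X + 1) ^ 4) ^ k * b (n + L + 2 * k) := by gcongr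
    _ = _ := by rw [h4, pow_add mu (n + L)]; ring

open Classical in
/-- half-space walks of height at most the scale `E I`, compared with bridges -/
theorem hle_cmp {Q I N N' : ℕ} {g : ℕ → ℝ} (hNN : N ≤ N') (hI : 1 ≤ I)
    {E : ℕ → ℕ} {r : ℕ → ℝ} {h len : ℕ → ℕ} {B : ℕ → Finset (List St)}
    (hLad : Lad I E r h len B) (hBad : ∀ l, 1 ≤ l → l ≤ I → BadLe (Q ^ l) (E l) (g l))
    {Λ : ℝ} (hΛ : 0 ≤ Λ) (hlen : ∀ l ≤ I, (len l : ℝ) ≤ Λ * (r l * h l))
    {R : ℕ → ℕ} {F : ℕ} {Y : ℝ} (hRpos : ∀ i ≤ I, 1 ≤ R i) (hRmono : ∀ i < I, R i ≤ R (i + 1))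
    (hRF : R I ≤ F) (hEF : E I ≤ F) (hrR : ∀ i ≤ I, r i * R i ≤ Y) (hrF : r I * F ≤ Y)
    (htaper : ∀ l < I, 192 * r l * E (l + 1) ≤ Y)
    (havg : ∀ l i, l ≤ i → i < I → r l * (2 * R (i + 1)) *
      ((2 * (N' / Q ^ (l + 1) : ℕ) + 2) * (99 * (E (l + 1) : ℝ)) ^ 3) ≤ Y * (R i : ℝ) ^ 3)
    (havgF : ∀ l < I, r l * F *
      ((2 * (N' / Q ^ (l + 1) : ℕ) + 2) * (99 * (E (l + 1) : ℝ)) ^ 3) ≤ Y * (R I : ℝ) ^ 3)
    {D : ℝ} (hD : ∀ l, 1 ≤ l → l ≤ I → ∀ n ≤ N,
      g l * (5 * ((n / Q ^ l : ℕ) : ℝ) + 1 - 3 * ((2 * (N' / Q ^ l) + 2 : ℕ) : ℝ)) ≤ -D)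
    {Y' : ℝ} (hY' : Y' = 14 * ((I : ℝ) + 1) ^ 2 * Y) {X κ : ℕ} (hX : X = ⌊Λ * Y'⌋₊)
    (hκ : κ = ⌊Y'⌋₊) (n : ℕ) (hnN : n ≤ N) :
    (hle n (E I) : ℝ) / mu ^ n ≤ I * Real.exp (-D) +
      Real.exp Y' * (2 * ((N : ℝ) + X + 1) ^ 4) ^ κ * mu ^ (2 * κ) * Vs X (2 * κ) n := by
  have hmu1 : 1 ≤ mu := one_le_mu
  have hmu0 : 0 < mu := by linarith
  have hY0 : 0 ≤ Y := le_trans (mul_nonneg (hLad.r_pos I le_rfl).le (Nat.cast_nonneg F)) hrF
  have hY'0 : 0 ≤ Y' := by rw [hY']; positivity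
  have hmun : 0 < mu ^ n := pow_pos hmu0 n
  rcases Nat.eq_zero_or_pos n with hn | hn
  · subst hn
    have h1 : (hle 0 (E I) : ℝ) ≤ 1 := by
      have : hle 0 (E I) ≤ 1 := by
        unfold hle
        refine (Finset.card_filter_le _ _).trans ?_
        rw [card_W]
        simp
      exact_mod_cast this
    have h2 : 1 ≤ Real.exp Y' := Real.one_le_exp hY'0
    have h3 : (1 : ℝ) ≤ (2 * ((N : ℝ) + X + 1) ^ 4) ^ κ := by
      apply one_le_pow₀
      have hN0 : (0 : ℝ) ≤ N := Nat.cast_nonneg N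
      have hX0 : (0 : ℝ) ≤ X := Nat.cast_nonneg X
      have : (1 : ℝ) ≤ ((N : ℝ) + X + 1) ^ 4 := one_le_pow₀ (by linarith)
      linarith
    have h4 : 1 ≤ mu ^ (2 * κ) * Vs X (2 * κ) 0 := by
      have h5 : hb (2 * κ) ≤ Vs X (2 * κ) 0 := by
        unfold Vs
        have := Finset.single_le_sum (f := fun L => hb (0 + L + 2 * κ))
          (fun L _ => (hb_pos _).le) (Finset.mem_range.2 (Nat.succ_pos X))
        simpa using this
      have h6 := hb_low (2 * κ)
      have h7 : 0 < mu ^ (2 * κ) := pow_pos hmu0 _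
      calc (1 : ℝ) = mu ^ (2 * κ) * (1 / mu ^ (2 * κ)) := by field_simp
        _ ≤ mu ^ (2 * κ) * Vs X (2 * κ) 0 :=
            mul_le_mul_of_nonneg_left (h6.trans h5) h7.le
    have h5 : 1 ≤ Real.exp Y' * (2 * ((N : ℝ) + X + 1) ^ 4) ^ κ := by
      calc (1 : ℝ) = 1 * 1 := (one_mul 1).symm
        _ ≤ _ := mul_le_mul h2 h3 zero_le_one (by linarith)
    have h6 : 1 ≤ Real.exp Y' * (2 * ((N : ℝ) + X + 1) ^ 4) ^ κ *
        (mu ^ (2 * κ) * Vs X (2 * κ) 0) := by
      calc (1 : ℝ) = 1 * 1 := (one_mul 1).symm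
        _ ≤ _ := mul_le_mul h5 h4 zero_le_one (by linarith)
    have h7 : 0 ≤ (I : ℝ) * Real.exp (-D) := by positivity
    rw [pow_zero, div_one]
    rw [← mul_assoc] at h6
    linarith
  -- typical walks
  set T : Finset (List St) := (W n).filter fun w => Hsp w ∧ ∀ i ≤ n, pos w i 0 ≤ ((E I : ℕ) : ℤ)
    with hT
  set S : Finset (List St) := T.filter fun w => ∀ l ∈ Icc 1 I, Cov w (E l) (2 * (N' / Q ^ l) + 2)
    with hSdef
  set Bd : ℕ → Finset (List St) := fun l =>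
    (W n).filter fun w => Saw w ∧ ¬ Cov w (E l) (2 * (N' / Q ^ l) + 2) with hBd
  have hsub : T ⊆ ((Icc 1 I).biUnion Bd) ∪ S := by
    intro w hw
    rw [Finset.mem_union]
    by_cases hcov : ∀ l ∈ Icc 1 I, Cov w (E l) (2 * (N' / Q ^ l) + 2)
    · right
      exact Finset.mem_filter.2 ⟨hw, hcov⟩
    · left
      push Not at hcov
      obtain ⟨l, hl, hl2⟩ := hcov
      rw [Finset.mem_biUnion]
      refine ⟨l, hl, ?_⟩
      have hw' := Finset.mem_filter.1 hw
      exact Finset.mem_filter.2 ⟨hw'.1, hw'.2.1.1, hl2⟩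
  have hbad : ∀ l ∈ Icc 1 I, (#(Bd l) : ℝ) ≤ mu ^ n * Real.exp (-D) := by
    intro l hl
    rw [Finset.mem_Icc] at hl
    have h1 := hBad l hl.1 hl.2 n (2 * (N' / Q ^ l) + 2)
    have h2 : (bad n (E l) (2 * (N' / Q ^ l) + 2) : ℝ) = (#(Bd l) : ℝ) := rfl
    rw [h2] at h1
    refine h1.trans (mul_le_mul_of_nonneg_left ?_ hmun.le)
    exact Real.exp_le_exp.2 (hD l hl.1 hl.2 n hnN)
  have hcount : (#S : ℝ) / mu ^ n ≤ Real.exp Y' *
      ∑ L ∈ range (X + 1), (G (n + L) κ : ℝ) / mu ^ (n + L) := by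
    refine count2 n X κ Y' S ?_ ?_
    · intro w hw
      exact mem_W.1 (Finset.mem_filter.1 (Finset.mem_filter.1 hw).1).1
    · intro w hw
      have hwS := Finset.mem_filter.1 hw
      have hwT := Finset.mem_filter.1 hwS.1
      have hlenw : w.length = n := mem_W.1 hwT.1
      have hsaw : Saw w := hwT.2.1.1
      have hhsp : ∀ i, 1 ≤ i → i ≤ w.length → 0 < pos w i 0 := hwT.2.1.2
      have hht : ∀ i ≤ n, pos w i 0 ≤ ((E I : ℕ) : ℤ) := hwT.2.2
      have hcov := hwS.2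
      set A : Finset V := (rel w).toFinset with hAdef
      have hNum : Num I E r A (fun l => (2 * ((N' / Q ^ (l + 1) : ℕ) : ℝ) + 2) *
          (99 * (E (l + 1) : ℝ)) ^ 3) R F Y := by
        refine ⟨hRpos, hRmono, hRF, hrR, hrF, htaper, ?_, ?_, ?_⟩
        · intro l hl
          have hE1 : 1 ≤ E (l + 1) := W74.S3.Hle.E_ge hLad (l + 1) (by omega)
          obtain ⟨N'', hN1, hN2⟩ := W74.S3.Hle.vol_bound hE1
            (hcov (l + 1) (Finset.mem_Icc.2 ⟨by omega, by omega⟩))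
          refine ⟨N'', hN1, hN2.trans (le_of_eq ?_)⟩
          push_cast
          ring
        · exact havg
        · exact havgF
      obtain ⟨u, hu, hcost⟩ := W216.S3.Av.avg I E r hLad.r_anti hLad.r_pos A _ R F Y hNum
      obtain ⟨L, U, z, hL1, hz, hEx⟩ := stair2 hLad hΛ hlen A R F u hRpos hRmono hRF hu
      rw [← hY'] at hcost
      set cost : ℝ := ∑ i ∈ range (I + 1), stc A I E r (cor u i) (u i) +
        Psi A I E r (cor u (I + 1)) 0 F with hcostdef
      have hdw : 0 < disp w 0 := by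
        have := hhsp w.length (by omega) le_rfl
        rwa [pos_length] at this
      have hLX : L ≤ X := by
        rw [hX]
        exact Nat.le_floor (hL1.trans (mul_le_mul_of_nonneg_left hcost hΛ))
      refine ⟨L, hLX, U, fun v hv => ⟨hEx.len v hv, ?_, ?_⟩, ?_⟩
      · -- bridge
        have hvlen : v.length = L := hEx.len v hv
        have hvd : disp v = z := hEx.disp v hv
        have hdisp : disp (w ++ v) 0 = disp w 0 + z 0 := by
          rw [disp_append, hvd]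
          rfl
        intro i hi1 hi2
        rw [List.length_append] at hi2
        rw [hdisp]
        rcases Nat.lt_or_ge w.length i with hlt | hge
        · rw [pos_append_right' v hlt.le]
          have h1 := hEx.ht v hv (i - w.length) (by omega)
          rw [Pi.add_apply]
          constructor <;> linarith [h1.1, h1.2]
        · rw [pos_append_left v hge]
          have h1 := hhsp i hi1 hge
          have h2 := hht i (by omega)
          have h3 : ((E I : ℕ) : ℤ) ≤ (F : ℤ) := by exact_mod_cast hEF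
          constructor <;> linarith
      · -- coincidences
        have h1 := K_append w v
        rw [K_saw hsaw, K_saw (hEx.mono v hv).1] at h1
        have h2 := W74.S3.Hle.H_le_hits hsaw v
        have h3 := hEx.hit v hv
        rw [hκ]
        refine Nat.le_floor ?_
        have h4 : (K (w ++ v) : ℝ) ≤ (hits A 0 v : ℝ) := by
          have : K (w ++ v) ≤ hits A 0 v := by
            rw [zero_add, zero_add] at h1
            exact h1.trans h2
          exact_mod_cast this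
        exact h4.trans (h3.trans hcost)
      · refine le_trans ?_ hEx.card
        refine mul_le_mul_of_nonneg_left ?_ (pow_nonneg hmu0.le _)
        exact Real.exp_le_exp.2 (neg_le_neg hcost)
  have hT1 : (hle n (E I) : ℝ) ≤ (I : ℝ) * (mu ^ n * Real.exp (-D)) + (#S : ℝ) := by
    have h1 : hle n (E I) = #T := rfl
    rw [h1]
    have h2 : #T ≤ ∑ l ∈ Icc 1 I, #(Bd l) + #S :=
      (Finset.card_le_card hsub).trans ((Finset.card_union_le _ _).trans
        (Nat.add_le_add_right Finset.card_biUnion_le _))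
    have h3 : (#T : ℝ) ≤ ∑ l ∈ Icc 1 I, (#(Bd l) : ℝ) + (#S : ℝ) := by exact_mod_cast h2
    have h4 : ∑ l ∈ Icc 1 I, (#(Bd l) : ℝ) ≤ ∑ l ∈ Icc 1 I, mu ^ n * Real.exp (-D) :=
      Finset.sum_le_sum hbad
    have h5 : ∑ l ∈ Icc 1 I, mu ^ n * Real.exp (-D) = (I : ℝ) * (mu ^ n * Real.exp (-D)) := by
      rw [Finset.sum_const, Nat.card_Icc, nsmul_eq_mul]
      simp
    linarith
  have hG := sumG_le n X κ N hnN
  have e1 : (hle n (E I) : ℝ) / mu ^ n ≤ I * Real.exp (-D) + (#S : ℝ) / mu ^ n := by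
    rw [div_le_iff₀ hmun, add_mul, div_mul_cancel₀ _ hmun.ne']
    calc (hle n (E I) : ℝ) ≤ (I : ℝ) * (mu ^ n * Real.exp (-D)) + (#S : ℝ) := hT1
      _ = _ := by ring
  refine e1.trans (add_le_add_right (hcount.trans ?_) _)
  calc Real.exp Y' * ∑ L ∈ range (X + 1), (G (n + L) κ : ℝ) / mu ^ (n + L)
      ≤ Real.exp Y' * ((2 * ((N : ℝ) + X + 1) ^ 4) ^ κ * mu ^ (2 * κ) * Vs X (2 * κ) n) :=
        mul_le_mul_of_nonneg_left hG (Real.exp_pos _).le
    _ = _ := by ring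

end Pool.Agent.K3h14.SW
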