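import Pool.Agent.W38.S3.Lad

/-!
Self-avoiding walks on `ℤ³`: the ladder of blocks, with the speed of the blocks.  The construction is
that of `Pool.Agent.W38.S3.Lad`; here the length of a block is compared with its cost.
-/

set_option autoImplicit false

namespace Pool.Agent.K3h14.SW

open Finset Pool.Agent.H46R2.K3 Pool.Agent.H46R2.K3.P Pool.Agent.W325.S3 Pool.Agent.W38.S3

/-- LAD with the speed of the blocks -/
def S_LAD2 : Prop := ∀ (Q I : ℕ) (g : ℕ → ℝ), 2 ≤ Q → (∀ l, g l ≤ g (l + 1)) → 1 ≤ g 0 →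
  (∀ l, g (l + 1) ≤ Q * g l) →
  (∀ l, 12 * ((Q : ℝ) ^ l + 1) ^ 2 ≤ Real.exp (g l)) →
  (∀ l, (2 * (Q : ℝ) ^ l + 1) ^ 3 ≤ Real.exp (g l)) →
  (∀ l, ∀ k ≤ Q ^ l, (c k : ℝ) ≤ mu ^ k * Real.exp (g l)) →
  ∃ (E : ℕ → ℕ) (r : ℕ → ℝ) (h len : ℕ → ℕ) (B : ℕ → Finset (List St)), Lad I E r h len B ∧
    (∀ l < I, E (l + 1) ≤ 12 * Q * E l) ∧
    (∀ l ≤ I, r l * E l ≤ 16 * g l) ∧
    (∀ l < I, r l ≤ 288 * Q * r (l + 1)) ∧
    (∀ l ≤ I, (len l : ℝ) ≤ ((Q : ℝ) ^ I / g I + 1) * (r l * h l)) ∧
    (∀ l, 1 ≤ l → l ≤ I → BadLe (Q ^ l) (E l) (g l)) ∧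
    (1 ≤ I → ∀ k ≤ Q ^ I, (far k (E I) : ℝ) ≤ mu ^ k * Real.exp (-(4 * g I)))

theorem lad2 (hF : S_FAST) (hE : S_EXT) (h1 : S_BLK1) (h2 : S_BLK2) : S_LAD2 := by
  classical
  intro Q I g hQ hg hg0 hgQ hA hB hc
  have hQ0 : 0 < Q := by omega
  have hQpow : ∀ l, 1 ≤ Q ^ l := fun l => Nat.one_le_pow _ _ hQ0
  have gmono : Monotone g := monotone_nat_of_le_succ hg
  have g1 : ∀ l, 1 ≤ g l := fun l => hg0.trans (gmono (Nat.zero_le l))
  have hex : ∀ l, ∃ E, 1 ≤ E ∧ W38.S3.Small Q g l E := fun l => ⟨_, small_ex Q g l⟩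
  -- the scales
  let EE : ℕ → ℕ := fun l => if l = 0 then 1 else Nat.find (hex l)
  have EE0 : EE 0 = 1 := rfl
  have EEs : ∀ l, 1 ≤ l → EE l = Nat.find (hex l) := fun l hl => by
    show (if l = 0 then 1 else Nat.find (hex l)) = _
    rw [if_neg (by omega)]
  have EE1 : ∀ l, 1 ≤ EE l := by
    intro l
    rcases Nat.eq_zero_or_pos l with rfl | hl
    · exact le_rfl
    · rw [EEs l hl]; exact (Nat.find_spec (hex l)).1
  have EEsm : ∀ l, 1 ≤ l → W38.S3.Small Q g l (EE l) := fun l hl => by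
    rw [EEs l hl]; exact (Nat.find_spec (hex l)).2
  have EEmin : ∀ l, 1 ≤ l → ∀ E, 1 ≤ E → W38.S3.Small Q g l E → EE l ≤ E := fun l hl E h1 h2 => by
    rw [EEs l hl]; exact Nat.find_min' (hex l) ⟨h1, h2⟩
  -- (a)
  have EE2 : ∀ l, 1 ≤ l → 2 ≤ EE l := by
    intro l hl
    by_contra hlt
    have h3 : EE l = 1 := by have := EE1 l; omega
    have h4 := EEsm l hl
    rw [h3] at h4
    have h5 := h4 1 (hQpow l)
    rw [pow_one] at h5
    have h6 : Real.exp (-(4 * g l)) < 1 := by
      rw [Real.exp_lt_one_iff]; have := g1 l; linarith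
    have h7 := far_one_one
    have h8 : mu * Real.exp (-(4 * g l)) < mu * 1 := mul_lt_mul_of_pos_left h6 mu_pos
    linarith
  have EEfail : ∀ l, 1 ≤ l → ∃ k ≤ Q ^ l, mu ^ k * Real.exp (-(4 * g l)) <
      (far k (EE l - 1) : ℝ) := by
    intro l hl
    have h2' := EE2 l hl
    have h3 : ¬ W38.S3.Small Q g l (EE l - 1) := by
      intro h
      have := EEmin l hl (EE l - 1) (by omega) h
      omega
    unfold W38.S3.Small at h3
    push Not at h3
    exact h3
  -- (b)
  have smallmono : ∀ l E, W38.S3.Small Q g (l + 1) E → W38.S3.Small Q g l E := by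
    intro l E h k hk
    have h3 : k ≤ Q ^ (l + 1) := hk.trans (Nat.pow_le_pow_right hQ0 (by omega))
    refine (h k h3).trans ?_
    have h4 : Real.exp (-(4 * g (l + 1))) ≤ Real.exp (-(4 * g l)) :=
      Real.exp_le_exp.2 (by have := hg l; linarith)
    have h5 : 0 ≤ mu ^ k := pow_nonneg mu_pos.le k
    exact mul_le_mul_of_nonneg_left h4 h5
  have EEmono1 : ∀ l, EE l ≤ EE (l + 1) := by
    intro l
    rcases Nat.eq_zero_or_pos l with rfl | hl
    · rw [EE0]; exact EE1 _
    · exact EEmin l hl _ (EE1 _) (smallmono l _ (EEsm (l + 1) (by omega)))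
  have EEmono : Monotone EE := monotone_nat_of_le_succ EEmono1
  -- (c)
  have hbad : ∀ l, 1 ≤ l → BadLe (Q ^ l) (EE l) (g l) := by
    intro l hl
    refine hF (Q ^ l) (EE l) (g l) (hQpow l) (EE1 l) ?_ (hc l) (EEsm l hl)
    have h3 := hA l
    push_cast
    have h4 : (0:ℝ) ≤ (Q : ℝ) ^ l := by positivity
    nlinarith
  -- (d)
  have hgrow : ∀ l, EE (l + 1) ≤ 12 * Q * EE l := by
    intro l
    rcases Nat.eq_zero_or_pos l with rfl | hl
    · rw [EE0]
      have h3 := EEmin 1 le_rfl (Q ^ 1 + 1) (small_ex Q g 1).1 (small_ex Q g 1).2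
      rw [pow_one] at h3
      show EE (0 + 1) ≤ _
      rw [zero_add]
      omega
    · have h3 : W38.S3.Small Q g (l + 1) ((3 * Q + 2) * (2 * EE l + 1)) := by
        intro k hk
        have h4 : far k ((3 * Q + 2) * (2 * EE l + 1)) ≤ bad k (EE l) (3 * Q + 2) := by
          unfold far bad
          refine Finset.card_le_card ?_
          intro w hw
          rw [Finset.mem_filter] at hw ⊢
          obtain ⟨hw1, hw2, d, hd⟩ := hw
          refine ⟨hw1, hw2, fun hcov => ?_⟩
          have e1 := hE w (EE l) (3 * Q + 2) hcov w.length le_rfl 0 (Nat.zero_le _) d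
          have e2 := hE w (EE l) (3 * Q + 2) hcov 0 (Nat.zero_le _) w.length le_rfl d
          have e3 : pos w 0 d = 0 := by rw [pos_zero]; rfl
          rw [e3, pos_length] at e1 e2
          push_cast at hd e1 e2
          rcases le_abs.1 hd with h | h <;> linarith
        have h5 := hbad l hl k (3 * Q + 2)
        have h6 : k / Q ^ l ≤ Q := by
          refine Nat.div_le_of_le_mul ?_
          rw [← pow_succ]; exact hk
        have h6' : ((k / Q ^ l : ℕ) : ℝ) ≤ Q := by exact_mod_cast h6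
        have h7 : ((far k ((3 * Q + 2) * (2 * EE l + 1)) : ℕ) : ℝ) ≤ bad k (EE l) (3 * Q + 2) := by
          exact_mod_cast h4
        refine h7.trans (h5.trans ?_)
        refine mul_le_mul_of_nonneg_left (Real.exp_le_exp.2 ?_) (pow_nonneg mu_pos.le k)
        have h8 := hgQ l
        have h9 := g1 l
        have hQR : (2:ℝ) ≤ Q := by exact_mod_cast hQ
        push_cast
        have h10 : g l * (5 * ((k / Q ^ l : ℕ) : ℝ) + 1 - 3 * (3 * (Q : ℝ) + 2)) ≤
            g l * (5 * (Q : ℝ) + 1 - 3 * (3 * (Q : ℝ) + 2)) := by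
          refine mul_le_mul_of_nonneg_left ?_ (by linarith)
          linarith
        have h11 : g l * (5 * (Q : ℝ) + 1 - 3 * (3 * (Q : ℝ) + 2)) = -(4 * (Q * g l)) - 5 * g l := by
          ring
        push_cast at h10
        linarith
      have h4 := EEmin (l + 1) (by omega) _ (by nlinarith [EE1 l]) h3
      refine h4.trans ?_
      have h5 : 3 * Q + 2 ≤ 4 * Q := by omega
      have h6 : 2 * EE l + 1 ≤ 3 * EE l := by have := EE1 l; omega
      calc (3 * Q + 2) * (2 * EE l + 1) ≤ (4 * Q) * (3 * EE l) := Nat.mul_le_mul h5 h6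
        _ = 12 * Q * EE l := by ring
  -- (e)
  have hraw : ∀ l, ∃ (h len : ℕ) (B : Finset (List St)), Raw Q g EE l h len B := by
    intro l
    rcases Nat.eq_zero_or_pos l with rfl | hl
    · refine ⟨1, 1, {[((0 : Fin 3), true)]}, ⟨fun _ => ⟨rfl, rfl, rfl⟩, le_rfl, by rw [EE0]; omega,
        by simp, ?_, ?_⟩⟩
      · intro w hw
        rw [Finset.mem_singleton] at hw
        subst hw
        have hd : disp [((0 : Fin 3), true)] = ax 0 ((1 : ℕ) : ℤ) := by
          rw [disp_singleton]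
          funext i
          unfold vec ax
          simp
        have hp1 : pos [((0 : Fin 3), true)] 1 = ax 0 ((1 : ℕ) : ℤ) := by
          rw [← hd]; exact pos_length _
        have hlen1 : ([((0 : Fin 3), true)] : List St).length = 1 := rfl
        refine ⟨rfl, ⟨?_, ?_⟩, hd, ?_⟩
        · intro i j hij hj
          rw [hlen1] at hj
          obtain rfl : i = 0 := by omega
          obtain rfl : j = 1 := by omega
          rw [pos_zero, hp1]
          intro h
          have := congrFun h 0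
          simp [ax] at this
        · intro i hi1 hi2
          rw [hlen1] at hi2
          obtain rfl : i = 1 := by omega
          rw [hp1, hd]
          simp [ax]
        · intro i hi d
          have := abs_pos_le' [((0 : Fin 3), true)] i d
          rw [hlen1] at this
          rw [EE0]
          push_cast at this ⊢
          linarith
      · rw [if_pos rfl, Finset.card_singleton, pow_one]
        have h3 := mu_le_six
        have h4 := Real.exp_one_gt_d9
        have h5 : (6:ℝ) ≤ Real.exp 2 := by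
          have : Real.exp 2 = Real.exp 1 * Real.exp 1 := by rw [← Real.exp_add]; norm_num
          rw [this]; nlinarith
        rw [Real.exp_neg]
        have h6 : 0 < Real.exp 2 := Real.exp_pos 2
        have h7 : mu * (Real.exp 2)⁻¹ ≤ 1 := by
          rw [← div_eq_mul_inv, div_le_one h6]; linarith
        simpa using h7
    · have hg1 := g1 l
      obtain ⟨j, hj, hj2⟩ := h1 (Q ^ l) (EE l) (g l) (hQpow l) (EE2 l hl)
        (by have := hA l; push_cast; exact this) (hc l) (hbad l hl) (EEfail l hl)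
      obtain ⟨h, hh1, hh2, B, hB1, hB2⟩ := h2 j (EE l - 1) (12 * EE l) (Real.exp (-(7 * g l)))
        (Real.exp_pos _) hj2
      have hE2 := EE2 l hl
      refine ⟨h, 2 * j, B, ⟨fun h0 => by omega, by omega, by omega, by omega, ?_, ?_⟩⟩
      · intro w hw
        obtain ⟨e1, e2, e3, e4⟩ := hB1 w hw
        refine ⟨e1, e2, e3, fun i hi d => ?_⟩
        have := e4 i hi d
        push_cast at this ⊢
        linarith
      · rw [if_neg (by omega)]
        refine le_trans ?_ hB2
        refine mul_le_mul_of_nonneg_left ?_ (pow_nonneg mu_pos.le _)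
        have hj3 : (2 * (j : ℝ) + 1) ^ 3 ≤ Real.exp (g l) := by
          refine le_trans ?_ (hB l)
          have : (j : ℝ) ≤ (Q : ℝ) ^ l := by exact_mod_cast hj
          have hj0 : (0:ℝ) ≤ j := Nat.cast_nonneg j
          exact pow_le_pow_left₀ (by positivity) (by linarith) 3
        have hpos : (0:ℝ) < (2 * (j : ℝ) + 1) ^ 3 := by positivity
        have h8 : Real.exp (-(8 * g l)) ≤ Real.exp (-(7 * g l)) / (2 * (j : ℝ) + 1) ^ 3 := by
          rw [le_div_iff₀ hpos]
          calc Real.exp (-(8 * g l)) * (2 * (j : ℝ) + 1) ^ 3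
              ≤ Real.exp (-(8 * g l)) * Real.exp (g l) :=
                mul_le_mul_of_nonneg_left hj3 (Real.exp_pos _).le
            _ = Real.exp (-(7 * g l)) := by rw [← Real.exp_add]; congr 1; ring
        calc Real.exp (-(16 * g l)) = Real.exp (-(8 * g l)) ^ 2 := by
              rw [← Real.exp_nat_mul]; congr 1; push_cast; ring
          _ ≤ _ := pow_le_pow_left₀ (Real.exp_pos _).le h8 2
  choose h' len' B' hR using hraw
  let cst : ℕ → ℝ := fun l => if l = 0 then 2 else 16 * g l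
  have cst_pos : ∀ l, 0 < cst l := by
    intro l
    show 0 < (if l = 0 then (2:ℝ) else 16 * g l)
    split_ifs
    · norm_num
    · have := g1 l; linarith
  have h'pos : ∀ l, 0 < h' l := fun l => lt_of_lt_of_le (EE1 l) (hR l).lo
  let r' : ℕ → ℝ := fun l => cst l / h' l
  have r'pos : ∀ l, 0 < r' l := fun l => div_pos (cst_pos l) (by exact_mod_cast h'pos l)
  -- (f)
  have hmin : ∀ l, ∃ b, b ≤ l ∧ ∀ k ≤ l, r' b ≤ r' k := by
    intro l
    obtain ⟨b, hb, hb2⟩ := Finset.exists_min_image (Finset.range (l + 1)) r' ⟨0, by simp⟩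
    refine ⟨b, ?_, fun k hk => hb2 k ?_⟩
    · have := Finset.mem_range.1 hb; omega
    · exact Finset.mem_range.2 (by omega)
  choose bb hbb1 hbb2 using hmin
  have bb0 : bb 0 = 0 := by have := hbb1 0; omega
  have cst0 : cst 0 = 2 := rfl
  have hh0 : h' 0 = 1 := ((hR 0).zero rfl).1
  have r'0 : r' 0 = 2 := by
    show cst 0 / (h' 0 : ℝ) = 2
    rw [cst0, hh0]; norm_num
  have hcstl : ∀ l, 1 ≤ l → cst l = 16 * g l := fun l hl => by
    show (if l = 0 then (2:ℝ) else 16 * g l) = _
    rw [if_neg (by omega)]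
  refine ⟨EE, fun l => r' (bb l), fun l => h' (bb l), fun l => len' (bb l), fun l => B' (bb l),
    ⟨EE0, fun l _ => EEmono1 l, ?_, ?_, fun l _ => r'pos _, ?_, fun l _ => h'pos _, ?_, ?_, ?_, ?_,
      ?_⟩, fun l _ => hgrow l, ?_, ?_, ?_, fun l hl _ => hbad l hl, ?_⟩
  · show r' (bb 0) = 2
    rw [bb0, r'0]
  · intro l _
    exact hbb2 (l + 1) (bb l) ((hbb1 l).trans (by omega))
  · show h' (bb 0) = 1
    rw [bb0, hh0]
  · intro l _
    exact (hR (bb l)).hi.trans (Nat.mul_le_mul_left _ (EEmono (hbb1 l)))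
  · show len' (bb 0) = 1
    rw [bb0]; exact ((hR 0).zero rfl).2.1
  · show B' (bb 0) = _
    rw [bb0]; exact ((hR 0).zero rfl).2.2
  · intro l _ w hw
    obtain ⟨e1, e2, e3, e4⟩ := (hR (bb l)).mem w hw
    refine ⟨e1, e2, e3, fun i hi d => (e4 i hi d).trans ?_⟩
    have : ((EE (bb l) : ℕ) : ℤ) ≤ (EE l : ℕ) := by exact_mod_cast EEmono (hbb1 l)
    linarith
  · intro l _
    have e1 := (hR (bb l)).card
    have e2 : r' (bb l) * (h' (bb l) : ℝ) = (if bb l = 0 then 2 else 16 * g (bb l)) := by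
      show cst (bb l) / (h' (bb l) : ℝ) * (h' (bb l) : ℝ) = _
      have : (h' (bb l) : ℝ) ≠ 0 := by
        have := h'pos (bb l)
        positivity
      rw [div_mul_cancel₀ _ this]
    show mu ^ len' (bb l) * Real.exp (-(r' (bb l) * (h' (bb l) : ℝ))) ≤ _
    rw [e2]
    exact e1
  · -- (g)
    intro l _
    rcases Nat.eq_zero_or_pos l with rfl | hl
    · show r' (bb 0) * (EE 0 : ℝ) ≤ 16 * g 0
      rw [bb0, r'0, EE0]; push_cast; linarith
    · have e1 := hbb2 l l le_rfl
      have e2 : ((EE l : ℕ) : ℝ) ≤ h' l := by exact_mod_cast (hR l).lo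
      have e3 : (0:ℝ) < h' l := by exact_mod_cast h'pos l
      calc r' (bb l) * (EE l : ℝ) ≤ r' l * (h' l : ℝ) :=
            mul_le_mul e1 e2 (Nat.cast_nonneg _) (r'pos l).le
        _ = cst l := div_mul_cancel₀ _ e3.ne'
        _ = 16 * g l := hcstl l hl
  · -- (h)
    intro l hlI
    show r' (bb l) ≤ 288 * (Q : ℝ) * r' (bb (l + 1))
    have hQR : (2:ℝ) ≤ Q := by exact_mod_cast hQ
    rcases Nat.lt_or_ge l (bb (l + 1)) with hlt | hge
    · have heq : bb (l + 1) = l + 1 := by have := hbb1 (l + 1); omega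
      rw [heq]
      have hEl : (0:ℝ) < EE l := by exact_mod_cast EE1 l
      -- r l * E l ≤ 16 g l
      have e0 : r' (bb l) * (EE l : ℝ) ≤ 16 * g l := by
        rcases Nat.eq_zero_or_pos l with rfl | hl
        · rw [bb0, r'0, EE0]; push_cast; linarith
        · have e1 := hbb2 l l le_rfl
          have e2 : ((EE l : ℕ) : ℝ) ≤ h' l := by exact_mod_cast (hR l).lo
          have e3 : (0:ℝ) < h' l := by exact_mod_cast h'pos l
          calc r' (bb l) * (EE l : ℝ) ≤ r' l * (h' l : ℝ) :=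
                mul_le_mul e1 e2 (Nat.cast_nonneg _) (r'pos l).le
            _ = cst l := div_mul_cancel₀ _ e3.ne'
            _ = 16 * g l := hcstl l hl
      have e4 : (h' (l + 1) : ℝ) ≤ 288 * Q * EE l := by
        have e5 : h' (l + 1) ≤ 24 * (12 * Q * EE l) :=
          (hR (l + 1)).hi.trans (Nat.mul_le_mul_left _ (hgrow l))
        have e6 : ((h' (l + 1) : ℕ) : ℝ) ≤ ((24 * (12 * Q * EE l) : ℕ) : ℝ) := by exact_mod_cast e5
        push_cast at e6
        linarith
      have e7 : (0:ℝ) < h' (l + 1) := by exact_mod_cast h'pos (l + 1)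
      have e8 : r' (l + 1) = 16 * g (l + 1) / h' (l + 1) := by
        show cst (l + 1) / (h' (l + 1) : ℝ) = _
        rw [hcstl (l + 1) (by omega)]
      rw [e8, mul_div_assoc', le_div_iff₀ e7]
      have e9 := hg l
      have e10 := r'pos (bb l)
      calc r' (bb l) * (h' (l + 1) : ℝ) ≤ r' (bb l) * (288 * Q * EE l) :=
            mul_le_mul_of_nonneg_left e4 e10.le
        _ = 288 * Q * (r' (bb l) * EE l) := by ring
        _ ≤ 288 * Q * (16 * g l) := mul_le_mul_of_nonneg_left e0 (by positivity)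
        _ ≤ 288 * Q * (16 * g (l + 1)) :=
            mul_le_mul_of_nonneg_left (by linarith) (by positivity)
    · have e1 := hbb2 l (bb (l + 1)) hge
      have e2 := r'pos (bb (l + 1))
      nlinarith
  · -- (i)
    intro l hl
    have hbI : bb l ≤ I := (hbb1 l).trans hl
    have hgI := g1 I
    have hgI0 : (0 : ℝ) < g I := by linarith
    have hQI : (0 : ℝ) ≤ (Q : ℝ) ^ I / g I := by positivity
    show (len' (bb l) : ℝ) ≤ ((Q : ℝ) ^ I / g I + 1) * (r' (bb l) * (h' (bb l) : ℝ))
    have e2 : r' (bb l) * (h' (bb l) : ℝ) = cst (bb l) := by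
      show cst (bb l) / (h' (bb l) : ℝ) * (h' (bb l) : ℝ) = _
      have : (h' (bb l) : ℝ) ≠ 0 := by
        have := h'pos (bb l)
        positivity
      rw [div_mul_cancel₀ _ this]
    rw [e2]
    rcases Nat.eq_zero_or_pos (bb l) with h0 | h0
    · have e3 : len' (bb l) = 1 := by
        rw [h0]; exact ((hR 0).zero rfl).2.1
      have e4 : cst (bb l) = 2 := by rw [h0, cst0]
      rw [e3, e4]
      push_cast
      linarith
    · rw [hcstl (bb l) h0]
      have e3 : (len' (bb l) : ℝ) ≤ 2 * (Q : ℝ) ^ (bb l) := by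
        exact_mod_cast (hR (bb l)).len_le
      have hgb := g1 (bb l)
      have hQ1 : (1 : ℝ) ≤ Q := by exact_mod_cast (by omega : 1 ≤ Q)
      have hk : ∀ k, g (bb l + k) ≤ (Q : ℝ) ^ k * g (bb l) := by
        intro k
        induction k with
        | zero => simp
        | succ k ih =>
          calc g (bb l + (k + 1)) ≤ Q * g (bb l + k) := hgQ _
            _ ≤ Q * ((Q : ℝ) ^ k * g (bb l)) := mul_le_mul_of_nonneg_left ih (by positivity)
            _ = (Q : ℝ) ^ (k + 1) * g (bb l) := by ring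
      have hk2 := hk (I - bb l)
      rw [show bb l + (I - bb l) = I by omega] at hk2
      have e5 : (Q : ℝ) ^ (bb l) ≤ (Q : ℝ) ^ I / g I * g (bb l) := by
        rw [div_mul_eq_mul_div, le_div_iff₀ hgI0]
        calc (Q : ℝ) ^ (bb l) * g I ≤ (Q : ℝ) ^ (bb l) * ((Q : ℝ) ^ (I - bb l) * g (bb l)) :=
              mul_le_mul_of_nonneg_left hk2 (by positivity)
          _ = (Q : ℝ) ^ I * g (bb l) := by
              rw [← mul_assoc, ← pow_add]; congr 2; omega
      have e6 : 0 ≤ (Q : ℝ) ^ I / g I * g (bb l) := by positivity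
      calc (len' (bb l) : ℝ) ≤ 2 * (Q : ℝ) ^ (bb l) := e3
        _ ≤ 2 * ((Q : ℝ) ^ I / g I * g (bb l)) := by linarith
        _ ≤ ((Q : ℝ) ^ I / g I + 1) * (16 * g (bb l)) := by nlinarith
  · intro hI k hk
    exact EEsm I hI k hk

end Pool.Agent.K3h14.SW
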