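import Pool.Agent.W325.S3.Step3
import Pool.Agent.K3h14.SW.Lad2

/-! The parameters of the exit paths, for an arbitrary scale function `g`, with the speed of the
blocks (as in `Pool.Agent.TH232.S3.Data`). -/

namespace Pool.Agent.K3h14.SW

open Finset Pool.Agent.H46R2.K3 Pool.Agent.H46R2.K3.P Pool.Agent.W325.S3

/-- all the parameters together -/
theorem data2 (hL : S_LAD2) {Q : ℕ} (hQ : 2 ≤ Q) {g : ℕ → ℝ} (hg1 : ∀ l, g l ≤ g (l + 1))
    (hg2 : 1 ≤ g 0) (hg3 : ∀ l, g (l + 1) ≤ Q * g l)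
    (hg4 : ∀ l, 12 * ((Q : ℝ) ^ l + 1) ^ 2 ≤ Real.exp (g l))
    (hg5 : ∀ l, (2 * (Q : ℝ) ^ l + 1) ^ 3 ≤ Real.exp (g l))
    (hg6 : ∀ l, ∀ k ≤ Q ^ l, (c k : ℝ) ≤ mu ^ k * Real.exp (g l))
    {M I : ℕ} (hIM : I ≤ M) (hI1 : 1 ≤ I) {Y₁ : ℝ} (hY₁2 : 2 ≤ Y₁)
    (htop : ∀ l ≤ I, g l ≤ Y₁) (hmain : ∀ l ≤ I, (Q : ℝ) ^ (M - l) * g l ^ 3 ≤ Y₁ ^ 3) :
    ∃ (E : ℕ → ℕ) (r : ℕ → ℝ) (h len : ℕ → ℕ) (B : ℕ → Finset (List St))
      (R : ℕ → ℕ) (F : ℕ) (Y : ℝ), Lad I E r h len B ∧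
      (∀ l, 1 ≤ l → l ≤ I → BadLe (Q ^ l) (E l) (g l)) ∧
      (∀ l ≤ I, (len l : ℝ) ≤ ((Q : ℝ) ^ I / g I + 1) * (r l * h l)) ∧ (∀ i ≤ I, 1 ≤ R i) ∧ (∀ i < I, R i ≤ R (i + 1)) ∧ R I ≤ F ∧
      E I ≤ F ∧ (∀ i ≤ I, r i * R i ≤ Y) ∧ r I * F ≤ Y ∧ (∀ l < I, 192 * r l * E (l + 1) ≤ Y) ∧
      (∀ l i, l ≤ i → i < I → r l * (2 * R (i + 1)) *
        ((2 * ((Q ^ M + 1) / Q ^ (l + 1) : ℕ) + 2) * (99 * (E (l + 1) : ℝ)) ^ 3) ≤
          Y * (R i : ℝ) ^ 3) ∧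
      (∀ l < I, r l * F *
        ((2 * ((Q ^ M + 1) / Q ^ (l + 1) : ℕ) + 2) * (99 * (E (l + 1) : ℝ)) ^ 3) ≤
          Y * (R I : ℝ) ^ 3) ∧
      Y = Cst * (Q : ℝ) ^ 4 * Y₁ ∧
      (∀ k ≤ Q ^ I, (bge k (E I + 1) : ℝ) ≤ mu ^ k * Real.exp (-(4 * g I))) := by
  have hQ1 : (1 : ℝ) ≤ Q := by exact_mod_cast (by omega : 1 ≤ Q)
  have hQ2 : (2 : ℝ) ≤ Q := by exact_mod_cast hQ
  have hQ0 : (0 : ℝ) < Q := by linarith
  have hmu1 := one_le_mu
  have hmu0 : (0 : ℝ) < mu := by linarith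
  have hg0 : ∀ l, 1 ≤ g l := by
    intro l
    exact hg2.trans (monotone_nat_of_le_succ hg1 (Nat.zero_le l))
  obtain ⟨E, r, hh, len, B, hLad, hE, hrE, hrr, hlen, hbad, hfar⟩ :=
    hL Q I g hQ hg1 hg2 hg3 hg4 hg5 hg6
  have hr0 : ∀ l ≤ I, 0 < r l := hLad.r_pos
  have hanti : ∀ {l i : ℕ}, l ≤ i → i ≤ I → r i ≤ r l := fun hli hi => st_anti hLad.r_anti hli hi
  have hr2 : ∀ l ≤ I, r l ≤ 2 := fun l hl => by
    have := hanti (Nat.zero_le l) hl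
    rwa [hLad.r_zero] at this
  have hY₁0 : 0 ≤ Y₁ := by linarith
  obtain ⟨R, hR⟩ : ∃ R : ℕ → ℕ, R = fun i => ⌊Y₁ / r i⌋₊ := ⟨_, rfl⟩
  have hYr : ∀ i ≤ I, 1 ≤ Y₁ / r i := by
    intro i hi
    rw [le_div_iff₀ (hr0 i hi)]
    have := hr2 i hi
    linarith
  have hRf : ∀ i ≤ I, 1 ≤ R i ∧ (R i : ℝ) ≤ Y₁ / r i ∧ Y₁ / r i ≤ 2 * (R i : ℝ) := by
    intro i hi; rw [hR]; exact st_floor (hYr i hi)
  have hRa : ∀ i ≤ I, r i * R i ≤ Y₁ := by
    intro i hi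
    have h1 := (hRf i hi).2.1
    rw [le_div_iff₀ (hr0 i hi)] at h1
    linarith
  have hRb : ∀ i ≤ I, Y₁ ≤ 2 * (r i * R i) := by
    intro i hi
    have h1 := (hRf i hi).2.2
    rw [div_le_iff₀ (hr0 i hi)] at h1
    linarith
  have ha4 : ∀ l i, l ≤ i → i ≤ I → Y₁ ≤ 2 * (r l * R i) := by
    intro l i hli hi
    refine (hRb i hi).trans ?_
    have := hanti hli hi
    gcongr
  have hRm : ∀ i < I, R i ≤ R (i + 1) := by
    intro i hi; rw [hR]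
    apply Nat.floor_le_floor
    have h1 := hr0 (i + 1) (by omega)
    have h2 := hLad.r_anti i hi
    gcongr
  have ha3 : ∀ i < I, 2 * (R (i + 1) : ℝ) ≤ 1152 * Q * R i := by
    intro i hi
    have h1 := (hRf (i + 1) (by omega)).2.1
    have h2 := hrr i hi
    have h3 := hr0 (i + 1) (by omega)
    have h4 := hr0 i (by omega)
    have h5 := (hRf i (by omega)).2.2
    have h6 : Y₁ / r (i + 1) ≤ 288 * Q * (Y₁ / r i) := by
      rw [div_le_iff₀ h3]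
      have e : 288 * Q * (Y₁ / r i) * r (i + 1) = Y₁ * (288 * Q * r (i + 1)) / r i := by ring
      rw [e, le_div_iff₀ h4]
      exact mul_le_mul_of_nonneg_left h2 hY₁0
    have h7 : 288 * (Q : ℝ) * (Y₁ / r i) ≤ 288 * Q * (2 * R i) :=
      mul_le_mul_of_nonneg_left h5 (by positivity)
    linarith
  have ha2 : ∀ l < I, r l * (E (l + 1) : ℝ) ≤ 192 * Q * g l := by
    intro l hl
    have h1 : (E (l + 1) : ℝ) ≤ 12 * Q * E l := by exact_mod_cast hE l hl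
    have h2 := hrE l (by omega)
    have h3 := hr0 l (by omega)
    calc r l * (E (l + 1) : ℝ) ≤ r l * (12 * Q * E l) := mul_le_mul_of_nonneg_left h1 h3.le
      _ = 12 * Q * (r l * E l) := by ring
      _ ≤ 12 * Q * (16 * g l) := mul_le_mul_of_nonneg_left h2 (by positivity)
      _ = 192 * Q * g l := by ring
  have hEI : r I * (E I : ℝ) ≤ 16 * Y₁ := by
    have h2 := hrE I le_rfl
    have h5 := htop I le_rfl
    linarith
  have hFb : ((R I + E I : ℕ) : ℝ) ≤ 33 * R I := by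
    have h1 := hRb I le_rfl
    have h2 := hr0 I le_rfl
    have h3 : r I * (E I : ℝ) ≤ r I * (32 * R I) := by
      calc r I * (E I : ℝ) ≤ 16 * Y₁ := hEI
        _ ≤ 16 * (2 * (r I * R I)) := by gcongr
        _ = _ := by ring
    have h4 := le_of_mul_le_mul_left h3 h2
    push_cast
    linarith
  obtain ⟨Y, hY⟩ : ∃ Y : ℝ, Y = Cst * (Q : ℝ) ^ 4 * Y₁ := ⟨_, rfl⟩
  have hY' : Y = Cst * 1 ^ 4 * (Q : ℝ) ^ 4 * Y₁ := by rw [hY]; ring
  have hC1 := st_Cst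
  have hC0 : 0 < Cst := by linarith
  have hQ4 : (Q : ℝ) ≤ (Q : ℝ) ^ 4 := le_self_pow₀ hQ1 (by norm_num)
  have hYbig : 36864 * Q * Y₁ ≤ Y := by
    rw [hY]
    have h1 : (36864 : ℝ) ≤ Cst := by unfold Cst; norm_num
    gcongr
  have hYY : Y₁ ≤ Y := by
    refine le_trans ?_ hYbig
    have h1 : (1 : ℝ) ≤ 36864 * Q := by linarith
    nlinarith
  refine ⟨E, r, hh, len, B, R, R I + E I, Y, hLad, hbad, hlen,
    fun i hi => (hRf i hi).1, hRm, Nat.le_add_right _ _, Nat.le_add_left _ _,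
    fun i hi => (hRa i hi).trans hYY, ?_, ?_, ?_, ?_, hY, ?_⟩
  · -- r I * F
    refine le_trans ?_ hYbig
    have h1 := hRa I le_rfl
    push_cast
    have h4 : Y₁ ≤ Q * Y₁ := by nlinarith
    nlinarith
  · -- taper
    intro l hl
    refine le_trans ?_ hYbig
    have h1 := ha2 l hl
    have h2 := htop l (by omega)
    calc 192 * r l * (E (l + 1) : ℝ) = 192 * (r l * E (l + 1)) := by ring
      _ ≤ 192 * (192 * Q * g l) := by gcongr
      _ ≤ 192 * (192 * Q * Y₁) := by gcongr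
      _ = 36864 * Q * Y₁ := by ring
  · -- averages
    intro l i hli hi
    apply st_alg (q := (Q : ℝ) ^ (M - l)) (t := g l) (K₁ := 1) (Q := Q) (Y₁ := Y₁)
      (hr0 l (by omega)) (Nat.cast_nonneg _) hQ1 le_rfl (Nat.cast_nonneg _) (by positivity)
      (by positivity) (st_div hQ (by omega)) _ _ (ha4 l i hli (by omega)) hY₁0
      (hmain l (by omega)) hY'
    · have := ha2 l (by omega)
      linarith
    · have h1 := ha3 i hi
      linarith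
  · -- final averages
    intro l hl
    have h0 := st_alg (q := (Q : ℝ) ^ (M - l)) (t := g l) (K₁ := 1) (Q := Q) (Y₁ := Y₁)
      (rl := r l) (El := E (l + 1)) (R₀ := R I) (R₁ := ((R I + E I : ℕ) : ℝ) / 2)
      (V := (2 * ((Q ^ M + 1) / Q ^ (l + 1) : ℕ) + 2)) (Y := Y)
      (hr0 l (by omega)) (Nat.cast_nonneg _) hQ1 le_rfl (Nat.cast_nonneg _) (by positivity)
      (by positivity) (st_div hQ (by omega)) (by
        have := ha2 l (by omega)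
        linarith) (by
        have h5 : (0 : ℝ) ≤ R I := by positivity
        have h6 : 33 * (R I : ℝ) ≤ 1152 * Q * 1 * R I := by nlinarith
        linarith) (ha4 l I (by omega) le_rfl) hY₁0
      (hmain l (by omega)) hY'
    have e : (2 * (((R I + E I : ℕ) : ℝ) / 2)) = ((R I + E I : ℕ) : ℝ) := by ring
    rw [e] at h0
    exact h0
  · -- bridges
    intro k hk
    have h1 := hfar hI1 k hk
    have h2 : (bge k (E I + 1) : ℝ) ≤ far k (E I) := by exact_mod_cast st_far_bge k (E I)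
    exact h2.trans h1

end Pool.Agent.K3h14.SW
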