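import Pool.Agent.H46R2.K3.EQ

/-!
Self-avoiding walks on `ℤ³` as functions and as words, with a further property.
-/

set_option autoImplicit false

namespace Pool.Agent.K3h14.SW

open Finset Pool.Agent.H46R2.K3 Pool.Agent.H46R2.K3.P

open Classical in
theorem card_eqP (n : ℕ) (P : (Fin (n + 1) → (Fin 3 → ℤ)) → Prop) :
    Nat.card {f : Fin (n + 1) → (Fin 3 → ℤ) // (f 0 = 0 ∧ Function.Injective f ∧
      ∀ i : Fin n, ∑ j : Fin 3, |f i.succ j - f i.castSucc j| = 1) ∧ P f} =
      #((W n).filter fun w => Saw w ∧ P (fun i : Fin (n + 1) => pos w i)) := by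
  have hfilter : #((W n).filter fun w => Saw w ∧ P (fun i : Fin (n + 1) => pos w i)) =
      Nat.card ((W n).filter fun w => Saw w ∧ P (fun i : Fin (n + 1) => pos w i)) := by
    rw [Nat.card_eq_fintype_card, Fintype.card_coe]
  rw [hfilter]
  symm
  have hprop : ∀ w : (W n).filter fun w => Saw w ∧ P (fun i : Fin (n + 1) => pos w i),
      ((fun i : Fin (n + 1) => pos w.1 i) 0 = 0 ∧
      Function.Injective (fun i : Fin (n + 1) => pos w.1 i) ∧
      ∀ i : Fin n, ∑ j : Fin 3, |(fun i : Fin (n + 1) => pos w.1 i) i.succ j -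
        (fun i : Fin (n + 1) => pos w.1 i) i.castSucc j| = 1) ∧
        P (fun i : Fin (n + 1) => pos w.1 i) := by
    rintro ⟨w, hw⟩
    rw [Finset.mem_filter, eq_mem_W] at hw
    obtain ⟨hlen, hsaw, hP⟩ := hw
    refine ⟨⟨?_, ?_, ?_⟩, hP⟩
    · simp [eq_pos_zero]
    · intro i j hij
      by_contra hne
      rcases lt_or_gt_of_ne hne with h | h
      · exact hsaw i j h (by omega) hij
      · exact hsaw j i h (by omega) hij.symm
    · intro i
      have h1 : ∀ j, pos w (i.succ : Fin (n + 1)) j - pos w (i.castSucc : Fin (n + 1)) j =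
          vec (w[(i : ℕ)]'(by omega)) j := by
        intro j
        have h2 := eq_pos_succ (w := w) (k := i) (by omega)
        rw [Fin.val_succ, Fin.val_castSucc, h2]
        simp
      simp only [h1]
      exact eq_vec_norm _
  refine Nat.card_eq_of_bijective (fun w => ⟨fun i => pos w.1 i, hprop w⟩) ⟨?_, ?_⟩
  · rintro ⟨w, hw⟩ ⟨w', hw'⟩ h
    rw [Finset.mem_filter, eq_mem_W] at hw hw'
    rw [Subtype.mk.injEq] at h
    apply Subtype.ext
    refine eq_ext hw.1 hw'.1 fun k hk => ?_
    exact congrFun h ⟨k, by omega⟩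
  · rintro ⟨f, ⟨h0, hinj, h1⟩, hP⟩
    obtain ⟨w, hlen, hw⟩ := eq_exists_word f h0 h1
    have hfw : (fun i : Fin (n + 1) => pos w i) = f := funext hw
    refine ⟨⟨w, ?_⟩, ?_⟩
    · rw [Finset.mem_filter, eq_mem_W]
      refine ⟨hlen, fun i j hij hj h => ?_, by rw [hfw]; exact hP⟩
      have h2 := hw ⟨i, by omega⟩
      have h3 := hw ⟨j, by omega⟩
      simp only at h2 h3
      rw [h2, h3] at h
      have := hinj h
      rw [Fin.mk.injEq] at this
      omega
    · apply Subtype.ext
      exact hfw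

/-- bridges -/
theorem card_br (n : ℕ) :
    Nat.card {f : Fin (n + 1) → (Fin 3 → ℤ) // (f 0 = 0 ∧ Function.Injective f ∧
      ∀ i : Fin n, ∑ j : Fin 3, |f i.succ j - f i.castSucc j| = 1) ∧
      ∀ i : Fin n, 0 < f i.succ 0 ∧ f i.succ 0 ≤ f (Fin.last n) 0} = b n := by
  classical
  rw [card_eqP n (fun f => ∀ i : Fin n, 0 < f i.succ 0 ∧ f i.succ 0 ≤ f (Fin.last n) 0)]
  unfold b
  congr 1
  ext w
  simp only [Finset.mem_filter]
  refine and_congr_right fun hw => ?_
  rw [eq_mem_W] at hw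
  have hd : pos w n = disp w := by
    unfold pos disp
    rw [List.take_of_length_le hw.le]
  unfold Br
  refine and_congr_right fun _ => ⟨fun h i h1 h2 => ?_, fun h i => ?_⟩
  · have h3 := h ⟨i - 1, by omega⟩
    simp only [Fin.val_succ, Fin.val_last, hd] at h3
    rwa [Nat.sub_add_cancel h1] at h3
  · have h3 := h (i + 1) (by omega) (by omega)
    simp only [Fin.val_succ, Fin.val_last, hd]
    exact h3

end Pool.Agent.K3h14.SW
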