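import Pool.Agent.K3h14.SW.Raw

/-!
Self-avoiding walks on `ℤ³`: at every scale `8^t` there is a length with many bridges.
-/

set_option autoImplicit false

namespace Pool.Agent.K3h14.SW

open Finset Pool.Agent.H46R2.K3 Pool.Agent.H46R2.K3.P Pool.Agent.W325.S3 Filter

theorem pow_low (t : ℕ) : (3 / 2 : ℝ) ^ t ≤ 2 ^ ((2 * t + 2) / 3) := by
  have h : ((3 / 2 : ℝ) ^ t) ^ 3 ≤ ((2 : ℝ) ^ ((2 * t + 2) / 3)) ^ 3 := by
    calc ((3 / 2 : ℝ) ^ t) ^ 3 = (27 / 8) ^ t := by rw [← pow_mul, mul_comm, pow_mul]; norm_num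
      _ ≤ 4 ^ t := by gcongr; norm_num
      _ = 2 ^ (2 * t) := by rw [pow_mul]; norm_num
      _ ≤ 2 ^ (((2 * t + 2) / 3) * 3) := pow_le_pow_right₀ (by norm_num) (by omega)
      _ = _ := by rw [pow_mul]
  exact le_of_pow_le_pow_left₀ (by norm_num) (by positivity) h

theorem ev_cube (C : ℝ) : ∀ᶠ t : ℕ in atTop, C * ((t : ℝ) + 1) ^ 3 ≤ 2 ^ ((2 * t + 2) / 3) := by
  have h1 := tendsto_pow_const_div_const_pow_of_one_lt 3 (r := (3 / 2 : ℝ)) (by norm_num)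
  have h2 : ∀ᶠ t : ℕ in atTop, (t : ℝ) ^ 3 / (3 / 2) ^ t < 1 / (8 * (|C| + 1)) :=
    h1.eventually_lt_const (by positivity)
  filter_upwards [h2, eventually_ge_atTop 1] with t ht ht1
  have ht1' : (1 : ℝ) ≤ t := by exact_mod_cast ht1
  refine le_trans ?_ (pow_low t)
  have hp : (0 : ℝ) < (3 / 2) ^ t := by positivity
  rw [div_lt_div_iff₀ hp (by positivity)] at ht
  have h3 : ((t : ℝ) + 1) ^ 3 ≤ 8 * (t : ℝ) ^ 3 := by
    calc ((t : ℝ) + 1) ^ 3 ≤ (2 * (t : ℝ)) ^ 3 := by gcongr; linarith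
      _ = _ := by ring
  have h4 : 0 ≤ ((t : ℝ) + 1) ^ 3 := by positivity
  calc C * ((t : ℝ) + 1) ^ 3 ≤ (|C| + 1) * ((t : ℝ) + 1) ^ 3 := by
        apply mul_le_mul_of_nonneg_right _ h4
        linarith [le_abs_self C]
    _ ≤ (|C| + 1) * (8 * (t : ℝ) ^ 3) := by
        apply mul_le_mul_of_nonneg_left h3
        positivity
    _ ≤ (3 / 2) ^ t := by linarith

theorem Pm_bound : ∃ K A : ℝ, 1 ≤ K ∧ 0 ≤ A ∧
    ∀ t : ℕ, TH232.S3.Pm t ≤ K * Real.exp (A * Real.log ((t : ℝ) + 2) ^ 2) := by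
  obtain ⟨K, A, hK, hA, h⟩ := TH232.S3.p_bound
  refine ⟨K, A, hK, hA, fun t => ?_⟩
  apply TH232.S3.Pm_le
  intro s hs
  refine (h s).trans ?_
  have hs0 : (0 : ℝ) ≤ s := Nat.cast_nonneg s
  have h3 : Real.log ((s : ℝ) + 2) ≤ Real.log ((t : ℝ) + 2) := by
    apply Real.log_le_log (by linarith)
    have : (s : ℝ) ≤ t := by exact_mod_cast hs
    linarith
  have h4 : 0 ≤ Real.log ((s : ℝ) + 2) := Real.log_nonneg (by linarith)
  gcongr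

theorem ev_Pm : ∀ᶠ t : ℕ in atTop, TH232.S3.Pm t ≤ 2 ^ t := by
  obtain ⟨K, A, hK, hA, h⟩ := Pm_bound
  have h1 : (fun x : ℝ => Real.log x ^ 2) =o[atTop] (id : ℝ → ℝ) :=
    Real.isLittleO_pow_log_id_atTop
  have h2 : Tendsto (fun t : ℕ => (t : ℝ) + 2) atTop atTop :=
    tendsto_atTop_add_const_right _ _ tendsto_natCast_atTop_atTop
  have h3 := h1.comp_tendsto h2
  have h4 := h3.bound (c := 1 / (8 * (A + 1))) (by positivity)
  have h5 : ∀ᶠ t : ℕ in atTop, 4 * Real.log K + 2 ≤ (t : ℝ) :=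
    tendsto_natCast_atTop_atTop.eventually_ge_atTop _
  filter_upwards [h4, h5] with t ht ht2
  refine (h t).trans ?_
  have ht0 : (0 : ℝ) ≤ t := Nat.cast_nonneg t
  simp only [Function.comp, id, Real.norm_eq_abs] at ht
  rw [abs_of_nonneg (sq_nonneg _), abs_of_nonneg (by linarith : (0 : ℝ) ≤ (t : ℝ) + 2)] at ht
  have h6 : A * Real.log ((t : ℝ) + 2) ^ 2 ≤ ((t : ℝ) + 2) / 8 := by
    calc A * Real.log ((t : ℝ) + 2) ^ 2 ≤ (A + 1) * Real.log ((t : ℝ) + 2) ^ 2 := by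
          apply mul_le_mul_of_nonneg_right (by linarith) (sq_nonneg _)
      _ ≤ (A + 1) * (1 / (8 * (A + 1)) * ((t : ℝ) + 2)) := by
          apply mul_le_mul_of_nonneg_left ht (by linarith)
      _ = ((t : ℝ) + 2) / 8 := by field_simp
  have h7 : K = Real.exp (Real.log K) := (Real.exp_log (by linarith)).symm
  rw [h7, ← Real.exp_add]
  have h8 : (2 : ℝ) ^ t = Real.exp (t * Real.log 2) := by
    rw [← Real.log_pow, Real.exp_log (by positivity)]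
  rw [h8]
  apply Real.exp_le_exp.2
  have h9 := Real.log_two_gt_d9
  nlinarith

theorem nat_le_exp (t : ℕ) : (8 : ℝ) ^ t ≤ Real.exp (3 * (t : ℝ)) := by
  have he3 : (20 : ℝ) ≤ Real.exp 3 := by
    have e3 : Real.exp 3 = Real.exp 1 ^ 3 := by rw [← Real.exp_nat_mul]; norm_num
    have h4 := Real.exp_one_gt_d9
    have h5 : (2.7182818283 : ℝ) ^ 3 ≤ Real.exp 1 ^ 3 := by gcongr
    rw [e3]
    exact le_trans (by norm_num) h5
  calc (8 : ℝ) ^ t ≤ Real.exp 3 ^ t := by gcongr; linarith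
    _ = Real.exp (3 * t) := by rw [← Real.exp_nat_mul]; ring_nf

/-- a length with many bridges at every scale -/
theorem good : ∃ (t₀ : ℕ) (C : ℝ), 1 ≤ t₀ ∧ 0 ≤ C ∧ ∀ t ≥ t₀, ∃ m : ℕ, 8 ^ t ≤ m ∧
    m ≤ 4 * 8 ^ t ∧ Real.exp (-(C * (((t : ℝ) + 1) ^ 3 * (2 ^ t * TH232.S3.Pm t)))) ≤ hb m := by
  obtain ⟨c₁, hc₁⟩ : ∃ c₁ : ℝ, c₁ = TH232.S3.c₁ := ⟨_, rfl⟩
  have hc0 : 0 < c₁ := by rw [hc₁]; exact TH232.S3.c₁_pos
  obtain ⟨t₁, ht₁⟩ := ((ev_cube (28 * c₁ + 23)).and (ev_Pm.and (eventually_ge_atTop 2))).exists_forall_of_atTop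
  refine ⟨max t₁ 1, 56 * c₁ + 22, le_max_right _ _, by positivity, fun t ht => ?_⟩
  obtain ⟨hF1, hF2, ht2⟩ := ht₁ t ((le_max_left _ _).trans ht)
  obtain ⟨Z, hZ⟩ : ∃ Z : ℝ, Z = TH232.S3.Pm t := ⟨_, rfl⟩
  obtain ⟨G, hG⟩ : ∃ G : ℝ, G = Z * 2 ^ ((2 * t + 2) / 3) := ⟨_, rfl⟩
  obtain ⟨Y', hY0, hYle, hhs⟩ := hs_cmp (by omega) hZ hG
  rw [← hc₁] at hYle
  rw [← hZ] at hF2 ⊢
  have hZ1 : 1 ≤ Z := by rw [hZ]; exact TH232.S3.one_le_Pm t
  obtain ⟨u, hu⟩ : ∃ u : ℝ, u = (t : ℝ) + 1 := ⟨_, rfl⟩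
  have ht2' : (2 : ℝ) ≤ t := by exact_mod_cast ht2
  have hu1 : 3 ≤ u := by rw [hu]; linarith
  obtain ⟨S, hS⟩ : ∃ S : ℝ, S = u ^ 3 * (2 ^ t * Z) := ⟨_, rfl⟩
  rw [← hu] at hF1 hYle ⊢
  rw [← hS]
  have h2t : (1 : ℝ) ≤ 2 ^ t := one_le_pow₀ (by norm_num)
  have h2tZ : 1 ≤ 2 ^ t * Z := by nlinarith
  have hu3 : u ≤ u ^ 3 := le_self_pow₀ (by linarith) (by norm_num)
  have hu23 : u ^ 2 ≤ u ^ 3 := pow_le_pow_right₀ (by linarith) (by norm_num)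
  have huS : u * (2 ^ t * Z) ≤ S := by rw [hS]; gcongr
  have huS1 : u ≤ S := by nlinarith
  have hS1 : 3 ≤ S := by linarith
  obtain ⟨w, hw⟩ : ∃ w : ℝ, w = 2 ^ ((2 * t + 2) / 3) := ⟨_, rfl⟩
  rw [← hw] at hF1 hG
  have hw0 : 0 < w := by rw [hw]; positivity
  have h4 : w ≤ 2 ^ t := by
    rw [hw]; exact pow_le_pow_right₀ (by norm_num) (by omega)
  have e8 : (8 : ℝ) ^ t = 2 ^ t * 4 ^ t := by rw [← mul_pow]; norm_num
  have e4 : (4 : ℝ) ^ t = 2 ^ t * 2 ^ t := by rw [← mul_pow]; norm_num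
  have hG0 : 0 < G := by rw [hG]; positivity
  -- the cost
  have hwY : 8 * c₁ * u ^ 2 ≤ w := by
    have a1 : 8 * c₁ * u ^ 2 ≤ (28 * c₁ + 23) * u ^ 3 := by
      calc 8 * c₁ * u ^ 2 ≤ (28 * c₁ + 23) * u ^ 2 := by
            apply mul_le_mul_of_nonneg_right _ (by positivity); linarith
        _ ≤ (28 * c₁ + 23) * u ^ 3 := by
            apply mul_le_mul_of_nonneg_left hu23; linarith
    linarith
  have hY4 : 4 * Y' ≤ 8 ^ t := by
    calc 4 * Y' ≤ 4 * (2 * c₁ * u ^ 2 * (2 ^ t * Z)) := by linarith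
      _ = (8 * c₁ * u ^ 2) * Z * 2 ^ t := by ring
      _ ≤ w * 2 ^ t * 2 ^ t := by gcongr
      _ ≤ 2 ^ t * 2 ^ t * 2 ^ t := by gcongr
      _ = 8 ^ t := by rw [e8, e4]; ring
  obtain ⟨X, hX⟩ : ∃ X : ℕ, X = ⌊(4 ^ t / G + 1) * Y'⌋₊ := ⟨_, rfl⟩
  obtain ⟨κ, hκ⟩ : ∃ κ : ℕ, κ = ⌊Y'⌋₊ := ⟨_, rfl⟩
  have hκY : (κ : ℝ) ≤ Y' := by rw [hκ]; exact Nat.floor_le hY0
  have hXle : (X : ℝ) ≤ 8 ^ t := by
    have a0 : 0 ≤ (4 ^ t / G + 1) * Y' := by positivity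
    have a1 : (X : ℝ) ≤ (4 ^ t / G + 1) * Y' := by rw [hX]; exact Nat.floor_le a0
    have a2 : 4 ^ t / G * Y' ≤ 8 ^ t / 4 := by
      rw [div_mul_eq_mul_div, div_le_iff₀ hG0, hG, e8]
      calc (4 : ℝ) ^ t * Y' ≤ 4 ^ t * (2 * c₁ * u ^ 2 * (2 ^ t * Z)) := by gcongr
        _ = (8 * c₁ * u ^ 2) * (2 ^ t * 4 ^ t / 4 * Z) := by ring
        _ ≤ w * (2 ^ t * 4 ^ t / 4 * Z) := by gcongr
        _ = _ := by ring
    have a3 : (0 : ℝ) < 8 ^ t := by positivity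
    calc (X : ℝ) ≤ 4 ^ t / G * Y' + Y' := by linarith
      _ ≤ 8 ^ t := by linarith
  obtain ⟨A, hA⟩ : ∃ A : ℝ, A = Af t G Y' := ⟨_, rfl⟩
  have hA0 : 0 ≤ A := by rw [hA]; exact Af_nonneg _ _ _
  rw [← hA, ← hX, ← hκ] at hhs
  obtain ⟨e3, he3⟩ : ∃ e3 : ℝ, e3 = (2 * (t : ℝ) + 1) * Real.exp (-(2 * (2 ^ t * G))) := ⟨_, rfl⟩
  rw [← he3] at hhs
  have he30 : 0 ≤ e3 := by rw [he3]; positivity
  obtain ⟨q, hq⟩ : ∃ q : ℝ, q = (4 * ((8 : ℝ) ^ t + 2)) ^ (2 * 2 ^ t) := ⟨_, rfl⟩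
  rw [← hq] at hhs
  have hq0 : 0 ≤ q := by rw [hq]; positivity
  have h8p : (0 : ℝ) < 8 ^ t := by positivity
  have h81 : (1 : ℝ) ≤ 8 ^ t := one_le_pow₀ (by norm_num)
  have h8e := nat_le_exp t
  have he12 : (12 : ℝ) ≤ Real.exp 3 := by
    have a1 := Real.exp_one_gt_d9
    have e3 : Real.exp 3 = Real.exp 1 ^ 3 := by rw [← Real.exp_nat_mul]; norm_num
    have h5 : (2.7182818283 : ℝ) ^ 3 ≤ Real.exp 1 ^ 3 := by gcongr
    rw [e3]
    exact le_trans (by norm_num) h5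
  have h12 : 12 * (8 : ℝ) ^ t ≤ Real.exp (3 * u) := by
    calc 12 * (8 : ℝ) ^ t ≤ Real.exp 3 * Real.exp (3 * (t : ℝ)) := by gcongr
      _ = Real.exp (3 * u) := by rw [← Real.exp_add, hu]; ring_nf
  -- the bounds of the factors
  have b1 : mu * 8 ^ t ≤ Real.exp (3 * S) := by
    have := mu_le_six
    calc mu * 8 ^ t ≤ 12 * 8 ^ t := by gcongr; linarith
      _ ≤ Real.exp (3 * u) := h12
      _ ≤ Real.exp (3 * S) := Real.exp_le_exp.2 (by linarith)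
  have b2 : q ^ 2 ≤ Real.exp (12 * S) := by
    have a1 : 4 * ((8 : ℝ) ^ t + 2) ≤ Real.exp (3 * u) := by linarith
    calc q ^ 2 = (4 * ((8 : ℝ) ^ t + 2)) ^ (2 * 2 ^ t * 2) := by rw [hq, ← pow_mul]
      _ ≤ Real.exp (3 * u) ^ (2 * 2 ^ t * 2) := by gcongr
      _ = Real.exp (((2 * 2 ^ t * 2 : ℕ) : ℝ) * (3 * u)) := by rw [← Real.exp_nat_mul]
      _ ≤ Real.exp (12 * S) := by
          apply Real.exp_le_exp.2
          push_cast
          have a2 : u * 2 ^ t ≤ S := by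
            refine le_trans ?_ huS
            have : (2 : ℝ) ^ t * 1 ≤ 2 ^ t * Z := by gcongr
            nlinarith
          calc 2 * (2 : ℝ) ^ t * 2 * (3 * u) = 12 * (u * 2 ^ t) := by ring
            _ ≤ 12 * S := by linarith
  have b3 : (X : ℝ) + 1 ≤ Real.exp (3 * S) := by
    calc (X : ℝ) + 1 ≤ 12 * 8 ^ t := by linarith
      _ ≤ Real.exp (3 * u) := h12
      _ ≤ Real.exp (3 * S) := Real.exp_le_exp.2 (by linarith)
  have b4 : A ≤ Real.exp (28 * c₁ * S) := by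
    have hmu6 := mu_le_six
    have hmu0 := mu0
    have hmu2 : mu ^ 2 ≤ Real.exp 4 := by
      have a1 := TH232.S3.exp_four
      nlinarith
    have a1 : 2 * (((8 ^ t : ℕ) : ℝ) + (X : ℝ) + 1) ^ 4 ≤ Real.exp (12 * u) := by
      have a2 : ((8 ^ t : ℕ) : ℝ) = 8 ^ t := by push_cast; rfl
      rw [a2]
      calc 2 * ((8 : ℝ) ^ t + (X : ℝ) + 1) ^ 4 ≤ 2 * (3 * 8 ^ t) ^ 4 := by
            gcongr; linarith
        _ ≤ (12 * 8 ^ t) ^ 4 := by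
            have : (0 : ℝ) < (8 ^ t) ^ 4 := by positivity
            nlinarith
        _ ≤ Real.exp (3 * u) ^ 4 := by gcongr
        _ = Real.exp (12 * u) := by rw [← Real.exp_nat_mul]; ring_nf
    have a3 : A = Real.exp Y' * (2 * (((8 ^ t : ℕ) : ℝ) + (X : ℝ) + 1) ^ 4) ^ κ * mu ^ (2 * κ) := by
      rw [hA, hX, hκ]; rfl
    have hκ0 : (0 : ℝ) ≤ κ := Nat.cast_nonneg κ
    have a4 : A ≤ Real.exp (Y' + κ * (12 * u) + κ * 4) := by
      rw [a3, pow_mul mu 2 κ, Real.exp_add, Real.exp_add, Real.exp_nat_mul, Real.exp_nat_mul]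
      gcongr
    refine a4.trans (Real.exp_le_exp.2 ?_)
    have a5 : Y' + κ * (12 * u) + κ * 4 ≤ Y' * (5 + 12 * u) := by
      have a6 : (κ : ℝ) * (12 * u) ≤ Y' * (12 * u) := by gcongr
      linarith
    refine a5.trans ?_
    have a7 : 5 + 12 * u ≤ 14 * u := by linarith
    calc Y' * (5 + 12 * u) ≤ (2 * c₁ * u ^ 2 * (2 ^ t * Z)) * (14 * u) := by gcongr
      _ = 28 * c₁ * S := by rw [hS]; ring
  have b5 : e3 ≤ Real.exp ((2 - 2 * (28 * c₁ + 23)) * S) := by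
    have a1 : 2 * (t : ℝ) + 1 ≤ Real.exp (2 * S) := by
      have a2 := Real.add_one_le_exp (2 * (t : ℝ))
      refine a2.trans (Real.exp_le_exp.2 ?_)
      linarith
    have a3 : (28 * c₁ + 23) * S ≤ 2 ^ t * G := by
      rw [hS, hG]
      calc (28 * c₁ + 23) * (u ^ 3 * (2 ^ t * Z)) = ((28 * c₁ + 23) * u ^ 3) * (2 ^ t * Z) := by
            ring
        _ ≤ w * (2 ^ t * Z) := by gcongr
        _ = 2 ^ t * (Z * w) := by ring
    rw [he3, sub_mul, sub_eq_add_neg, Real.exp_add]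
    apply mul_le_mul a1 (Real.exp_le_exp.2 (by linarith)) (Real.exp_pos _).le (Real.exp_pos _).le
  by_contra hcon
  push Not at hcon
  obtain ⟨β, hβ⟩ : ∃ β : ℝ, β = Real.exp (-((56 * c₁ + 22) * S)) := ⟨_, rfl⟩
  rw [← hβ] at hcon
  have hβ0 : 0 ≤ β := by rw [hβ]; exact (Real.exp_pos _).le
  have hXn : X ≤ 8 ^ t := by exact_mod_cast hXle
  have hκn : 4 * κ ≤ 8 ^ t := by
    have : 4 * (κ : ℝ) ≤ 8 ^ t := by linarith
    exact_mod_cast this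
  have hfin := prod_cmp (t := t) (A := A) (e3 := e3) (q := q) (β := β) (X := X) (s := 2 * κ)
    hA0 he30 hq0 hβ0 hhs (fun j hj => (hcon _ (by omega) (by omega)).le)
  have f1 : (mu * 8 ^ t) * (q ^ 2 * (A ^ 2 * (((X : ℝ) + 1) ^ 2 * β))) ≤ Real.exp (-S) := by
    have hmu0 := mu0
    calc (mu * 8 ^ t) * (q ^ 2 * (A ^ 2 * (((X : ℝ) + 1) ^ 2 * β)))
        ≤ Real.exp (3 * S) * (Real.exp (12 * S) * (Real.exp (28 * c₁ * S) ^ 2 *
          (Real.exp (3 * S) ^ 2 * β))) := by gcongr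
      _ = Real.exp (-S) := by
          rw [hβ, ← Real.exp_nat_mul, ← Real.exp_nat_mul, ← Real.exp_add, ← Real.exp_add,
            ← Real.exp_add, ← Real.exp_add]
          congr 1
          push_cast
          ring
  have f2 : (mu * 8 ^ t) * (q ^ 2 * (e3 * (2 * (A * ((X : ℝ) + 1)) + e3))) ≤ Real.exp (-S) := by
    have hmu0 := mu0
    have he31 : e3 ≤ Real.exp (28 * c₁ * S) * Real.exp (3 * S) := by
      rw [← Real.exp_add]
      refine b5.trans (Real.exp_le_exp.2 ?_)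
      nlinarith [mul_nonneg hc0.le (by linarith : (0 : ℝ) ≤ S)]
    have he2 : (3 : ℝ) ≤ Real.exp (2 * S) := by
      have := Real.add_one_le_exp (2 * S)
      linarith
    calc (mu * 8 ^ t) * (q ^ 2 * (e3 * (2 * (A * ((X : ℝ) + 1)) + e3)))
        ≤ Real.exp (3 * S) * (Real.exp (12 * S) * (Real.exp ((2 - 2 * (28 * c₁ + 23)) * S) *
          (2 * (Real.exp (28 * c₁ * S) * Real.exp (3 * S)) +
            Real.exp (28 * c₁ * S) * Real.exp (3 * S)))) := by gcongr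
      _ = Real.exp (3 * S) * (Real.exp (12 * S) * (Real.exp ((2 - 2 * (28 * c₁ + 23)) * S) *
          (3 * (Real.exp (28 * c₁ * S) * Real.exp (3 * S))))) := by ring
      _ ≤ Real.exp (3 * S) * (Real.exp (12 * S) * (Real.exp ((2 - 2 * (28 * c₁ + 23)) * S) *
          (Real.exp (2 * S) * (Real.exp (28 * c₁ * S) * Real.exp (3 * S))))) := by gcongr
      _ = Real.exp ((22 + 28 * c₁ - 2 * (28 * c₁ + 23)) * S) := by
          rw [← Real.exp_add, ← Real.exp_add, ← Real.exp_add, ← Real.exp_add, ← Real.exp_add]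
          congr 1
          ring
      _ ≤ Real.exp (-S) := by
          apply Real.exp_le_exp.2
          nlinarith [mul_nonneg hc0.le (by linarith : (0 : ℝ) ≤ S)]
  have f3 : Real.exp (-S) < 1 / 2 := by
    rw [Real.exp_neg, inv_lt_comm₀ (Real.exp_pos _) (by norm_num)]
    have := Real.add_one_le_exp S
    norm_num
    linarith
  have f4 : (mu * 8 ^ t) * (q ^ 2 * (A ^ 2 * (((X : ℝ) + 1) ^ 2 * β) +
      e3 * (2 * (A * ((X : ℝ) + 1)) + e3))) =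
      (mu * 8 ^ t) * (q ^ 2 * (A ^ 2 * (((X : ℝ) + 1) ^ 2 * β))) +
      (mu * 8 ^ t) * (q ^ 2 * (e3 * (2 * (A * ((X : ℝ) + 1)) + e3))) := by ring
  rw [f4] at hfin
  linarith

end Pool.Agent.K3h14.SW
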