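import Mathlib

/-!
The recursion of Hammersley and Welsh with few exceptional (short and tall) bridges: real sequences.
-/

set_option autoImplicit false

namespace Pool.Agent.K3h14.SW

open Finset

/-- The recursion.  `t k` is the normalised number of tall bridges of length `k`, `δ` the sum of those
with `k < Lb`; `W` the main term. -/
theorem rec_abs {N Lb : ℕ} (hLb : 1 ≤ Lb) {t l h W : ℕ → ℝ} {q δ M : ℝ}
    (ht0 : ∀ k, 0 ≤ t k) (ht1 : ∀ k, t k ≤ 1) (htz : t 0 = 0)
    (hδ : ∑ k ∈ range Lb, t k ≤ δ) (hh0 : ∀ n, 0 ≤ h n) (hW0 : ∀ n, 0 ≤ W n) (hM0 : 0 ≤ M)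
    (hrec : ∀ n ≤ N, h n ≤ l n + ∑ k ∈ range (n + 1), t k * h (n - k))
    (hl : ∀ n ≤ N, l n ≤ W n) (hW : ∀ k n, k ≤ n → n ≤ N → t k * W (n - k) ≤ W n)
    (hM : ∀ n ≤ N, h n ≤ M) (hq : 4 * ((N : ℝ) + 2) ≤ q) :
    ∀ P n : ℕ, n ≤ N → h n ≤ q ^ (n / Lb) * (q ^ P * W n + (2 * δ) ^ (P + 1) * M) := by
  have hN0 : (0 : ℝ) ≤ N := Nat.cast_nonneg N
  have hq8 : 8 ≤ q := by linarith
  have hq1 : 1 ≤ q := by linarith
  have hq0 : 0 < q := by linarith
  have hδ0 : 0 ≤ δ := (Finset.sum_nonneg fun k _ => ht0 k).trans hδ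
  -- one step of the induction
  have step : ∀ (P n : ℕ), n ≤ N → ∀ (Z e : ℝ), 0 ≤ e → (Z = 0 ∨ Z = q ^ (n / Lb) * q ^ P / q) →
      (∀ k, 1 ≤ k → k ≤ n → Lb ≤ k →
        h (n - k) ≤ q ^ ((n - k) / Lb) * (q ^ P * W (n - k) + (2 * δ) ^ (P + 1) * M)) →
      (∀ k, 1 ≤ k → k ≤ n → k < Lb → h (n - k) * t k ≤ Z * W n + t k * e) →
      h n ≤ W n + (N + 1) * ((q ^ (n / Lb) * q ^ P / q - (if n < Lb then q ^ P / q else 0)) * W n +
        q ^ (n / Lb) / q * ((2 * δ) ^ (P + 1) * M)) + (N + 1) * (Z * W n) + δ * e := by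
    intro P n hn Z e he hZ hlong hshort
    have hWn := hW0 n
    have hE0 : 0 ≤ (2 * δ) ^ (P + 1) * M := by positivity
    have hZ0 : 0 ≤ Z := by
      rcases hZ with h | h
      · rw [h]
      · rw [h]; positivity
    have hA0 : 0 ≤ q ^ (n / Lb) * q ^ P / q - (if n < Lb then q ^ P / q else 0) := by
      split_ifs with h1
      · rw [Nat.div_eq_of_lt h1, pow_zero, one_mul, sub_self]
      · rw [sub_zero]; positivity
    have key : ∀ k ∈ range (n + 1), t k * h (n - k) ≤
        ((q ^ (n / Lb) * q ^ P / q - (if n < Lb then q ^ P / q else 0)) * W n +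
          q ^ (n / Lb) / q * ((2 * δ) ^ (P + 1) * M)) + Z * W n +
          (if k < Lb then t k else 0) * e := by
      intro k hk
      have hk' : k ≤ n := Nat.lt_succ_iff.mp (mem_range.mp hk)
      have hB0 : 0 ≤ q ^ (n / Lb) / q * ((2 * δ) ^ (P + 1) * M) := by positivity
      rcases Nat.eq_zero_or_pos k with rfl | hk0
      · rw [htz, zero_mul]
        have : (0 : ℝ) ≤ (if 0 < Lb then (0 : ℝ) else 0) * e := by simp
        have h2 : 0 ≤ Z * W n := mul_nonneg hZ0 hWn
        have h3 := mul_nonneg hA0 hWn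
        linarith
      · rcases lt_or_ge k Lb with hkL | hkL
        · have h1 := hshort k hk0 hk' hkL
          rw [if_pos hkL]
          have h3 := mul_nonneg hA0 hWn
          linarith [mul_comm (h (n - k)) (t k)]
        · have h1 := hlong k hk0 hk' hkL
          have hnL : ¬ n < Lb := by omega
          rw [if_neg hnL, if_neg (by omega : ¬ k < Lb), sub_zero, zero_mul, add_zero]
          have h7 : (n - k) / Lb + 1 ≤ n / Lb := by
            have h8 : (n - k) / Lb ≤ (n - Lb) / Lb := Nat.div_le_div_right (by omega)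
            have h9 : (n - Lb) / Lb + 1 = n / Lb := by
              rw [← Nat.add_div_right _ (by omega)]
              congr 1
              omega
            omega
          have h6 : q ^ ((n - k) / Lb) ≤ q ^ (n / Lb) / q := by
            rw [le_div_iff₀ hq0, ← pow_succ]
            exact pow_le_pow_right₀ hq1 h7
          have h2 := hW k n hk' hn
          have h3 : t k * (q ^ P * W (n - k) + (2 * δ) ^ (P + 1) * M) ≤
              q ^ P * W n + (2 * δ) ^ (P + 1) * M := by
            have a1 : q ^ P * (t k * W (n - k)) ≤ q ^ P * W n :=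
              mul_le_mul_of_nonneg_left h2 (by positivity)
            have a2 : t k * ((2 * δ) ^ (P + 1) * M) ≤ 1 * ((2 * δ) ^ (P + 1) * M) :=
              mul_le_mul_of_nonneg_right (ht1 k) hE0
            calc t k * (q ^ P * W (n - k) + (2 * δ) ^ (P + 1) * M)
                = q ^ P * (t k * W (n - k)) + t k * ((2 * δ) ^ (P + 1) * M) := by ring
              _ ≤ _ := by linarith
          have hZW : 0 ≤ Z * W n := mul_nonneg hZ0 hWn
          calc t k * h (n - k) ≤ t k * (q ^ ((n - k) / Lb) *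
                (q ^ P * W (n - k) + (2 * δ) ^ (P + 1) * M)) :=
                mul_le_mul_of_nonneg_left h1 (ht0 k)
            _ = q ^ ((n - k) / Lb) * (t k * (q ^ P * W (n - k) + (2 * δ) ^ (P + 1) * M)) := by ring
            _ ≤ q ^ ((n - k) / Lb) * (q ^ P * W n + (2 * δ) ^ (P + 1) * M) :=
                mul_le_mul_of_nonneg_left h3 (by positivity)
            _ ≤ q ^ (n / Lb) / q * (q ^ P * W n + (2 * δ) ^ (P + 1) * M) := by
                apply mul_le_mul_of_nonneg_right h6
                positivity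
            _ = q ^ (n / Lb) * q ^ P / q * W n + q ^ (n / Lb) / q * ((2 * δ) ^ (P + 1) * M) := by
                ring
            _ ≤ _ := by linarith
    have h1 := hrec n hn
    have h2 := Finset.sum_le_sum key
    rw [Finset.sum_add_distrib, Finset.sum_const, card_range, nsmul_eq_mul,
      ← Finset.sum_mul] at h2
    have h3 : ∑ k ∈ range (n + 1), (if k < Lb then t k else 0) ≤ δ := by
      refine le_trans ?_ hδ
      rw [← Finset.sum_filter]
      refine Finset.sum_le_sum_of_subset_of_nonneg ?_ fun k _ _ => ht0 k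
      intro k hk
      rw [mem_filter] at hk
      exact mem_range.2 hk.2
    have h4 := mul_le_mul_of_nonneg_right h3 he
    have h5 := hl n hn
    have h6 : ((n + 1 : ℕ) : ℝ) ≤ N + 1 := by exact_mod_cast (by omega : n + 1 ≤ N + 1)
    have h7 : 0 ≤ ((q ^ (n / Lb) * q ^ P / q - (if n < Lb then q ^ P / q else 0)) * W n +
          q ^ (n / Lb) / q * ((2 * δ) ^ (P + 1) * M)) + Z * W n := by
      have a1 := mul_nonneg hA0 hWn
      have a2 := mul_nonneg hZ0 hWn
      have a3 : 0 ≤ q ^ (n / Lb) / q * ((2 * δ) ^ (P + 1) * M) := by positivity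
      linarith
    have h8 := mul_le_mul_of_nonneg_right h6 h7
    calc h n ≤ l n + ∑ k ∈ range (n + 1), t k * h (n - k) := h1
      _ ≤ W n + ((N + 1) * (((q ^ (n / Lb) * q ^ P / q -
            (if n < Lb then q ^ P / q else 0)) * W n +
          q ^ (n / Lb) / q * ((2 * δ) ^ (P + 1) * M)) + Z * W n) + δ * e) := by linarith
      _ = _ := by ring
  have hNq : ((N : ℝ) + 1) / q ≤ 1 / 4 := by
    rw [div_le_iff₀ hq0]; linarith
  intro P
  induction P with
  | zero =>
    intro n
    induction n using Nat.strong_induction_on with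
    | _ n ih =>
      intro hn
      have h1 := step 0 n hn 0 M hM0 (Or.inl rfl)
        (fun k hk0 hkn _ => ih (n - k) (by omega) (by omega))
        (fun k hk0 hkn hkL => by
          have := mul_le_mul_of_nonneg_right (hM (n - k) (by omega)) (ht0 k)
          linarith [mul_comm M (t k)])
      rw [zero_mul, mul_zero, add_zero, pow_zero, mul_one, zero_add, pow_one] at h1
      rw [pow_zero, one_mul, zero_add, pow_one]
      have hWn := hW0 n
      have hδM : 0 ≤ δ * M := mul_nonneg hδ0 hM0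
      rcases lt_or_ge n Lb with hnL | hnL
      · rw [if_pos hnL, Nat.div_eq_of_lt hnL, pow_zero, sub_self, zero_mul, zero_add] at h1
        rw [Nat.div_eq_of_lt hnL, pow_zero, one_mul]
        have h2 : ((N : ℝ) + 1) * (1 / q * (2 * δ * M)) = ((N : ℝ) + 1) / q * (2 * (δ * M)) := by
          ring
        rw [h2] at h1
        have h3 : ((N : ℝ) + 1) / q * (2 * (δ * M)) ≤ 1 / 4 * (2 * (δ * M)) :=
          mul_le_mul_of_nonneg_right hNq (by linarith)
        linarith
      · rw [if_neg (by omega), sub_zero] at h1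
        have hn1 : 1 ≤ n / Lb := (Nat.one_le_div_iff (by omega)).2 hnL
        obtain ⟨Q0, hQ0⟩ : ∃ Q0 : ℝ, Q0 = q ^ (n / Lb) := ⟨_, rfl⟩
        have hQ8 : 8 ≤ Q0 := by
          rw [hQ0]
          exact hq8.trans (le_self_pow₀ hq1 (by omega))
        rw [← hQ0] at h1 ⊢
        have h2 : ((N : ℝ) + 1) * (Q0 / q * W n + Q0 / q * (2 * δ * M)) =
            ((N : ℝ) + 1) / q * (Q0 * (W n + 2 * (δ * M))) := by ring
        rw [h2] at h1
        have h3 : ((N : ℝ) + 1) / q * (Q0 * (W n + 2 * (δ * M))) ≤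
            1 / 4 * (Q0 * (W n + 2 * (δ * M))) :=
          mul_le_mul_of_nonneg_right hNq (by positivity)
        have h4 : 8 * (W n + 2 * (δ * M)) ≤ Q0 * (W n + 2 * (δ * M)) :=
          mul_le_mul_of_nonneg_right hQ8 (by positivity)
        have h5 : Q0 * (W n + 2 * δ * M) = Q0 * (W n + 2 * (δ * M)) := by ring
        rw [h5]
        linarith
  | succ P ihP =>
    intro n
    induction n using Nat.strong_induction_on with
    | _ n ih =>
      intro hn
      obtain ⟨Q0, hQ0⟩ : ∃ Q0 : ℝ, Q0 = q ^ (n / Lb) := ⟨_, rfl⟩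
      have hQ1 : 1 ≤ Q0 := by rw [hQ0]; exact one_le_pow₀ hq1
      have h1 := step (P + 1) n hn (q ^ (n / Lb) * q ^ (P + 1) / q)
        (q ^ (n / Lb) * ((2 * δ) ^ (P + 1) * M)) (by positivity) (Or.inr rfl)
        (fun k hk0 hkn _ => ih (n - k) (by omega) (by omega))
        (fun k hk0 hkn hkL => by
          have a1 := ihP (n - k) (by omega)
          have a2 : q ^ ((n - k) / Lb) ≤ q ^ (n / Lb) :=
            pow_le_pow_right₀ hq1 (Nat.div_le_div_right (Nat.sub_le _ _))
          have a3 := hW k n hkn hn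
          have a4 : q ^ (n / Lb) * q ^ (P + 1) / q = q ^ (n / Lb) * q ^ P := by
            rw [pow_succ]; field_simp
          rw [a4]
          have a5 : 0 ≤ (2 * δ) ^ (P + 1) * M := by positivity
          have a6 : 0 ≤ q ^ P * W (n - k) + (2 * δ) ^ (P + 1) * M := by
            have := hW0 (n - k)
            positivity
          calc h (n - k) * t k ≤ (q ^ ((n - k) / Lb) *
                (q ^ P * W (n - k) + (2 * δ) ^ (P + 1) * M)) * t k :=
                mul_le_mul_of_nonneg_right a1 (ht0 k)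
            _ ≤ (q ^ (n / Lb) * (q ^ P * W (n - k) + (2 * δ) ^ (P + 1) * M)) * t k :=
                mul_le_mul_of_nonneg_right (mul_le_mul_of_nonneg_right a2 a6) (ht0 k)
            _ = q ^ (n / Lb) * q ^ P * (t k * W (n - k)) +
                t k * (q ^ (n / Lb) * ((2 * δ) ^ (P + 1) * M)) := by ring
            _ ≤ q ^ (n / Lb) * q ^ P * W n +
                t k * (q ^ (n / Lb) * ((2 * δ) ^ (P + 1) * M)) := by
                have := mul_le_mul_of_nonneg_left a3
                  (show 0 ≤ q ^ (n / Lb) * q ^ P by positivity)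
                linarith)
      have hWn := hW0 n
      rw [← hQ0] at h1 ⊢
      obtain ⟨Z, hZ⟩ : ∃ Z : ℝ, Z = Q0 * q ^ (P + 1) := ⟨_, rfl⟩
      have hZ8 : 8 ≤ Z := by
        rw [hZ]
        have a1 : 8 ≤ q ^ (P + 1) := hq8.trans (le_self_pow₀ hq1 (by omega))
        nlinarith
      obtain ⟨e, he⟩ : ∃ e : ℝ, e = Q0 * ((2 * δ) ^ (P + 1) * M) := ⟨_, rfl⟩
      have he0 : 0 ≤ e := by rw [he]; positivity
      have h2 : (2 * δ) ^ (P + 1 + 1) * M * Q0 = 2 * (δ * e) := by rw [he]; ring
      have h3 : Q0 * (q ^ (P + 1) * W n + (2 * δ) ^ (P + 1 + 1) * M) = Z * W n + 2 * (δ * e) := by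
        rw [hZ, ← h2]; ring
      rw [h3]
      have h4 : (Z / q - (if n < Lb then q ^ (P + 1) / q else 0)) * W n ≤ Z / q * W n := by
        apply mul_le_mul_of_nonneg_right _ hWn
        split_ifs
        · have : 0 ≤ q ^ (P + 1) / q := by positivity
          linarith
        · linarith
      have h5 : Q0 / q * ((2 * δ) ^ (P + 1 + 1) * M) = 2 * (δ * e) / q := by
        rw [← h2]; ring
      rw [← hZ, ← he, h5] at h1
      have hN1 : (0 : ℝ) ≤ (N : ℝ) + 1 := by linarith
      have h6 : ((N : ℝ) + 1) * ((Z / q - (if n < Lb then q ^ (P + 1) / q else 0)) * W n +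
          2 * (δ * e) / q) ≤ ((N : ℝ) + 1) * (Z / q * W n + 2 * (δ * e) / q) :=
        mul_le_mul_of_nonneg_left (by linarith) hN1
      have h7 : ((N : ℝ) + 1) * (Z / q * W n + 2 * (δ * e) / q) + ((N : ℝ) + 1) * (Z / q * W n) =
          ((N : ℝ) + 1) / q * (2 * (Z * W n) + 2 * (δ * e)) := by ring
      have hZW : 0 ≤ Z * W n := by positivity
      have hde : 0 ≤ δ * e := mul_nonneg hδ0 he0
      have h8 : ((N : ℝ) + 1) / q * (2 * (Z * W n) + 2 * (δ * e)) ≤
          1 / 4 * (2 * (Z * W n) + 2 * (δ * e)) :=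
        mul_le_mul_of_nonneg_right hNq (by linarith)
      have h9 : 8 * W n ≤ Z * W n := mul_le_mul_of_nonneg_right hZ8 hWn
      linarith

end Pool.Agent.K3h14.SW
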