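import Pool.Agent.K3h14.SW.Data2
import Pool.Agent.K3h14.SW.Cmp
import Pool.Agent.K3h14.SW.RecA
import Pool.Agent.TH232.S3.Iter

/-!
Self-avoiding walks on `ℤ³`: at the scale `8^t`, half-space walks are compared with bridges.
-/

set_option autoImplicit false

namespace Pool.Agent.K3h14.SW

open Finset Pool.Agent.H46R2.K3 Pool.Agent.H46R2.K3.P Pool.Agent.W325.S3

theorem lad2_all : S_LAD2 :=
  lad2 W320.S3.Fast.fast W320.S3.ext (W287.S3.Blk1.blk1 W320.S3.ext) W924.S3.blk2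

/-- the scale function used at the scale `t` -/
noncomputable def gz (Z : ℝ) (l : ℕ) : ℝ := max (Z * 2 ^ ((l + 2) / 3)) (TH232.S3.g l)

theorem gz_mono1 {Z : ℝ} (hZ : 0 ≤ Z) (l : ℕ) : gz Z l ≤ gz Z (l + 1) := by
  unfold gz
  apply max_le_max
  · apply mul_le_mul_of_nonneg_left _ hZ
    exact pow_le_pow_right₀ (by norm_num) (by omega)
  · exact TH232.S3.g_mono1 l

theorem g_le_gz (Z : ℝ) (l : ℕ) : TH232.S3.g l ≤ gz Z l := le_max_right _ _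

theorem gz_succ {Z : ℝ} (hZ : 0 ≤ Z) (l : ℕ) : gz Z (l + 1) ≤ ((2 : ℕ) : ℝ) * gz Z l := by
  have h3 : Z * 2 ^ ((l + 2) / 3) ≤ gz Z l := le_max_left _ _
  have h4 := g_le_gz Z l
  apply max_le
  · have h1 : (2 : ℝ) ^ ((l + 1 + 2) / 3) ≤ 2 * 2 ^ ((l + 2) / 3) := by
      rw [← pow_succ']
      exact pow_le_pow_right₀ (by norm_num) (by omega)
    push_cast
    calc Z * 2 ^ ((l + 1 + 2) / 3) ≤ Z * (2 * 2 ^ ((l + 2) / 3)) := mul_le_mul_of_nonneg_left h1 hZ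
      _ = 2 * (Z * 2 ^ ((l + 2) / 3)) := by ring
      _ ≤ 2 * gz Z l := by linarith
  · refine (TH232.S3.g_succ l).trans ?_
    exact mul_le_mul_of_nonneg_left h4 (by positivity)

theorem gz_eq {t l : ℕ} (hl : l ≤ 3 * t) :
    gz (TH232.S3.Pm t) l = TH232.S3.Pm t * 2 ^ ((l + 2) / 3) := by
  unfold gz
  apply max_eq_left
  have := TH232.S3.g_le_Pm (l := l) (s := t) (by omega)
  linarith [mul_comm (TH232.S3.Pm t) (2 ^ ((l + 2) / 3))]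

/-- half-space walks of small height, at the scale `8^t` -/
theorem half_cmp {t : ℕ} (ht : 1 ≤ t) {Z G : ℝ} (hZ : Z = TH232.S3.Pm t)
    (hG : G = Z * 2 ^ ((2 * t + 2) / 3)) :
    ∃ (ρ : ℕ) (Y' : ℝ), 0 ≤ Y' ∧ Y' ≤ 2 * TH232.S3.c₁ * ((t : ℝ) + 1) ^ 2 * (2 ^ t * Z) ∧
      (∀ k ≤ 4 ^ t, (bge k (ρ + 1) : ℝ) ≤ mu ^ k * Real.exp (-(4 * G))) ∧
      ∀ n ≤ 8 ^ t, (hle n ρ : ℝ) / mu ^ n ≤ ((2 * t : ℕ) : ℝ) * Real.exp (-(7 * (2 ^ t * G))) +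
        Real.exp Y' * (2 * (((8 ^ t : ℕ) : ℝ) + (⌊(4 ^ t / G + 1) * Y'⌋₊ : ℕ) + 1) ^ 4) ^ ⌊Y'⌋₊ *
          mu ^ (2 * ⌊Y'⌋₊) * Vs ⌊(4 ^ t / G + 1) * Y'⌋₊ (2 * ⌊Y'⌋₊) n := by
  have hZ1 : 1 ≤ Z := by rw [hZ]; exact TH232.S3.one_le_Pm t
  have hZ0 : 0 ≤ Z := by linarith
  have hmu0 := mu0
  have hg0 : ∀ l, 1 ≤ gz Z l := fun l => by
    have h1 := TH232.S3.g_four l
    have h2 := g_le_gz Z l
    linarith
  have hge : ∀ l ≤ 3 * t, gz Z l = Z * 2 ^ ((l + 2) / 3) := fun l hl => by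
    rw [hZ]; exact gz_eq hl
  have h2t : (2 : ℝ) ≤ 2 ^ t := le_self_pow₀ (by norm_num) (by omega)
  obtain ⟨E, r, hh, len, B, R, F, Y, hLad, hbad, hlen, hR1, hRm, hRF, hEF, hrR, hrF,
    htap, havg, havF, hY, hbge⟩ := data2 lad2_all (Q := 2) (g := gz Z) le_rfl (gz_mono1 hZ0)
      (hg0 0) (gz_succ hZ0)
      (fun l => (TH232.S3.g_base1 l).trans (Real.exp_le_exp.2 (g_le_gz Z l)))
      (fun l => (TH232.S3.g_base2 l).trans (Real.exp_le_exp.2 (g_le_gz Z l)))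
      (fun l k hk => (TH232.S3.c_le_g l k hk).trans
        (mul_le_mul_of_nonneg_left (Real.exp_le_exp.2 (g_le_gz Z l)) (by positivity)))
      (M := 3 * t + 1) (I := 2 * t) (by omega) (by omega) (Y₁ := 2 * 2 ^ t * Z)
      (by nlinarith) (by
        intro l hl
        rw [hge l (by omega)]
        have h3 : (2 : ℝ) ^ ((l + 2) / 3) ≤ 2 ^ t := pow_le_pow_right₀ (by norm_num) (by omega)
        have h4 : 0 ≤ 2 ^ t * Z := by positivity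
        calc Z * 2 ^ ((l + 2) / 3) ≤ Z * 2 ^ t := by gcongr
          _ ≤ 2 * 2 ^ t * Z := by linarith) (by
        intro l hl
        rw [hge l (by omega)]
        push_cast
        calc (2 : ℝ) ^ (3 * t + 1 - l) * (Z * 2 ^ ((l + 2) / 3)) ^ 3
            = 2 ^ (3 * t + 1 - l + 3 * ((l + 2) / 3)) * Z ^ 3 := by
              rw [pow_add, mul_pow, ← pow_mul, mul_comm 3 ((l + 2) / 3)]; ring
          _ ≤ 2 ^ (3 * t + 3) * Z ^ 3 := by
              apply mul_le_mul_of_nonneg_right _ (by positivity)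
              exact pow_le_pow_right₀ (by norm_num) (by omega)
          _ = (2 * 2 ^ t * Z) ^ 3 := by rw [pow_add, mul_comm 3 t, pow_mul]; ring)
  have hGe : gz Z (2 * t) = G := by rw [hge _ (by omega), hG]
  have hG1 : 1 ≤ G := by rw [← hGe]; exact hg0 _
  have hCst := st_Cst
  have hYe : Y = Cst * 16 * (2 * 2 ^ t * Z) := by rw [hY]; push_cast; norm_num
  have h4t : ((2 : ℕ) : ℝ) ^ (2 * t) = 4 ^ t := by rw [pow_mul]; norm_num
  have hY0 : 0 ≤ Y := by rw [hYe]; positivity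
  rw [hGe, h4t] at hlen
  rw [hGe, show 2 ^ (2 * t) = 4 ^ t by rw [pow_mul]; norm_num] at hbge
  refine ⟨E (2 * t), 14 * (((2 * t : ℕ) : ℝ) + 1) ^ 2 * Y, by positivity, ?_, hbge, ?_⟩
  · rw [hYe]
    push_cast
    have ht0 : (0 : ℝ) ≤ t := Nat.cast_nonneg t
    have h2 : (2 * (t : ℝ) + 1) ^ 2 ≤ (2 * ((t : ℝ) + 1)) ^ 2 := by gcongr; linarith
    calc 14 * (2 * (t : ℝ) + 1) ^ 2 * (Cst * 16 * (2 * 2 ^ t * Z))
        ≤ 14 * (2 * ((t : ℝ) + 1)) ^ 2 * (Cst * 16 * (2 * 2 ^ t * Z)) := by gcongr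
      _ = 2 * TH232.S3.c₁ * ((t : ℝ) + 1) ^ 2 * (2 ^ t * Z) := by unfold TH232.S3.c₁; ring
  · intro n hn
    have e8 : 2 ^ (3 * t) = 8 ^ t := by rw [pow_mul]; norm_num
    refine hle_cmp (Q := 2) (I := 2 * t) (N := 8 ^ t) (N' := 2 ^ (3 * t + 1) + 1) (g := gz Z)
      (by rw [pow_succ, e8]; omega) (by omega) hLad hbad (Λ := 4 ^ t / G + 1) (by positivity) hlen
      hR1 hRm hRF hEF hrR hrF htap havg havF (D := 7 * (2 ^ t * G)) ?_ rfl rfl rfl n hn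
    intro l hl1 hl2 m hm
    have hx : m / 2 ^ l ≤ 2 ^ (3 * t - l) := by
      apply Nat.div_le_of_le_mul
      rw [← pow_add, show l + (3 * t - l) = 3 * t by omega, e8]
      exact hm
    have hx2 : 2 * 2 ^ (3 * t - l) ≤ (2 ^ (3 * t + 1) + 1) / 2 ^ l := by
      rw [Nat.le_div_iff_mul_le (by positivity)]
      calc 2 * 2 ^ (3 * t - l) * 2 ^ l = 2 * (2 ^ (3 * t - l) * 2 ^ l) := by ring
        _ = 2 * 2 ^ (3 * t) := by rw [← pow_add, Nat.sub_add_cancel (by omega)]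
        _ ≤ 2 ^ (3 * t + 1) + 1 := by rw [pow_succ]; omega
    have hx' : ((m / 2 ^ l : ℕ) : ℝ) ≤ 2 ^ (3 * t - l) := by exact_mod_cast hx
    have hx2' : (2 : ℝ) * 2 ^ (3 * t - l) ≤ (((2 ^ (3 * t + 1) + 1) / 2 ^ l : ℕ) : ℝ) := by
      exact_mod_cast hx2
    have hgl := hg0 l
    have hkey : 2 ^ t * G ≤ gz Z l * 2 ^ (3 * t - l) := by
      rw [hge l (by omega), hG]
      calc 2 ^ t * (Z * 2 ^ ((2 * t + 2) / 3)) = Z * 2 ^ (t + (2 * t + 2) / 3) := by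
            rw [pow_add]; ring
        _ ≤ Z * 2 ^ ((l + 2) / 3 + (3 * t - l)) := by
            apply mul_le_mul_of_nonneg_left _ hZ0
            exact pow_le_pow_right₀ (by norm_num) (by omega)
        _ = Z * 2 ^ ((l + 2) / 3) * 2 ^ (3 * t - l) := by rw [pow_add]; ring
    have h5 : 5 * ((m / 2 ^ l : ℕ) : ℝ) + 1 -
        3 * ((2 * ((2 ^ (3 * t + 1) + 1) / 2 ^ l) + 2 : ℕ) : ℝ) ≤ -(7 * 2 ^ (3 * t - l)) := by
      push_cast at hx2' ⊢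
      linarith
    calc gz Z l * (5 * ((m / 2 ^ l : ℕ) : ℝ) + 1 -
        3 * ((2 * ((2 ^ (3 * t + 1) + 1) / 2 ^ l) + 2 : ℕ) : ℝ))
        ≤ gz Z l * -(7 * 2 ^ (3 * t - l)) := mul_le_mul_of_nonneg_left h5 (by linarith)
      _ = -(7 * (gz Z l * 2 ^ (3 * t - l))) := by ring
      _ ≤ -(7 * (2 ^ t * G)) := by linarith

end Pool.Agent.K3h14.SW
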