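import Pool.Agent.H46R2.K3.Basic
import Pool.Agent.H46R2.K3.UNF

/-!
Self-avoiding walks on `ℤ³`: insertion of a bridge at the last highest point, with a reflection of
the rest: `c_n b_m ≤ (n + 1) c_(n+m)`.
-/

set_option autoImplicit false

namespace Pool.Agent.K3h14.SW

open Finset Pool.Agent.H46R2.K3 Pool.Agent.H46R2.K3.P

theorem saw_append_top {u v : List St} (hu : Saw u) (hv : Saw v)
    (h1 : ∀ i ≤ u.length, pos u i 0 ≤ disp u 0)
    (h2 : ∀ i, 1 ≤ i → i ≤ v.length → 0 < pos v i 0) : Saw (u ++ v) := by
  intro i j hij hj
  rw [List.length_append] at hj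
  rcases Nat.lt_or_ge u.length j with hju | hju
  · have e1 : pos (u ++ v) j = disp u + pos v (j - u.length) := pos_append_right' v hju.le
    rcases Nat.lt_or_ge u.length i with hiu | hiu
    · rw [e1, pos_append_right' v hiu.le]
      intro h
      exact hv (i - u.length) (j - u.length) (by omega) (by omega) (add_left_cancel h)
    · rw [e1, pos_append_left v hiu]
      intro h
      have h3 := congrFun h 0
      rw [Pi.add_apply] at h3
      have h4 := h1 i hiu
      have h5 := h2 (j - u.length) (by omega) (by omega)
      omega
  · rw [pos_append_left v hju, pos_append_left v (by omega)]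
    exact hu i j hij hju

/-- the last index of the maximal height -/
theorem exists_top (w : List St) : ∃ k ≤ w.length, (∀ i ≤ w.length, pos w i 0 ≤ pos w k 0) ∧
    ∀ i, k < i → i ≤ w.length → pos w i 0 < pos w k 0 := by
  obtain ⟨k, hk, h1, h2⟩ := unf_last_max (fun i => pos w i 0) w.length
  exact ⟨k, hk, h1, fun i hi1 hi2 => h2 i hi2 hi1⟩

theorem ins_saw {w β : List St} {k : ℕ} (hw : Saw w) (hβ : Br β) (hk : k ≤ w.length)
    (h1 : ∀ i ≤ w.length, pos w i 0 ≤ pos w k 0)
    (h2 : ∀ i, k < i → i ≤ w.length → pos w i 0 < pos w k 0) :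
    Saw ((w.take k ++ β) ++ (w.drop k).map flip0) := by
  have hlt : (w.take k).length = k := by rw [List.length_take]; omega
  have ht : Saw (w.take k ++ β) := by
    apply saw_append_top (saw_take hw k) hβ.1
    · intro i hi
      rw [hlt] at hi
      rw [pos_take hi, disp_take]
      exact h1 i (by omega)
    · intro i hi1 hi2
      exact (hβ.2 i hi1 hi2).1
  apply saw_append_top ht (saw_map_flip0 (saw_drop hw k))
  · intro i hi
    rw [disp_append, disp_take, Pi.add_apply]
    rcases Nat.lt_or_ge (w.take k).length i with hik | hik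
    · rw [pos_append_right' β hik.le, disp_take, Pi.add_apply]
      rw [List.length_append] at hi
      have := (hβ.2 (i - (w.take k).length) (by omega) (by omega)).2
      linarith
    · rw [pos_append_left β hik]
      rw [hlt] at hik
      rw [pos_take hik]
      have h3 := h1 i (by omega)
      have h4 := disp_nonneg_of_br hβ
      linarith
  · intro i hi1 hi2
    rw [List.length_map, List.length_drop] at hi2
    rw [pos_map_flip0, if_pos rfl, pos_drop w hk, Pi.sub_apply]
    have h3 := h2 (k + i) (by omega) (by omega)
    linarith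

/-- **Insertion.** -/
theorem c_mul_b_le (n m : ℕ) : c n * b m ≤ (n + 1) * c (n + m) := by
  classical
  choose k hk h1 h2 using exists_top
  have hcard : #((((W n).filter Saw) ×ˢ ((W m).filter Br)).image
      (fun p => (k p.1, (p.1.take (k p.1) ++ p.2) ++ (p.1.drop (k p.1)).map flip0))) =
      c n * b m := by
    rw [card_image_of_injOn, card_product]
    · rfl
    · rintro ⟨w, β⟩ hp ⟨w', β'⟩ hp' he
      rw [Finset.mem_coe, mem_product, mem_filter, mem_filter, mem_W, mem_W] at hp hp'
      simp only [Prod.mk.injEq] at he
      obtain ⟨e1, e2⟩ := he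
      obtain ⟨⟨hw, _⟩, hβ, _⟩ := hp
      obtain ⟨⟨hw', _⟩, hβ', _⟩ := hp'
      simp only at hw hw' hβ hβ'
      have hkw := hk w
      have hkw' := hk w'
      rw [List.append_assoc, List.append_assoc] at e2
      have e3 := List.append_inj e2 (by rw [List.length_take, List.length_take]; omega)
      have e4 := List.append_inj e3.2 (by omega)
      have e5 : w.drop (k w) = w'.drop (k w') := by
        have := congrArg (List.map flip0) e4.2
        rwa [map_flip0_flip0, map_flip0_flip0] at this
      have e6 : w = w' := by
        rw [← List.take_append_drop (k w) w, ← List.take_append_drop (k w') w', e3.1, e5]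
      rw [e6, e4.1]
  have hsub : (((W n).filter Saw) ×ˢ ((W m).filter Br)).image
      (fun p => (k p.1, (p.1.take (k p.1) ++ p.2) ++ (p.1.drop (k p.1)).map flip0)) ⊆
      (range (n + 1)) ×ˢ ((W (n + m)).filter Saw) := by
    intro x hx
    rw [mem_image] at hx
    obtain ⟨⟨w, β⟩, hp, rfl⟩ := hx
    rw [mem_product, mem_filter, mem_filter, mem_W, mem_W] at hp
    obtain ⟨⟨hw, hs⟩, hβ, hbr⟩ := hp
    simp only at hw hs hβ hbr
    have hkw := hk w
    rw [mem_product, mem_range, mem_filter, mem_W]
    refine ⟨by simp only; omega, ?_, ins_saw hs hbr (hk w) (h1 w) (h2 w)⟩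
    simp only [List.length_append, List.length_take, List.length_map, List.length_drop]
    omega
  have h := card_le_card hsub
  rw [hcard, card_product, card_range] at h
  exact h

end Pool.Agent.K3h14.SW
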