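import Pool.Agent.K3h14.SW.All
import Pool.Agent.K3h14.SW.Ins
import Pool.Agent.TH966.KO.Rates

/-!
Self-avoiding walks on `ℤ³`: `c_(n+m) / c_n` and `μ^m` differ at most by the factor
`exp (K m^(1/3) exp (K (log log m)^2))`, uniformly in `n`.
-/

set_option autoImplicit false

namespace Pool.Agent.K3h14.SW

open Finset Pool.Agent.H46R2.K3 Pool.Agent.H46R2.K3.P Filter

/-- the modulus -/
noncomputable def fK (K : ℝ) (m : ℕ) : ℝ :=
  K * (m : ℝ) ^ (1 / 3 : ℝ) * Real.exp (K * Real.log (Real.log m) ^ 2)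

theorem fK_mono {K K' : ℝ} (hK : 0 ≤ K) (h : K ≤ K') (m : ℕ) : fK K m ≤ fK K' m := by
  have hK' : 0 ≤ K' := hK.trans h
  unfold fK
  gcongr

theorem fK_add {K K' : ℝ} (hK : 0 ≤ K) (hK' : 0 ≤ K') (m : ℕ) :
    fK K m + fK K' m ≤ fK (K + K') m := by
  obtain ⟨x, hx⟩ : ∃ x : ℝ, x = Real.log (Real.log m) ^ 2 := ⟨_, rfl⟩
  have hx0 : 0 ≤ x := by rw [hx]; positivity
  unfold fK
  rw [← hx]
  have h1 : Real.exp (K * x) ≤ Real.exp ((K + K') * x) := Real.exp_le_exp.2 (by nlinarith)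
  have h2 : Real.exp (K' * x) ≤ Real.exp ((K + K') * x) := Real.exp_le_exp.2 (by nlinarith)
  calc K * (m : ℝ) ^ (1 / 3 : ℝ) * Real.exp (K * x) + K' * (m : ℝ) ^ (1 / 3 : ℝ) *
        Real.exp (K' * x)
      ≤ K * (m : ℝ) ^ (1 / 3 : ℝ) * Real.exp ((K + K') * x) + K' * (m : ℝ) ^ (1 / 3 : ℝ) *
        Real.exp ((K + K') * x) := by gcongr
    _ = _ := by ring

theorem fK_ge {K : ℝ} (hK : 0 ≤ K) {m : ℕ} : K * (m : ℝ) ^ (1 / 3 : ℝ) ≤ fK K m := by
  unfold fK
  have h1 : 1 ≤ Real.exp (K * Real.log (Real.log m) ^ 2) := Real.one_le_exp (by positivity)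
  exact le_mul_of_one_le_right (by positivity) h1

theorem fK_ge' {K : ℝ} (hK : 0 ≤ K) {m : ℕ} (hm : 1 ≤ m) : K ≤ fK K m := by
  refine le_trans ?_ (fK_ge hK)
  have h1 : (1 : ℝ) ≤ (m : ℝ) ^ (1 / 3 : ℝ) :=
    Real.one_le_rpow (by exact_mod_cast hm) (by norm_num)
  exact le_mul_of_one_le_right hK h1

/-- many steps, by Kesten's ratio theorem -/
theorem steps : ∃ N : ℕ, ∀ n ≥ N, ∀ j : ℕ, (2 * (j : ℝ) ≤ Real.log ((n : ℝ) + 1) ^ 3 + 1) →
    mu ^ (2 * j) * (c n : ℝ) / 2 ≤ c (n + 2 * j) := by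
  obtain ⟨K, hK⟩ := TH966.KO.rates (1 / 12) (by norm_num)
  have hmu0 := mu0
  have hmu1 := one_le_mu
  obtain ⟨K', hK'⟩ : ∃ K' : ℝ, K' = max K 1 := ⟨_, rfl⟩
  have hK1 : 1 ≤ K' := by rw [hK']; exact le_max_right _ _
  have hKK : K ≤ K' := by rw [hK']; exact le_max_left _ _
  have hlim : Tendsto (fun n : ℕ => ((24 : ℝ) ^ 3 + 1) * 2 * K' * (n : ℝ) ^ (-(1 / 8 : ℝ))) atTop
      (nhds (((24 : ℝ) ^ 3 + 1) * 2 * K' * 0)) :=
    ((tendsto_rpow_neg_atTop (by norm_num : (0 : ℝ) < 1 / 8)).comp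
      tendsto_natCast_atTop_atTop).const_mul _
  rw [mul_zero] at hlim
  have hev : ∀ᶠ n : ℕ in atTop, ((24 : ℝ) ^ 3 + 1) * 2 * K' * (n : ℝ) ^ (-(1 / 8 : ℝ)) < 1 :=
    hlim.eventually_lt_const (by norm_num)
  obtain ⟨N₁, hN₁⟩ := eventually_atTop.1 (hK.and (hev.and (eventually_ge_atTop 1)))
  refine ⟨N₁, fun n hn j hj => ?_⟩
  obtain ⟨x, hx⟩ : ∃ x : ℝ, x = K' * (n : ℝ) ^ (-(1 / 4 : ℝ)) := ⟨_, rfl⟩
  have hn1 : 1 ≤ n := (hN₁ n hn).2.2
  have hnR : (1 : ℝ) ≤ n := by exact_mod_cast hn1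
  have hx0 : 0 ≤ x := by rw [hx]; positivity
  have hcpos : ∀ k, (0 : ℝ) < c k := fun k => by
    have := mu_one_le_cR k
    linarith
  -- one step
  have step : ∀ k ≥ n, mu ^ 2 * (1 - x) * (c k : ℝ) ≤ c (k + 2) := by
    intro k hk
    have h1 := (hN₁ k (by omega)).1.1
    have h2 : TH966.KO.μ = mu := rfl
    have h3 : ∀ i, TH966.KO.c i = c i := fun _ => rfl
    rw [h2, h3, h3] at h1
    have hkR : (n : ℝ) ≤ k := by exact_mod_cast hk
    have h4 : (k : ℝ) ^ (-(1 / 3 : ℝ) + 1 / 12) ≤ (n : ℝ) ^ (-(1 / 4 : ℝ)) := by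
      rw [show -(1 / 3 : ℝ) + 1 / 12 = -(1 / 4) by norm_num]
      exact Real.rpow_le_rpow_of_nonpos (by linarith) hkR (by norm_num)
    have h5 : K * (k : ℝ) ^ (-(1 / 3 : ℝ) + 1 / 12) ≤ x := by
      rw [hx]
      have : (0 : ℝ) ≤ (k : ℝ) ^ (-(1 / 3 : ℝ) + 1 / 12) := by positivity
      calc K * (k : ℝ) ^ (-(1 / 3 : ℝ) + 1 / 12) ≤ K' * (k : ℝ) ^ (-(1 / 3 : ℝ) + 1 / 12) := by
            gcongr
        _ ≤ K' * (n : ℝ) ^ (-(1 / 4 : ℝ)) := by gcongr
    have h6 : mu ^ 2 - x ≤ (c (k + 2) : ℝ) / c k := by linarith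
    rw [le_div_iff₀ (hcpos k)] at h6
    refine le_trans ?_ h6
    apply mul_le_mul_of_nonneg_right _ (hcpos k).le
    have h7 : 1 ≤ mu ^ 2 := one_le_pow₀ hmu1
    nlinarith
  -- the condition
  have hjx : (j : ℝ) * x ≤ 1 / 2 := by
    have h1 := (hN₁ n hn).2.1
    have h2 : Real.log ((n : ℝ) + 1) ≤ 24 * ((n : ℝ) + 1) ^ (1 / 24 : ℝ) := by
      have := Real.log_le_rpow_div (x := (n : ℝ) + 1) (ε := 1 / 24) (by positivity) (by norm_num)
      linarith
    have h0 : 0 ≤ Real.log ((n : ℝ) + 1) := Real.log_nonneg (by linarith)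
    have h3 : Real.log ((n : ℝ) + 1) ^ 3 ≤ 24 ^ 3 * ((n : ℝ) + 1) ^ (1 / 8 : ℝ) := by
      calc Real.log ((n : ℝ) + 1) ^ 3 ≤ (24 * ((n : ℝ) + 1) ^ (1 / 24 : ℝ)) ^ 3 := by gcongr
        _ = 24 ^ 3 * ((n : ℝ) + 1) ^ (1 / 8 : ℝ) := by
            rw [mul_pow, ← Real.rpow_natCast (((n : ℝ) + 1) ^ (1 / 24 : ℝ)) 3,
              ← Real.rpow_mul (by positivity)]
            norm_num
    have h4 : ((n : ℝ) + 1) ^ (1 / 8 : ℝ) ≤ 2 * (n : ℝ) ^ (1 / 8 : ℝ) := by
      calc ((n : ℝ) + 1) ^ (1 / 8 : ℝ) ≤ (2 * (n : ℝ)) ^ (1 / 8 : ℝ) :=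
            Real.rpow_le_rpow (by positivity) (by linarith) (by norm_num)
        _ = 2 ^ (1 / 8 : ℝ) * (n : ℝ) ^ (1 / 8 : ℝ) := Real.mul_rpow (by norm_num) (by linarith)
        _ ≤ 2 * (n : ℝ) ^ (1 / 8 : ℝ) := by
            apply mul_le_mul_of_nonneg_right _ (by positivity)
            calc (2 : ℝ) ^ (1 / 8 : ℝ) ≤ 2 ^ (1 : ℝ) :=
                  Real.rpow_le_rpow_of_exponent_le (by norm_num) (by norm_num)
              _ = 2 := Real.rpow_one _
    have h5 : (1 : ℝ) ≤ (n : ℝ) ^ (1 / 8 : ℝ) := Real.one_le_rpow hnR (by norm_num)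
    have h6 : 2 * (j : ℝ) ≤ (24 ^ 3 + 1) * 2 * (n : ℝ) ^ (1 / 8 : ℝ) := by
      have : (24 : ℝ) ^ 3 * ((n : ℝ) + 1) ^ (1 / 8 : ℝ) ≤ 24 ^ 3 * (2 * (n : ℝ) ^ (1 / 8 : ℝ)) := by
        gcongr
      linarith
    have h7 : (n : ℝ) ^ (1 / 8 : ℝ) * (n : ℝ) ^ (-(1 / 4 : ℝ)) = (n : ℝ) ^ (-(1 / 8 : ℝ)) := by
      rw [← Real.rpow_add (by linarith)]
      norm_num
    have h8 : 2 * (j : ℝ) * x ≤ (24 ^ 3 + 1) * 2 * K' * (n : ℝ) ^ (-(1 / 8 : ℝ)) := by
      calc 2 * (j : ℝ) * x ≤ ((24 ^ 3 + 1) * 2 * (n : ℝ) ^ (1 / 8 : ℝ)) * x :=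
            mul_le_mul_of_nonneg_right h6 hx0
        _ = (24 ^ 3 + 1) * 2 * K' * ((n : ℝ) ^ (1 / 8 : ℝ) * (n : ℝ) ^ (-(1 / 4 : ℝ))) := by
            rw [hx]; ring
        _ = _ := by rw [h7]
    linarith
  -- iteration
  have iter : ∀ i ≤ j, mu ^ (2 * i) * (c n : ℝ) * (1 - (i : ℝ) * x) ≤ c (n + 2 * i) := by
    intro i
    induction i with
    | zero => intro _; simp
    | succ i ih =>
      intro hi
      have h1 := ih (by omega)
      have h2 := step (n + 2 * i) (by omega)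
      have hiR : ((i + 1 : ℕ) : ℝ) ≤ j := by exact_mod_cast hi
      have h3 : ((i + 1 : ℕ) : ℝ) * x ≤ 1 / 2 :=
        (mul_le_mul_of_nonneg_right hiR hx0).trans hjx
      push_cast at h3
      have hix : 0 ≤ (i : ℝ) * x := by positivity
      have h4 : 0 ≤ 1 - x := by linarith
      have h5 : (1 - ((i + 1 : ℕ) : ℝ) * x) ≤ (1 - x) * (1 - (i : ℝ) * x) := by
        push_cast
        nlinarith [mul_nonneg hx0 hix]
      have h6 : mu ^ (2 * (i + 1)) = mu ^ 2 * mu ^ (2 * i) := by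
        rw [← pow_add]; congr 1; ring
      have hc0 := (hcpos n).le
      calc mu ^ (2 * (i + 1)) * (c n : ℝ) * (1 - ((i + 1 : ℕ) : ℝ) * x)
          ≤ mu ^ (2 * (i + 1)) * (c n : ℝ) * ((1 - x) * (1 - (i : ℝ) * x)) := by gcongr
        _ = mu ^ 2 * (1 - x) * (mu ^ (2 * i) * (c n : ℝ) * (1 - (i : ℝ) * x)) := by rw [h6]; ring
        _ ≤ mu ^ 2 * (1 - x) * (c (n + 2 * i) : ℝ) := by gcongr
        _ ≤ c (n + 2 * i + 2) := h2
        _ = c (n + 2 * (i + 1)) := by congr 2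
  have h := iter j le_rfl
  have hc0 := (hcpos n).le
  calc mu ^ (2 * j) * (c n : ℝ) / 2 = mu ^ (2 * j) * (c n : ℝ) * (1 / 2) := by ring
    _ ≤ mu ^ (2 * j) * (c n : ℝ) * (1 - (j : ℝ) * x) := by
        gcongr
        linarith
    _ ≤ _ := h

/-- **The modulus of continuity.** -/
theorem holder : ∃ K : ℝ, 0 < K ∧ ∀ n m : ℕ, 3 ≤ m →
    (c n : ℝ) * mu ^ m * Real.exp (-(fK K m)) ≤ c (n + m) ∧
    (c (n + m) : ℝ) ≤ c n * mu ^ m * Real.exp (fK K m) := by
  obtain ⟨K₁, hK₁⟩ := TH232.S3.c_bound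
  obtain ⟨K₂, hK₂0, hK₂⟩ := hb_bound
  obtain ⟨N, hN⟩ := steps
  obtain ⟨K, hK⟩ : ∃ K : ℝ, K = max K₁ 0 + K₂ + 1 + 3 + 2 * N := ⟨_, rfl⟩
  have hm0 : 0 ≤ max K₁ 0 := le_max_right _ _
  have hm1 : K₁ ≤ max K₁ 0 := le_max_left _ _
  have hN0 : (0 : ℝ) ≤ N := Nat.cast_nonneg N
  have hK0 : 0 < K := by rw [hK]; linarith
  have hmu0 := mu0
  have hmu1 := one_le_mu
  have hcpos : ∀ k, (0 : ℝ) < c k := fun k => by
    have := mu_one_le_cR k
    linarith
  refine ⟨K, hK0, fun n m hm => ⟨?_, ?_⟩⟩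
  · have hmR : (3 : ℝ) ≤ m := by exact_mod_cast hm
    have hfK := fK_ge' hK0.le (m := m) (by omega)
    rcases Nat.lt_or_ge n N with hnN | hnN
    · -- small n
      have h1 := mu_pow_le (n + m)
      refine le_trans ?_ h1
      have h2 : (c n : ℝ) ≤ 6 ^ n := by exact_mod_cast mu_c_le n
      have h3 : (6 : ℝ) ^ n ≤ Real.exp (fK K m) := by
        have h4 : (6 : ℝ) ≤ Real.exp 2 := by
          have h4 := Real.exp_one_gt_d9
          have : Real.exp 2 = Real.exp 1 * Real.exp 1 := by rw [← Real.exp_add]; norm_num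
          rw [this]; nlinarith
        calc (6 : ℝ) ^ n ≤ Real.exp 2 ^ n := by gcongr
          _ = Real.exp (n * 2) := by rw [← Real.exp_nat_mul]
          _ ≤ Real.exp (fK K m) := by
              apply Real.exp_le_exp.2
              have h5 : (n : ℝ) ≤ N := by exact_mod_cast hnN.le
              linarith
      have h5 : (c n : ℝ) * Real.exp (-(fK K m)) ≤ 1 := by
        rw [Real.exp_neg, ← div_eq_mul_inv, div_le_one (Real.exp_pos _)]
        exact h2.trans h3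
      have h6 : (1 : ℝ) ≤ mu ^ n := one_le_pow₀ hmu1
      calc (c n : ℝ) * mu ^ m * Real.exp (-(fK K m)) =
            ((c n : ℝ) * Real.exp (-(fK K m))) * mu ^ m := by ring
        _ ≤ 1 * mu ^ m := by gcongr
        _ ≤ mu ^ n * mu ^ m := by gcongr
        _ = mu ^ (n + m) := by rw [pow_add]
    · rcases le_or_gt (m : ℝ) (Real.log ((n : ℝ) + 1) ^ 3) with hmn | hmn
      · -- small m
        obtain ⟨j, hj⟩ : ∃ j, j = (m + 1) / 2 := ⟨_, rfl⟩
        have hj2 : 2 * j ≤ m + 1 := by omega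
        have hj2R : 2 * (j : ℝ) ≤ (m : ℝ) + 1 := by exact_mod_cast hj2
        have h1 := hN n hnN j (by linarith)
        have h2 : mu ^ m * (c n : ℝ) / 12 ≤ c (n + m) := by
          rcases Nat.even_or_odd' m with ⟨k, hk | hk⟩
          · have hjk : 2 * j = m := by omega
            rw [hjk] at h1
            have : 0 ≤ mu ^ m * (c n : ℝ) := by positivity
            linarith
          · have hjk : 2 * j = m + 1 := by omega
            rw [hjk] at h1
            have h3 : (c (n + (m + 1)) : ℝ) ≤ c (n + m) * 6 := by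
              have h4 := mu_c_add (n + m) 1
              have h5 := mu_c_le 1
              have h6 : c (n + m + 1) ≤ c (n + m) * 6 :=
                h4.trans (Nat.mul_le_mul_left _ (by simpa using h5))
              exact_mod_cast h6
            have h7 : mu ^ m * (c n : ℝ) ≤ mu ^ (m + 1) * (c n : ℝ) := by
              apply mul_le_mul_of_nonneg_right _ (hcpos n).le
              exact pow_le_pow_right₀ hmu1 (by omega)
            linarith
        refine le_trans ?_ h2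
        have h3 : Real.exp (-(fK K m)) ≤ 1 / 12 := by
          rw [Real.exp_neg, ← one_div]
          apply one_div_le_one_div_of_le (by norm_num)
          have h4 : (12 : ℝ) ≤ Real.exp 3 := by
            have a1 := Real.exp_one_gt_d9
            have e3 : Real.exp 3 = Real.exp 1 ^ 3 := by rw [← Real.exp_nat_mul]; norm_num
            have h5 : (2.7182818283 : ℝ) ^ 3 ≤ Real.exp 1 ^ 3 := by gcongr
            rw [e3]
            exact le_trans (by norm_num) h5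
          exact h4.trans (Real.exp_le_exp.2 (by linarith))
        calc (c n : ℝ) * mu ^ m * Real.exp (-(fK K m)) ≤ (c n : ℝ) * mu ^ m * (1 / 12) := by gcongr
          _ = _ := by ring
      · -- large m
        have h1 : (c n : ℝ) * b m ≤ ((n : ℝ) + 1) * c (n + m) := by exact_mod_cast c_mul_b_le n m
        have h2 := hK₂ m hm
        unfold hb at h2
        rw [le_div_iff₀ (pow_pos hmu0 m)] at h2
        have hl0 : 0 ≤ Real.log ((n : ℝ) + 1) := Real.log_nonneg (by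
          have : (0 : ℝ) ≤ n := Nat.cast_nonneg n
          linarith)
        have h3 : (n : ℝ) + 1 ≤ Real.exp (fK 1 m) := by
          have hn0 : (0 : ℝ) < (n : ℝ) + 1 := by positivity
          rw [← Real.log_le_iff_le_exp hn0]
          refine le_trans ?_ (fK_ge zero_le_one)
          rw [one_mul]
          have h4 : Real.log ((n : ℝ) + 1) = (Real.log ((n : ℝ) + 1) ^ 3) ^ (1 / 3 : ℝ) := by
            rw [← Real.rpow_natCast (Real.log ((n : ℝ) + 1)) 3, ← Real.rpow_mul hl0]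
            norm_num
          rw [h4]
          exact Real.rpow_le_rpow (by positivity) hmn.le (by norm_num)
        have h4 : fK K₂ m + fK 1 m ≤ fK K m :=
          (fK_add hK₂0.le zero_le_one m).trans (fK_mono (by linarith) (by rw [hK]; linarith) m)
        have h5 : Real.exp (-(fK K₂ m)) = Real.exp (-(K₂ * (m : ℝ) ^ (1 / 3 : ℝ) *
            Real.exp (K₂ * Real.log (Real.log m) ^ 2))) := rfl
        rw [← h5] at h2
        have h6 : ((n : ℝ) + 1) * ((c n : ℝ) * mu ^ m * Real.exp (-(fK K m))) ≤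
            ((n : ℝ) + 1) * c (n + m) := by
          refine le_trans ?_ h1
          calc ((n : ℝ) + 1) * ((c n : ℝ) * mu ^ m * Real.exp (-(fK K m)))
              ≤ Real.exp (fK 1 m) * ((c n : ℝ) * mu ^ m * Real.exp (-(fK K m))) := by gcongr
            _ = (c n : ℝ) * (Real.exp (fK 1 m + -(fK K m)) * mu ^ m) := by rw [Real.exp_add]; ring
            _ ≤ (c n : ℝ) * (Real.exp (-(fK K₂ m)) * mu ^ m) := by
                gcongr
                linarith
            _ ≤ (c n : ℝ) * b m := by gcongr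
        exact le_of_mul_le_mul_left h6 (by positivity)
  · have h1 : (c (n + m) : ℝ) ≤ c n * c m := by exact_mod_cast mu_c_add n m
    have h2 : (c m : ℝ) ≤ mu ^ m * Real.exp (fK K m) := by
      refine (hK₁ m hm).trans ?_
      apply mul_le_mul_of_nonneg_left _ (by positivity)
      apply Real.exp_le_exp.2
      have h3 : fK (max K₁ 0) m ≤ fK K m := fK_mono hm0 (by rw [hK]; linarith) m
      refine le_trans ?_ h3
      unfold fK
      gcongr
    calc (c (n + m) : ℝ) ≤ c n * c m := h1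
      _ ≤ c n * (mu ^ m * Real.exp (fK K m)) := by gcongr
      _ = _ := by ring

end Pool.Agent.K3h14.SW
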