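import Pool.Agent.K3h14.SW.Rat

/-!
Self-avoiding walks on `ℤ³`: the modulus of continuity of `log c_n - n log μ` at all scales.
-/

set_option autoImplicit false

namespace Pool.Agent.K3h14.SW

open Finset Pool.Agent.H46R2.K3 Pool.Agent.H46R2.K3.P Filter

/-- `log (c_n / μ^n)` -/
noncomputable def hh (n : ℕ) : ℝ := Real.log (c n) - n * Real.log mu

theorem c_pos (n : ℕ) : (0 : ℝ) < c n := by
  have := mu_one_le_cR n
  linarith

theorem hh_hol : ∃ K : ℝ, 1 ≤ K ∧ ∀ n m : ℕ, 3 ≤ m → |hh (n + m) - hh n| ≤ fK K m := by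
  obtain ⟨K, hK0, hK⟩ := holder
  have hmu0 := mu0
  refine ⟨K + 1, by linarith, fun n m hm => ?_⟩
  refine le_trans ?_ (fK_mono hK0.le (by linarith) m)
  obtain ⟨h1, h2⟩ := hK n m hm
  have hn := c_pos n
  have hnm := c_pos (n + m)
  have e1 : Real.log ((c n : ℝ) * mu ^ m * Real.exp (-(fK K m))) =
      Real.log (c n) + m * Real.log mu - fK K m := by
    rw [Real.log_mul (by positivity) (Real.exp_pos _).ne', Real.log_exp,
      Real.log_mul hn.ne' (by positivity), Real.log_pow]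
    ring
  have e2 : Real.log ((c n : ℝ) * mu ^ m * Real.exp (fK K m)) =
      Real.log (c n) + m * Real.log mu + fK K m := by
    rw [Real.log_mul (by positivity) (Real.exp_pos _).ne', Real.log_exp,
      Real.log_mul hn.ne' (by positivity), Real.log_pow]
  have h3 := Real.log_le_log (by positivity) h1
  have h4 := Real.log_le_log hnm h2
  rw [e1] at h3
  rw [e2] at h4
  unfold hh
  rw [abs_le]
  push_cast
  constructor <;> linarith

theorem hh_kes : ∃ D : ℝ, ∃ N : ℕ, 1 ≤ D ∧ 1 ≤ N ∧ ∀ n ≥ N,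
    hh (n + 2) - hh n - D / n ≤ hh (n + 4) - hh (n + 2) := by
  obtain ⟨D, hD0, hD⟩ := TH966.KO.kesten
  obtain ⟨N, hN⟩ := eventually_atTop.1 hD
  refine ⟨D + 1, N + 1, by linarith, by omega, fun n hn => ?_⟩
  have h := hN n (by omega)
  have h3 : ∀ i, TH966.KO.c i = c i := fun _ => rfl
  rw [h3, h3, h3] at h
  have hn0 : (0 : ℝ) < n := by exact_mod_cast (by omega : 0 < n)
  have h1 := Real.log_le_log (pow_pos (c_pos (n + 2)) 2) h
  have hDn : 0 ≤ D / n := by positivity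
  rw [Real.log_pow, Real.log_mul (mul_pos (c_pos n) (c_pos (n + 4))).ne' (by positivity),
    Real.log_mul (c_pos n).ne' (c_pos (n + 4)).ne'] at h1
  have h2 : Real.log (1 + D / n) ≤ D / n := by
    have := Real.log_le_sub_one_of_pos (show 0 < 1 + D / (n : ℝ) by positivity)
    linarith
  have h4 : D / n ≤ (D + 1) / n := by gcongr; linarith
  unfold hh
  push_cast at h1 ⊢
  linarith

theorem hh_small : ∃ N : ℕ, ∀ n ≥ N, |hh (n + 2) - hh n| ≤ 1 := by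
  obtain ⟨K, hK⟩ := TH966.KO.rates (1 / 12) (by norm_num)
  have hmu1 := one_le_mu
  have hmu0 := mu0
  obtain ⟨K', hK'⟩ : ∃ K' : ℝ, K' = |K| + 1 := ⟨_, rfl⟩
  have hlim : Tendsto (fun n : ℕ => K' * (n : ℝ) ^ (-(1 / 4 : ℝ))) atTop (nhds (K' * 0)) :=
    ((tendsto_rpow_neg_atTop (by norm_num : (0 : ℝ) < 1 / 4)).comp
      tendsto_natCast_atTop_atTop).const_mul _
  rw [mul_zero] at hlim
  have hev : ∀ᶠ n : ℕ in atTop, K' * (n : ℝ) ^ (-(1 / 4 : ℝ)) < 1 / 2 :=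
    hlim.eventually_lt_const (by norm_num)
  obtain ⟨N, hN⟩ := eventually_atTop.1 (hK.and (hev.and (eventually_ge_atTop 1)))
  refine ⟨N, fun n hn => ?_⟩
  obtain ⟨⟨h1, h2⟩, h3, h4⟩ := hN n hn
  have hnR : (1 : ℝ) ≤ n := by exact_mod_cast h4
  have e1 : TH966.KO.μ = mu := rfl
  have e2 : ∀ i, TH966.KO.c i = c i := fun _ => rfl
  rw [e1, e2, e2] at h1 h2
  have h5 : (n : ℝ) ^ (-(2 / 5 : ℝ) + 1 / 12) ≤ (n : ℝ) ^ (-(1 / 4 : ℝ)) :=
    Real.rpow_le_rpow_of_exponent_le hnR (by norm_num)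
  have h6 : (n : ℝ) ^ (-(1 / 3 : ℝ) + 1 / 12) = (n : ℝ) ^ (-(1 / 4 : ℝ)) := by norm_num
  rw [h6] at h1
  have hp : (0 : ℝ) ≤ (n : ℝ) ^ (-(1 / 4 : ℝ)) := by positivity
  have hp2 : (0 : ℝ) ≤ (n : ℝ) ^ (-(2 / 5 : ℝ) + 1 / 12) := by positivity
  have hKa : K ≤ |K| := le_abs_self K
  have h7 : K * (n : ℝ) ^ (-(1 / 4 : ℝ)) ≤ 1 / 2 := by
    calc K * (n : ℝ) ^ (-(1 / 4 : ℝ)) ≤ K' * (n : ℝ) ^ (-(1 / 4 : ℝ)) := by
          apply mul_le_mul_of_nonneg_right _ hp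
          rw [hK']; linarith
      _ ≤ 1 / 2 := h3.le
  have h8 : K * (n : ℝ) ^ (-(2 / 5 : ℝ) + 1 / 12) ≤ 1 / 2 := by
    calc K * (n : ℝ) ^ (-(2 / 5 : ℝ) + 1 / 12) ≤ K' * (n : ℝ) ^ (-(2 / 5 : ℝ) + 1 / 12) := by
          apply mul_le_mul_of_nonneg_right _ hp2
          rw [hK']; linarith
      _ ≤ K' * (n : ℝ) ^ (-(1 / 4 : ℝ)) := by
          apply mul_le_mul_of_nonneg_left h5
          rw [hK']; positivity
      _ ≤ 1 / 2 := h3.le
  have hmu2 : 1 ≤ mu ^ 2 := one_le_pow₀ hmu1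
  have hlo : mu ^ 2 * (1 / 2) ≤ (c (n + 2) : ℝ) / c n := by linarith
  have hhi : (c (n + 2) : ℝ) / c n ≤ mu ^ 2 * 2 := by linarith
  have hcn := c_pos n
  have hcn2 := c_pos (n + 2)
  have l1 := Real.log_le_log (by positivity) hlo
  have l2 := Real.log_le_log (div_pos hcn2 hcn) hhi
  rw [Real.log_div hcn2.ne' hcn.ne'] at l1 l2
  rw [Real.log_mul (by positivity) (by norm_num), Real.log_pow] at l1 l2
  have l3 : Real.log 2 ≤ 1 := by
    have := Real.log_two_lt_d9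
    linarith
  have l4 : -1 ≤ Real.log (1 / 2) := by
    rw [one_div, Real.log_inv]
    linarith
  unfold hh
  rw [abs_le]
  push_cast at l1 l2 ⊢
  constructor <;> linarith

/-- the increments over two steps -/
theorem incr : ∃ C K : ℝ, 1 ≤ C ∧ 1 ≤ K ∧ ∀ n ≥ 3, |hh (n + 2) - hh n| ≤
    C * Real.exp (K * Real.log (Real.log n) ^ 2) * (n : ℝ) ^ (-(2 / 5 : ℝ)) := by
  obtain ⟨K, hK1, hK⟩ := hh_hol
  obtain ⟨D, N₁, hD, hN₁, hkes⟩ := hh_kes
  obtain ⟨N₂, hN₂⟩ := hh_small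
  obtain ⟨N, hN⟩ : ∃ N, N = N₁ + N₂ := ⟨_, rfl⟩
  have hrate := rate_abs (y := hh) (D := D) (K := K) (N := N) hD hK1 (by omega)
    (fun n hn => hkes n (by omega)) (fun n hn => hN₂ n (by omega)) hK
  obtain ⟨M, hM⟩ : ∃ M, M = 2 * N + 3 := ⟨_, rfl⟩
  obtain ⟨B, hB⟩ : ∃ B : ℝ, B = ∑ k ∈ range M, |hh (k + 2) - hh k| := ⟨_, rfl⟩
  have hB0 : 0 ≤ B := by rw [hB]; exact Finset.sum_nonneg fun _ _ => abs_nonneg _
  have hM0 : (0 : ℝ) ≤ M := Nat.cast_nonneg M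
  refine ⟨8 * D * K + B * M, K, by nlinarith, hK1, fun n hn => ?_⟩
  have hnR : (3 : ℝ) ≤ n := by exact_mod_cast hn
  obtain ⟨L, hL⟩ : ∃ L : ℝ, L = Real.exp (K * Real.log (Real.log n) ^ 2) := ⟨_, rfl⟩
  have hL1 : 1 ≤ L := by rw [hL]; exact Real.one_le_exp (by positivity)
  rw [← hL]
  have hp : (0 : ℝ) ≤ (n : ℝ) ^ (-(2 / 5 : ℝ)) := by positivity
  rcases Nat.lt_or_ge n M with h | h
  · have h1 : |hh (n + 2) - hh n| ≤ B := by
      rw [hB]
      exact Finset.single_le_sum (f := fun k => |hh (k + 2) - hh k|)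
        (fun _ _ => abs_nonneg _) (Finset.mem_range.2 h)
    have h2 : 1 ≤ M * (n : ℝ) ^ (-(2 / 5 : ℝ)) := by
      have h3 : (n : ℝ) ≤ M := by exact_mod_cast h.le
      have h4 : (n : ℝ) * (n : ℝ) ^ (-(2 / 5 : ℝ)) = (n : ℝ) ^ (3 / 5 : ℝ) := by
        nth_rw 1 [← Real.rpow_one (n : ℝ)]
        rw [← Real.rpow_add (by linarith)]
        norm_num
      have h5 : (1 : ℝ) ≤ (n : ℝ) ^ (3 / 5 : ℝ) := Real.one_le_rpow (by linarith) (by norm_num)
      calc (1 : ℝ) ≤ (n : ℝ) * (n : ℝ) ^ (-(2 / 5 : ℝ)) := by rw [h4]; exact h5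
        _ ≤ _ := by gcongr
    calc |hh (n + 2) - hh n| ≤ B := h1
      _ = B * 1 := (mul_one B).symm
      _ ≤ B * (M * (n : ℝ) ^ (-(2 / 5 : ℝ))) := by gcongr
      _ = B * M * 1 * (n : ℝ) ^ (-(2 / 5 : ℝ)) := by ring
      _ ≤ (8 * D * K + B * M) * L * (n : ℝ) ^ (-(2 / 5 : ℝ)) := by
          have : 0 ≤ 8 * D * K := by positivity
          gcongr
          linarith
  · have h1 := hrate n (by omega)
    rw [← hL] at h1
    refine h1.trans ?_
    have : 0 ≤ B * M := by positivity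
    gcongr
    linarith

theorem bounded : ∃ B : ℝ, 0 ≤ B ∧ ∀ n m : ℕ, m ≤ 2 → |hh (n + m) - hh n| ≤ B := by
  obtain ⟨K, hK1, hK⟩ := hh_hol
  have h0 : ∀ m, 0 ≤ fK K m := fun m => by unfold fK; positivity
  refine ⟨fK K 3 + fK K 3 + fK K 4 + fK K 5, ?_, fun n m hm => ?_⟩
  · have := h0 3; have := h0 4; have := h0 5
    linarith
  · have h1 := hK (n + m) 3 le_rfl
    have h2 := hK n (m + 3) (by omega)
    rw [← add_assoc] at h2
    have h3 : fK K (m + 3) ≤ fK K 3 + fK K 4 + fK K 5 := by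
      have a3 := h0 3
      have a4 := h0 4
      have a5 := h0 5
      interval_cases m
      · linarith
      · show fK K 4 ≤ _
        linarith
      · show fK K 5 ≤ _
        linarith
    rw [abs_le] at h1 h2 ⊢
    constructor <;> linarith

/-- **The modulus of continuity at all scales.** -/
theorem modulus : ∃ K : ℝ, 0 < K ∧ ∀ n m : ℕ, 3 ≤ n → 1 ≤ m →
    |hh (n + m) - hh n| ≤ K * (((m % 2 : ℕ) : ℝ) +
      min ((m : ℝ) ^ (1 / 3 : ℝ)) ((m : ℝ) * (n : ℝ) ^ (-(2 / 5 : ℝ))) *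
        Real.exp (K * Real.log (Real.log ((n + m : ℕ) : ℝ)) ^ 2)) := by
  obtain ⟨K₁, hK₁1, hK₁⟩ := hh_hol
  obtain ⟨C, K₂, hC, hK₂1, hinc⟩ := incr
  obtain ⟨B, hB0, hB⟩ := bounded
  obtain ⟨K, hK⟩ : ∃ K : ℝ, K = K₁ + K₂ + C + B := ⟨_, rfl⟩
  have hK0 : 0 < K := by linarith
  refine ⟨K, hK0, fun n m hn hm => ?_⟩
  have hnR : (3 : ℝ) ≤ n := by exact_mod_cast hn
  have hmR : (1 : ℝ) ≤ m := by exact_mod_cast hm
  obtain ⟨z, hz⟩ : ∃ z : ℝ, z = Real.log (Real.log ((n + m : ℕ) : ℝ)) ^ 2 := ⟨_, rfl⟩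
  have hz0 : 0 ≤ z := by rw [hz]; positivity
  rw [← hz]
  obtain ⟨E, hE⟩ : ∃ E : ℝ, E = Real.exp (K * z) := ⟨_, rfl⟩
  have hE1 : 1 ≤ E := by rw [hE]; exact Real.one_le_exp (by positivity)
  rw [← hE]
  have hm3 : (1 : ℝ) ≤ (m : ℝ) ^ (1 / 3 : ℝ) := Real.one_le_rpow hmR (by norm_num)
  have hpar : (0 : ℝ) ≤ ((m % 2 : ℕ) : ℝ) := Nat.cast_nonneg _
  -- first bound
  have h1 : |hh (n + m) - hh n| ≤ K * ((m : ℝ) ^ (1 / 3 : ℝ) * E) := by
    rcases Nat.lt_or_ge m 3 with h | h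
    · calc |hh (n + m) - hh n| ≤ B := hB n m (by omega)
        _ ≤ K * 1 := by linarith
        _ ≤ K * ((m : ℝ) ^ (1 / 3 : ℝ) * E) := by
            have : 1 ≤ (m : ℝ) ^ (1 / 3 : ℝ) * E := by nlinarith
            gcongr
    · refine (hK₁ n m h).trans ?_
      refine (fK_le (by linarith) h (Nat.le_add_left m n)).trans ?_
      rw [← hz, hE]
      calc K₁ * (m : ℝ) ^ (1 / 3 : ℝ) * Real.exp (K₁ * z)
          ≤ K * (m : ℝ) ^ (1 / 3 : ℝ) * Real.exp (K * z) := by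
            gcongr <;> linarith
        _ = _ := by ring
  -- second bound
  have hstep : ∀ k, n ≤ k → k ≤ n + m → |hh (k + 2) - hh k| ≤ K * (n : ℝ) ^ (-(2 / 5 : ℝ)) * E := by
    intro k hk1 hk2
    have hkR : (n : ℝ) ≤ k := by exact_mod_cast hk1
    have h2 := hinc k (by omega)
    refine h2.trans ?_
    have l1 := one_le_log (n := k) (by omega)
    have l2 : Real.log (Real.log k) ^ 2 ≤ z := by
      rw [hz]
      have l3 : 0 ≤ Real.log (Real.log k) := Real.log_nonneg l1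
      have l4 : Real.log k ≤ Real.log ((n + m : ℕ) : ℝ) := by
        apply Real.log_le_log (by linarith)
        exact_mod_cast hk2
      have l5 : Real.log (Real.log k) ≤ Real.log (Real.log ((n + m : ℕ) : ℝ)) :=
        Real.log_le_log (by linarith) l4
      gcongr
    have l6 : (k : ℝ) ^ (-(2 / 5 : ℝ)) ≤ (n : ℝ) ^ (-(2 / 5 : ℝ)) :=
      Real.rpow_le_rpow_of_nonpos (by linarith) hkR (by norm_num)
    have l7 : Real.exp (K₂ * Real.log (Real.log k) ^ 2) ≤ E := by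
      rw [hE]
      apply Real.exp_le_exp.2
      have : 0 ≤ Real.log (Real.log k) ^ 2 := by positivity
      nlinarith
    calc C * Real.exp (K₂ * Real.log (Real.log k) ^ 2) * (k : ℝ) ^ (-(2 / 5 : ℝ))
        ≤ K * E * (n : ℝ) ^ (-(2 / 5 : ℝ)) := by
          gcongr
          linarith
      _ = _ := by ring
  have heven : ∀ j, 2 * j ≤ m → |hh (n + 2 * j) - hh n| ≤
      (j : ℝ) * (K * (n : ℝ) ^ (-(2 / 5 : ℝ)) * E) := by
    intro j
    induction j with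
    | zero => intro _; simp
    | succ j ih =>
      intro hj
      have a1 := ih (by omega)
      have a2 := hstep (n + 2 * j) (by omega) (by omega)
      have e : n + 2 * (j + 1) = n + 2 * j + 2 := by ring
      rw [e]
      push_cast
      rw [abs_le] at a1 a2 ⊢
      constructor <;> linarith
  have hpos : 0 ≤ K * (n : ℝ) ^ (-(2 / 5 : ℝ)) * E := by positivity
  have h2 : |hh (n + m) - hh n| ≤ K * (((m % 2 : ℕ) : ℝ) +
      ((m : ℝ) * (n : ℝ) ^ (-(2 / 5 : ℝ))) * E) := by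
    rcases Nat.even_or_odd' m with ⟨j, hj | hj⟩
    · have a1 := heven j (by omega)
      rw [← hj] at a1
      have a2 : (j : ℝ) ≤ m := by exact_mod_cast (by omega : j ≤ m)
      calc |hh (n + m) - hh n| ≤ (j : ℝ) * (K * (n : ℝ) ^ (-(2 / 5 : ℝ)) * E) := a1
        _ ≤ m * (K * (n : ℝ) ^ (-(2 / 5 : ℝ)) * E) := by gcongr
        _ = K * (0 + ((m : ℝ) * (n : ℝ) ^ (-(2 / 5 : ℝ))) * E) := by ring
        _ ≤ _ := by gcongr
    · have a1 := heven j (by omega)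
      have a2 := hB (n + 2 * j) 1 (by omega)
      have e : n + m = n + 2 * j + 1 := by omega
      have a3 : m % 2 = 1 := by omega
      have a4 : (j : ℝ) ≤ m := by exact_mod_cast (by omega : j ≤ m)
      have a5 : (j : ℝ) * (K * (n : ℝ) ^ (-(2 / 5 : ℝ)) * E) ≤
          m * (K * (n : ℝ) ^ (-(2 / 5 : ℝ)) * E) := by gcongr
      have a6 : K * ((1 : ℝ) + ((m : ℝ) * (n : ℝ) ^ (-(2 / 5 : ℝ))) * E) =
          K + m * (K * (n : ℝ) ^ (-(2 / 5 : ℝ)) * E) := by ring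
      rw [a3, Nat.cast_one, a6, e]
      rw [abs_le] at a1 a2 ⊢
      constructor <;> linarith
  rcases le_total ((m : ℝ) ^ (1 / 3 : ℝ)) ((m : ℝ) * (n : ℝ) ^ (-(2 / 5 : ℝ))) with h | h
  · rw [min_eq_left h]
    refine h1.trans ?_
    gcongr
    linarith
  · rw [min_eq_right h]
    exact h2

end Pool.Agent.K3h14.SW
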