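import Pool.Agent.K3h14.SW.Hold

/-!
Self-avoiding walks on `ℤ³`: the modulus of continuity at small distances, from Kesten's inequality.
-/

set_option autoImplicit false

namespace Pool.Agent.K3h14.SW

open Finset Pool.Agent.H46R2.K3 Pool.Agent.H46R2.K3.P Filter

theorem one_le_log {n : ℕ} (h : 3 ≤ n) : 1 ≤ Real.log n := by
  have h5 : Real.log (Real.exp 1) ≤ Real.log n := by
    apply Real.log_le_log (Real.exp_pos 1)
    have := Real.exp_one_lt_d9
    have h3 : (3 : ℝ) ≤ n := by exact_mod_cast h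
    linarith
  rwa [Real.log_exp] at h5

theorem fK_le {K : ℝ} (hK : 0 ≤ K) {m n : ℕ} (hm : 3 ≤ m) (hmn : m ≤ n) :
    fK K m ≤ K * (m : ℝ) ^ (1 / 3 : ℝ) * Real.exp (K * Real.log (Real.log n) ^ 2) := by
  have h1 := one_le_log hm
  have h2 : Real.log m ≤ Real.log n := by
    apply Real.log_le_log
    · have : (3 : ℝ) ≤ m := by exact_mod_cast hm
      linarith
    · exact_mod_cast hmn
  have h3 : 0 ≤ Real.log (Real.log m) := Real.log_nonneg h1
  have h4 : Real.log (Real.log m) ≤ Real.log (Real.log n) := Real.log_le_log (by linarith) h2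
  unfold fK
  gcongr

/-- the numerical lemma -/
theorem num_rate {a D K L n : ℝ} {j : ℕ} (ha : 0 ≤ a) (hD : 1 ≤ D) (hK : 1 ≤ K) (hL : 1 ≤ L)
    (hn : 1 ≤ n) (hj1 : 1 ≤ j) (hj : a * n / (8 * D) ≤ j)
    (h : (j : ℝ) * a / 2 ≤ K * ((2 * j : ℕ) : ℝ) ^ (1 / 3 : ℝ) * L) :
    a ≤ 8 * D * K * L * n ^ (-(2 / 5 : ℝ)) := by
  have hn0 : 0 < n := by linarith
  have hj0 : (1 : ℝ) ≤ j := by exact_mod_cast hj1
  -- cube
  have h1 : ((j : ℝ) * a / 2) ^ 3 ≤ (K * ((2 * j : ℕ) : ℝ) ^ (1 / 3 : ℝ) * L) ^ 3 :=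
    pow_le_pow_left₀ (by positivity) h 3
  have h2 : (K * ((2 * j : ℕ) : ℝ) ^ (1 / 3 : ℝ) * L) ^ 3 = K ^ 3 * (2 * j) * L ^ 3 := by
    rw [mul_pow, mul_pow, ← Real.rpow_natCast (((2 * j : ℕ) : ℝ) ^ (1 / 3 : ℝ)) 3,
      ← Real.rpow_mul (by positivity)]
    norm_num
  rw [h2] at h1
  have h3 : (j : ℝ) ^ 2 * a ^ 3 ≤ 16 * (K ^ 3 * L ^ 3) := by
    have h4 : (j : ℝ) * ((j : ℝ) ^ 2 * a ^ 3) ≤ (j : ℝ) * (16 * (K ^ 3 * L ^ 3)) := by
      nlinarith
    exact le_of_mul_le_mul_left h4 (by linarith)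
  have h5 : (a * n / (8 * D)) ^ 2 ≤ (j : ℝ) ^ 2 := pow_le_pow_left₀ (by positivity) hj 2
  have h6 : a ^ 5 * n ^ 2 ≤ 1024 * D ^ 2 * (K ^ 3 * L ^ 3) := by
    have h7 : (a * n / (8 * D)) ^ 2 * a ^ 3 ≤ 16 * (K ^ 3 * L ^ 3) :=
      (mul_le_mul_of_nonneg_right h5 (by positivity)).trans h3
    have h8 : (a * n / (8 * D)) ^ 2 * a ^ 3 = a ^ 5 * n ^ 2 / (64 * D ^ 2) := by
      field_simp
      ring
    rw [h8, div_le_iff₀ (by positivity)] at h7
    linarith
  have h9 : 1024 * D ^ 2 * (K ^ 3 * L ^ 3) ≤ (8 * D * K * L) ^ 5 := by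
    have e1 : D ^ 2 ≤ D ^ 5 := pow_le_pow_right₀ hD (by norm_num)
    have e2 : K ^ 3 ≤ K ^ 5 := pow_le_pow_right₀ hK (by norm_num)
    have e3 : L ^ 3 ≤ L ^ 5 := pow_le_pow_right₀ hL (by norm_num)
    calc 1024 * D ^ 2 * (K ^ 3 * L ^ 3) ≤ 32768 * D ^ 5 * (K ^ 5 * L ^ 5) := by
          gcongr
          norm_num
      _ = (8 * D * K * L) ^ 5 := by ring
  have h10 : a ^ 5 ≤ (8 * D * K * L * n ^ (-(2 / 5 : ℝ))) ^ 5 := by
    have e : (n ^ (-(2 / 5 : ℝ))) ^ 5 = (n ^ 2)⁻¹ := by
      rw [← Real.rpow_natCast (n ^ (-(2 / 5 : ℝ))) 5, ← Real.rpow_mul hn0.le,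
        ← Real.rpow_natCast n 2, ← Real.rpow_neg hn0.le]
      norm_num
    rw [mul_pow, e, ← div_eq_mul_inv, le_div_iff₀ (by positivity)]
    exact h6.trans h9
  exact le_of_pow_le_pow_left₀ (by norm_num) (by positivity) h10

/-- the rate, for a sequence with a modulus of continuity and almost convex -/
theorem rate_abs {y : ℕ → ℝ} {D K : ℝ} {N : ℕ} (hD : 1 ≤ D) (hK : 1 ≤ K) (hN : 1 ≤ N)
    (hkes : ∀ n ≥ N, y (n + 2) - y n - D / n ≤ y (n + 4) - y (n + 2))
    (hsm : ∀ n ≥ N, |y (n + 2) - y n| ≤ 1)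
    (hhol : ∀ n m : ℕ, 3 ≤ m → |y (n + m) - y n| ≤ fK K m) :
    ∀ n ≥ 2 * N + 3, |y (n + 2) - y n| ≤
      8 * D * K * Real.exp (K * Real.log (Real.log n) ^ 2) * (n : ℝ) ^ (-(2 / 5 : ℝ)) := by
  intro n hn
  have hnN : N ≤ n := by omega
  have hn3 : 3 ≤ n := by omega
  have hnR : (3 : ℝ) ≤ n := by exact_mod_cast hn3
  have hn0 : (0 : ℝ) < n := by linarith
  obtain ⟨L, hL⟩ : ∃ L : ℝ, L = Real.exp (K * Real.log (Real.log n) ^ 2) := ⟨_, rfl⟩
  have hL1 : 1 ≤ L := by rw [hL]; exact Real.one_le_exp (by positivity)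
  rw [← hL]
  have hsmall : ∀ a : ℝ, a * n / (8 * D) ≤ 1 → a ≤ 8 * D * K * L * (n : ℝ) ^ (-(2 / 5 : ℝ)) := by
    intro a ha
    rw [div_le_one (by positivity)] at ha
    have h1 : a ≤ 8 * D * (n : ℝ) ^ (-1 : ℝ) := by
      rw [Real.rpow_neg_one, ← div_eq_mul_inv, le_div_iff₀ hn0]
      exact ha
    refine h1.trans ?_
    have h2 : (n : ℝ) ^ (-1 : ℝ) ≤ (n : ℝ) ^ (-(2 / 5 : ℝ)) :=
      Real.rpow_le_rpow_of_exponent_le (by linarith) (by norm_num)
    have h3 : 1 ≤ K * L := by nlinarith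
    calc 8 * D * (n : ℝ) ^ (-1 : ℝ) ≤ 8 * D * (n : ℝ) ^ (-(2 / 5 : ℝ)) := by gcongr
      _ = 8 * D * 1 * (n : ℝ) ^ (-(2 / 5 : ℝ)) := by ring
      _ ≤ 8 * D * (K * L) * (n : ℝ) ^ (-(2 / 5 : ℝ)) := by gcongr
      _ = _ := by ring
  rw [abs_le']
  constructor
  · -- upper side
    obtain ⟨a, ha⟩ : ∃ a : ℝ, a = y (n + 2) - y n := ⟨_, rfl⟩
    rw [← ha]
    rcases le_or_gt a 0 with ha0 | ha0
    · refine ha0.trans (by positivity)
    have ha1 : a ≤ 1 := by
      have := hsm n hnN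
      rw [← ha] at this
      exact (le_abs_self a).trans this
    obtain ⟨x, hx⟩ : ∃ x : ℝ, x = a * n / (2 * D) := ⟨_, rfl⟩
    rcases lt_or_ge x 2 with hx2 | hx2
    · apply hsmall
      have : a * n / (8 * D) = x / 4 := by rw [hx]; field_simp; ring
      rw [this]; linarith
    have hx0 : 0 ≤ x := by linarith
    obtain ⟨j, hj⟩ : ∃ j : ℕ, j = ⌊x⌋₊ := ⟨_, rfl⟩
    have hj2 : 2 ≤ j := by rw [hj]; exact Nat.le_floor (by exact_mod_cast hx2)
    have hjx : (j : ℝ) ≤ x := by rw [hj]; exact Nat.floor_le hx0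
    have hjx2 : x < j + 1 := by rw [hj]; exact Nat.lt_floor_add_one x
    have hj2R : (2 : ℝ) ≤ j := by exact_mod_cast hj2
    have hjn : 2 * j ≤ n := by
      have h1 : 2 * x ≤ n := by
        rw [hx]
        have : 2 * (a * n / (2 * D)) = a * n / D := by field_simp
        rw [this, div_le_iff₀ (by positivity)]
        nlinarith
      have h2 : 2 * (j : ℝ) ≤ n := by linarith
      exact_mod_cast h2
    have hΔ : ∀ i : ℕ, a - i * (D / n) ≤ y (n + 2 * i + 2) - y (n + 2 * i) := by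
      intro i
      induction i with
      | zero => simp [← ha]
      | succ i ih =>
        have h1 := hkes (n + 2 * i) (by omega)
        have h2 : D / ((n + 2 * i : ℕ) : ℝ) ≤ D / n := by
          apply div_le_div_of_nonneg_left (by linarith) hn0
          push_cast
          have : (0 : ℝ) ≤ i := Nat.cast_nonneg i
          linarith
        have e1 : n + 2 * (i + 1) + 2 = n + 2 * i + 4 := by ring
        have e2 : n + 2 * (i + 1) = n + 2 * i + 2 := by ring
        rw [e1, e2]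
        push_cast
        linarith
    have hsum : ∀ i ≤ j, (i : ℝ) * (a / 2) ≤ y (n + 2 * i) - y n := by
      intro i
      induction i with
      | zero => intro _; simp
      | succ i ih =>
        intro hi
        have h1 := ih (by omega)
        have h2 := hΔ i
        have h3 : (i : ℝ) * (D / n) ≤ a / 2 := by
          have h4 : (i : ℝ) ≤ x := by
            have : (i : ℝ) ≤ j := by exact_mod_cast (by omega : i ≤ j)
            linarith
          calc (i : ℝ) * (D / n) ≤ x * (D / n) := by gcongr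
            _ = a / 2 := by rw [hx]; field_simp
        have e2 : n + 2 * (i + 1) = n + 2 * i + 2 := by ring
        rw [e2]
        push_cast
        linarith
    have h1 := hsum j le_rfl
    have h2 := hhol n (2 * j) (by omega)
    have h3 := fK_le (K := K) (by linarith) (m := 2 * j) (n := n) (by omega) hjn
    rw [← hL] at h3
    refine num_rate (j := j) ha0.le hD hK hL1 (by linarith) (by omega) ?_ ?_
    · have : a * n / (8 * D) = x / 4 := by rw [hx]; field_simp; ring
      rw [this]; linarith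
    · have h4 := le_abs_self (y (n + 2 * j) - y n)
      linarith
  · -- lower side
    obtain ⟨a, ha⟩ : ∃ a : ℝ, a = -(y (n + 2) - y n) := ⟨_, rfl⟩
    rw [← ha]
    rcases le_or_gt a 0 with ha0 | ha0
    · refine ha0.trans (by positivity)
    have ha1 : a ≤ 1 := by
      have := hsm n hnN
      rw [ha]
      exact (neg_le_abs _).trans this
    obtain ⟨x, hx⟩ : ∃ x : ℝ, x = a * n / (4 * D) := ⟨_, rfl⟩
    rcases lt_or_ge x 2 with hx2 | hx2
    · apply hsmall
      have : a * n / (8 * D) = x / 2 := by rw [hx]; field_simp; ring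
      rw [this]; linarith
    have hx0 : 0 ≤ x := by linarith
    obtain ⟨j, hj⟩ : ∃ j : ℕ, j = ⌊x⌋₊ := ⟨_, rfl⟩
    have hj2 : 2 ≤ j := by rw [hj]; exact Nat.le_floor (by exact_mod_cast hx2)
    have hjx : (j : ℝ) ≤ x := by rw [hj]; exact Nat.floor_le hx0
    have hjx2 : x < j + 1 := by rw [hj]; exact Nat.lt_floor_add_one x
    have hj2R : (2 : ℝ) ≤ j := by exact_mod_cast hj2
    have hjn : 4 * j ≤ n := by
      have h1 : 4 * x ≤ n := by
        rw [hx]
        have : 4 * (a * n / (4 * D)) = a * n / D := by field_simp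
        rw [this, div_le_iff₀ (by positivity)]
        nlinarith
      have h2 : 4 * (j : ℝ) ≤ n := by linarith
      exact_mod_cast h2
    have hΔ : ∀ i ≤ j, y (n + 2 - 2 * i) - y (n - 2 * i) ≤ -a + i * (2 * D / n) := by
      intro i
      induction i with
      | zero => intro _; simp [ha]
      | succ i ih =>
        intro hi
        have h0 := ih (by omega)
        have h1 := hkes (n - 2 * (i + 1)) (by omega)
        have h2 : D / ((n - 2 * (i + 1) : ℕ) : ℝ) ≤ 2 * D / n := by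
          have h3 : (n : ℝ) / 2 ≤ ((n - 2 * (i + 1) : ℕ) : ℝ) := by
            have h4 : n ≤ 2 * (n - 2 * (i + 1)) := by omega
            have h5 : (n : ℝ) ≤ 2 * ((n - 2 * (i + 1) : ℕ) : ℝ) := by exact_mod_cast h4
            linarith
          calc D / ((n - 2 * (i + 1) : ℕ) : ℝ) ≤ D / ((n : ℝ) / 2) := by
                apply div_le_div_of_nonneg_left (by linarith) (by positivity) h3
            _ = 2 * D / n := by field_simp
        have e1 : n - 2 * (i + 1) + 2 = n - 2 * i := by omega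
        have e2 : n - 2 * (i + 1) + 4 = n + 2 - 2 * i := by omega
        have e3 : n + 2 - 2 * (i + 1) = n - 2 * i := by omega
        rw [e1, e2] at h1
        rw [e3]
        push_cast
        linarith
    have hsum : ∀ i ≤ j, (i : ℝ) * (a / 2) ≤ y (n + 2 - 2 * i) - y (n + 2) := by
      intro i
      induction i with
      | zero => intro _; simp
      | succ i ih =>
        intro hi
        have h1 := ih (by omega)
        have h2 := hΔ i (by omega)
        have h3 : (i : ℝ) * (2 * D / n) ≤ a / 2 := by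
          have h4 : (i : ℝ) ≤ x := by
            have : (i : ℝ) ≤ j := by exact_mod_cast (by omega : i ≤ j)
            linarith
          calc (i : ℝ) * (2 * D / n) ≤ x * (2 * D / n) := by gcongr
            _ = a / 2 := by rw [hx]; field_simp; ring
        have e2 : n + 2 - 2 * (i + 1) = n - 2 * i := by omega
        rw [e2]
        push_cast
        linarith
    have h1 := hsum j le_rfl
    have h2 := hhol (n + 2 - 2 * j) (2 * j) (by omega)
    rw [show n + 2 - 2 * j + 2 * j = n + 2 by omega] at h2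
    have h3 := fK_le (K := K) (by linarith) (m := 2 * j) (n := n) (by omega) (by omega)
    rw [← hL] at h3
    refine num_rate (j := j) ha0.le hD hK hL1 (by linarith) (by omega) ?_ ?_
    · have : a * n / (8 * D) = x / 2 := by rw [hx]; field_simp; ring
      rw [this]; linarith
    · have h4 := neg_abs_le (y (n + 2) - y (n + 2 - 2 * j))
      linarith

end Pool.Agent.K3h14.SW
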