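import Pool.Agent.K3h14.SW.Half
import Pool.Agent.H46R2.K3.REC
import Pool.Agent.H46R2.K3.CUT

/-!
Self-avoiding walks on `ℤ³`: the recursion over the spans, and the product of two half-space walks.
-/

set_option autoImplicit false

namespace Pool.Agent.K3h14.SW

open Finset Pool.Agent.H46R2.K3 Pool.Agent.H46R2.K3.P Pool.Agent.W325.S3

theorem hs_le_c (n : ℕ) : hs n ≤ c n := by
  classical
  unfold hs c
  refine card_le_card ?_
  intro w hw
  rw [mem_filter] at hw ⊢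
  exact ⟨hw.1, hw.2.1⟩

/-- the main factor -/
noncomputable def Af (t : ℕ) (G Y' : ℝ) : ℝ :=
  Real.exp Y' * (2 * (((8 ^ t : ℕ) : ℝ) + (⌊(4 ^ t / G + 1) * Y'⌋₊ : ℕ) + 1) ^ 4) ^ ⌊Y'⌋₊ *
    mu ^ (2 * ⌊Y'⌋₊)

theorem Af_nonneg (t : ℕ) (G Y' : ℝ) : 0 ≤ Af t G Y' := by
  have := mu0
  unfold Af
  positivity

/-- half-space walks, at the scale `8^t` -/
theorem hs_cmp {t : ℕ} (ht : 1 ≤ t) {Z G : ℝ} (hZ : Z = TH232.S3.Pm t)
    (hG : G = Z * 2 ^ ((2 * t + 2) / 3)) :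
    ∃ Y' : ℝ, 0 ≤ Y' ∧ Y' ≤ 2 * TH232.S3.c₁ * ((t : ℝ) + 1) ^ 2 * (2 ^ t * Z) ∧
      ∀ n ≤ 8 ^ t, (hs n : ℝ) / mu ^ n ≤ (4 * ((8 : ℝ) ^ t + 2)) ^ (2 * 2 ^ t) *
        (Af t G Y' * Vs ⌊(4 ^ t / G + 1) * Y'⌋₊ (2 * ⌊Y'⌋₊) n +
          (2 * (t : ℝ) + 1) * Real.exp (-(2 * (2 ^ t * G)))) := by
  obtain ⟨ρ, Y', hY0, hYle, hbge, hhle⟩ := half_cmp ht hZ hG
  refine ⟨Y', hY0, hYle, ?_⟩
  have hmu0 := mu0
  have hmu1 := one_le_mu
  have hZ1 : 1 ≤ Z := by rw [hZ]; exact TH232.S3.one_le_Pm t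
  have h2p : (1 : ℝ) ≤ 2 ^ ((2 * t + 2) / 3) := one_le_pow₀ (by norm_num)
  have hGZ : Z ≤ G := by rw [hG]; nlinarith
  have hG1 : 1 ≤ G := by linarith
  have h2t : (1 : ℝ) ≤ 2 ^ t := one_le_pow₀ (by norm_num)
  obtain ⟨A, hA⟩ : ∃ A : ℝ, A = Af t G Y' := ⟨_, rfl⟩
  obtain ⟨X, hX⟩ : ∃ X : ℕ, X = ⌊(4 ^ t / G + 1) * Y'⌋₊ := ⟨_, rfl⟩
  obtain ⟨s, hs'⟩ : ∃ s : ℕ, s = 2 * ⌊Y'⌋₊ := ⟨_, rfl⟩
  have hA0 : 0 ≤ A := by rw [hA]; exact Af_nonneg _ _ _
  have hhle' : ∀ n ≤ 8 ^ t, (hle n ρ : ℝ) / mu ^ n ≤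
      ((2 * t : ℕ) : ℝ) * Real.exp (-(7 * (2 ^ t * G))) + A * Vs X s n := by
    intro n hn
    have := hhle n hn
    rw [hA, hX, hs']
    unfold Af
    exact this
  rw [← hA, ← hX, ← hs']
  obtain ⟨ε0, hε0⟩ : ∃ ε0 : ℝ, ε0 = ((2 * t : ℕ) : ℝ) * Real.exp (-(7 * (2 ^ t * G))) := ⟨_, rfl⟩
  have hε00 : 0 ≤ ε0 := by rw [hε0]; positivity
  rw [← hε0] at hhle'
  have hbz : bge 0 (ρ + 1) = 0 := by
    have h1 := hbge 0 (Nat.zero_le _)
    rw [pow_zero, one_mul] at h1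
    have h2 : Real.exp (-(4 * G)) < 1 := by
      rw [Real.exp_lt_one_iff]; linarith
    have h3 : (bge 0 (ρ + 1) : ℝ) < 1 := by linarith
    have h4 : bge 0 (ρ + 1) < 1 := by exact_mod_cast h3
    omega
  have htb : ∀ k, (bge k (ρ + 1) : ℝ) / mu ^ k ≤ hb k := by
    intro k
    unfold hb
    apply div_le_div_of_nonneg_right _ (pow_pos hmu0 _).le
    exact_mod_cast rec_bge_le k (ρ + 1)
  have hrec := rec_abs (N := 8 ^ t) (Lb := 4 ^ t) (Nat.one_le_pow _ _ (by norm_num))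
    (t := fun k => (bge k (ρ + 1) : ℝ) / mu ^ k) (l := fun n => (hle n ρ : ℝ) / mu ^ n)
    (h := fun n => (hs n : ℝ) / mu ^ n) (W := fun n => ε0 + A * Vs X s n)
    (q := 4 * ((8 : ℝ) ^ t + 2)) (δ := 4 ^ t * Real.exp (-(4 * G)))
    (M := Real.exp (2 ^ t * Z))
    (fun k => by positivity) (fun k => (htb k).trans (hb_le_one k))
    (by simp only [hbz]; simp) ?_ (fun n => by positivity)
    (fun n => by have := Vs_nonneg X s n; positivity) (Real.exp_pos _).le ?_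
    (fun n hn => hhle' n hn) ?_ ?_ (by push_cast; linarith) (2 ^ t)
  · intro n hn
    have h1 := hrec n hn
    refine h1.trans ?_
    have hV := Vs_nonneg X s n
    have h8 : (0 : ℝ) < 8 ^ t := by positivity
    have hq1 : (1 : ℝ) ≤ 4 * ((8 : ℝ) ^ t + 2) := by linarith
    have hdiv : n / 4 ^ t ≤ 2 ^ t := by
      apply Nat.div_le_of_le_mul
      rw [← mul_pow]
      exact hn
    have h2 : (4 * ((8 : ℝ) ^ t + 2)) ^ (n / 4 ^ t) ≤ (4 * ((8 : ℝ) ^ t + 2)) ^ 2 ^ t :=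
      pow_le_pow_right₀ hq1 hdiv
    obtain ⟨q, hq⟩ : ∃ q : ℝ, q = (4 * ((8 : ℝ) ^ t + 2)) ^ 2 ^ t := ⟨_, rfl⟩
    have hq1' : 1 ≤ q := by rw [hq]; exact one_le_pow₀ hq1
    have e2 : (4 * ((8 : ℝ) ^ t + 2)) ^ (2 * 2 ^ t) = q * q := by
      rw [hq, ← pow_add]; congr 1; ring
    rw [e2]
    rw [← hq] at h2 ⊢
    -- the error
    have h2δ : 2 * (4 ^ t * Real.exp (-(4 * G))) ≤ Real.exp (-(3 * G)) := by
      have h3 := TH232.S3.g_base1 (2 * t)
      have h4 : TH232.S3.g (2 * t) ≤ G := by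
        have h5 := g_le_gz Z (2 * t)
        rw [hZ, gz_eq (by omega), ← hZ, ← hG] at h5
        exact h5
      have h5 : 2 * (4 : ℝ) ^ t ≤ Real.exp G := by
        refine le_trans ?_ (h3.trans (Real.exp_le_exp.2 h4))
        push_cast
        have e : (2 : ℝ) ^ (2 * t) = 4 ^ t := by rw [pow_mul]; norm_num
        rw [e]
        have h6 : (1 : ℝ) ≤ 4 ^ t := one_le_pow₀ (by norm_num)
        nlinarith
      have e : Real.exp (-(3 * G)) = Real.exp G * Real.exp (-(4 * G)) := by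
        rw [← Real.exp_add]; congr 1; ring
      rw [e, ← mul_assoc]
      exact mul_le_mul_of_nonneg_right h5 (Real.exp_pos _).le
    have herr : (2 * (4 ^ t * Real.exp (-(4 * G)))) ^ (2 ^ t + 1) * Real.exp (2 ^ t * Z) ≤
        Real.exp (-(2 * (2 ^ t * G))) := by
      calc (2 * (4 ^ t * Real.exp (-(4 * G)))) ^ (2 ^ t + 1) * Real.exp (2 ^ t * Z)
          ≤ Real.exp (-(3 * G)) ^ (2 ^ t + 1) * Real.exp (2 ^ t * Z) := by gcongr
        _ = Real.exp (((2 ^ t + 1 : ℕ) : ℝ) * (-(3 * G)) + 2 ^ t * Z) := by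
            rw [← Real.exp_nat_mul, ← Real.exp_add]
        _ ≤ _ := by
            apply Real.exp_le_exp.2
            push_cast
            have h6 : (2 : ℝ) ^ t * Z ≤ 2 ^ t * G := mul_le_mul_of_nonneg_left hGZ (by positivity)
            nlinarith
    have hε1 : ε0 ≤ 2 * (t : ℝ) * Real.exp (-(2 * (2 ^ t * G))) := by
      rw [hε0]
      push_cast
      apply mul_le_mul_of_nonneg_left _ (by positivity)
      apply Real.exp_le_exp.2
      have : 0 ≤ 2 ^ t * G := by positivity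
      linarith
    obtain ⟨e3, he3⟩ : ∃ e3 : ℝ, e3 = Real.exp (-(2 * (2 ^ t * G))) := ⟨_, rfl⟩
    rw [← he3] at herr hε1 ⊢
    have he30 : 0 ≤ e3 := by rw [he3]; exact (Real.exp_pos _).le
    obtain ⟨d, hd⟩ : ∃ d : ℝ, d = (2 * (4 ^ t * Real.exp (-(4 * G)))) ^ (2 ^ t + 1) *
      Real.exp (2 ^ t * Z) := ⟨_, rfl⟩
    have hd0 : 0 ≤ d := by rw [hd]; positivity
    rw [← hd] at herr ⊢
    calc (4 * ((8 : ℝ) ^ t + 2)) ^ (n / 4 ^ t) * (q * (ε0 + A * Vs X s n) + d)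
        ≤ q * (q * (ε0 + A * Vs X s n) + d) := by
          apply mul_le_mul_of_nonneg_right h2
          positivity
      _ ≤ q * (q * (2 * (t : ℝ) * e3 + A * Vs X s n) + q * e3) := by
          apply mul_le_mul_of_nonneg_left _ (by linarith)
          have h7 : d ≤ q * e3 := by
            calc d ≤ e3 := herr
              _ = 1 * e3 := (one_mul _).symm
              _ ≤ q * e3 := mul_le_mul_of_nonneg_right hq1' he30
          have h8 : q * (ε0 + A * Vs X s n) ≤ q * (2 * (t : ℝ) * e3 + A * Vs X s n) := by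
            apply mul_le_mul_of_nonneg_left _ (by linarith)
            linarith
          linarith
      _ = q * q * (A * Vs X s n + (2 * (t : ℝ) + 1) * e3) := by ring
  · -- the sum of the tall bridges
    have h1 : ∀ k ∈ range (4 ^ t), (bge k (ρ + 1) : ℝ) / mu ^ k ≤ Real.exp (-(4 * G)) := by
      intro k hk
      rw [mem_range] at hk
      rw [div_le_iff₀ (pow_pos hmu0 _)]
      have := hbge k hk.le
      linarith
    refine (Finset.sum_le_sum h1).trans ?_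
    rw [Finset.sum_const, Finset.card_range, nsmul_eq_mul]
    push_cast
    exact le_rfl
  · -- the recursion
    intro n hn
    have h1 : (hs n : ℝ) ≤ (hle n ρ : ℝ) +
        ∑ k ∈ range (n + 1), (bge k (ρ + 1) : ℝ) * (hs (n - k) : ℝ) := by
      exact_mod_cast hs_split n ρ
    rw [div_le_iff₀ (pow_pos hmu0 _), add_mul, div_mul_cancel₀ _ (pow_pos hmu0 _).ne',
      Finset.sum_mul]
    refine h1.trans (add_le_add_right (le_of_eq ?_) _)
    refine Finset.sum_congr rfl fun k hk => ?_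
    rw [mem_range] at hk
    have e : mu ^ n = mu ^ k * mu ^ (n - k) := by rw [← pow_add]; congr 1; omega
    rw [e]
    have e1 : mu ^ k ≠ 0 := (pow_pos hmu0 k).ne'
    have e2 : mu ^ (n - k) ≠ 0 := (pow_pos hmu0 _).ne'
    field_simp
  · -- the main term
    intro k n hk hn
    have h1 := Vs_shift X s k (n - k)
    rw [show k + (n - k) = n by omega] at h1
    have h2 := htb k
    have h3 : (bge k (ρ + 1) : ℝ) / mu ^ k ≤ 1 := h2.trans (hb_le_one k)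
    have h4 := Vs_nonneg X s (n - k)
    have h5 : 0 ≤ (bge k (ρ + 1) : ℝ) / mu ^ k := by positivity
    calc (bge k (ρ + 1) : ℝ) / mu ^ k * (ε0 + A * Vs X s (n - k))
        = (bge k (ρ + 1) : ℝ) / mu ^ k * ε0 +
          A * ((bge k (ρ + 1) : ℝ) / mu ^ k * Vs X s (n - k)) := by ring
      _ ≤ 1 * ε0 + A * (hb k * Vs X s (n - k)) := by gcongr
      _ ≤ ε0 + A * Vs X s n := by
          rw [one_mul]
          gcongr
  · -- the a priori bound
    intro n hn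
    rw [div_le_iff₀ (pow_pos hmu0 _)]
    have h1 : (hs n : ℝ) ≤ c n := by exact_mod_cast hs_le_c n
    have h2 := TH232.S3.c_le_g (3 * t) n (by rw [pow_mul]; exact hn)
    have h3 := TH232.S3.g_le_Pm (l := 3 * t) (s := t) (by omega)
    rw [show (3 * t + 2) / 3 = t by omega, ← hZ] at h3
    refine h1.trans (h2.trans ?_)
    rw [mul_comm]
    exact mul_le_mul_of_nonneg_right (Real.exp_le_exp.2 h3) (pow_pos hmu0 _).le

/-- two half-space walks -/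
theorem prod_cmp {t : ℕ} {A e3 q β : ℝ} {X s : ℕ} (hA0 : 0 ≤ A) (he : 0 ≤ e3) (hq : 0 ≤ q)
    (hβ0 : 0 ≤ β)
    (h : ∀ n ≤ 8 ^ t, (hs n : ℝ) / mu ^ n ≤ q * (A * Vs X s n + e3))
    (hβ : ∀ j ≤ 2 * X, hb (8 ^ t + j + 2 * s) ≤ β) :
    1 ≤ (mu * 8 ^ t) * (q ^ 2 * (A ^ 2 * (((X : ℝ) + 1) ^ 2 * β) +
      e3 * (2 * (A * ((X : ℝ) + 1)) + e3))) := by
  have hmu0 := mu0
  have h8 : 1 ≤ 8 ^ t := Nat.one_le_pow _ _ (by norm_num)
  obtain ⟨n, hn⟩ : ∃ n, n = 8 ^ t - 1 := ⟨_, rfl⟩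
  have h1 : (c n : ℝ) ≤ ∑ k ∈ range (n + 1), (hs (k + 1) : ℝ) * (hs (n - k) : ℝ) := by
    exact_mod_cast c_split n
  have h2 := mu_pow_le n
  obtain ⟨B, hB⟩ : ∃ B : ℝ, B = q ^ 2 * (A ^ 2 * (((X : ℝ) + 1) ^ 2 * β) +
      e3 * (2 * (A * ((X : ℝ) + 1)) + e3)) := ⟨_, rfl⟩
  rw [← hB]
  have hX0 : (0 : ℝ) ≤ X := Nat.cast_nonneg X
  have hterm : ∀ k ∈ range (n + 1), (hs (k + 1) : ℝ) * (hs (n - k) : ℝ) ≤ mu ^ (n + 1) * B := by
    intro k hk
    rw [mem_range] at hk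
    have a1 := h (k + 1) (by omega)
    have a2 := h (n - k) (by omega)
    rw [div_le_iff₀ (pow_pos hmu0 _)] at a1 a2
    have hV1 := Vs_nonneg X s (k + 1)
    have hV2 := Vs_nonneg X s (n - k)
    have hV1' := Vs_le X s (k + 1)
    have hV2' := Vs_le X s (n - k)
    have hVV : Vs X s (k + 1) * Vs X s (n - k) ≤ ((X : ℝ) + 1) ^ 2 * β := by
      apply Vs_mul
      intro j hj
      rw [show k + 1 + (n - k) + j + 2 * s = 8 ^ t + j + 2 * s by omega]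
      exact hβ j hj
    have e : mu ^ (n + 1) = mu ^ (k + 1) * mu ^ (n - k) := by
      rw [← pow_add]; congr 1; omega
    calc (hs (k + 1) : ℝ) * (hs (n - k) : ℝ)
        ≤ (q * (A * Vs X s (k + 1) + e3) * mu ^ (k + 1)) *
          (q * (A * Vs X s (n - k) + e3) * mu ^ (n - k)) :=
          mul_le_mul a1 a2 (Nat.cast_nonneg _) (by positivity)
      _ = mu ^ (n + 1) * (q ^ 2 * (A ^ 2 * (Vs X s (k + 1) * Vs X s (n - k)) +
          e3 * (A * Vs X s (k + 1) + A * Vs X s (n - k) + e3))) := by rw [e]; ring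
      _ ≤ mu ^ (n + 1) * (q ^ 2 * (A ^ 2 * (((X : ℝ) + 1) ^ 2 * β) +
          e3 * (A * ((X : ℝ) + 1) + A * ((X : ℝ) + 1) + e3))) := by gcongr
      _ = mu ^ (n + 1) * B := by rw [hB]; ring
  have h3 := Finset.sum_le_sum hterm
  rw [Finset.sum_const, Finset.card_range, nsmul_eq_mul] at h3
  have h4 : mu ^ n ≤ ((n + 1 : ℕ) : ℝ) * (mu ^ (n + 1) * B) := h2.trans (h1.trans h3)
  have h5 : ((n + 1 : ℕ) : ℝ) = 8 ^ t := by
    rw [hn, Nat.sub_add_cancel h8]; push_cast; rfl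
  rw [h5, pow_succ] at h4
  have h6 : mu ^ n * 1 ≤ mu ^ n * (mu * 8 ^ t * B) := by
    calc mu ^ n * 1 = mu ^ n := mul_one _
      _ ≤ 8 ^ t * (mu ^ n * mu * B) := h4
      _ = _ := by ring
  exact le_of_mul_le_mul_left h6 (pow_pos hmu0 n)

end Pool.Agent.K3h14.SW
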